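import Mathlib

namespace Pool.Agent.P.MP_6f280c_lc

/-- `G` and `G'` give node `v` the same `T`-round view: every node at distance less than `T`
from `v` in `G` has the same set of neighbours in `G` and in `G'`. -/
def SameView {V : Type} (T : ℕ) (G G' : SimpleGraph V) (v : V) : Prop :=
  ∀ (u : V) (p : G.Walk v u), p.length < T → G.neighborSet u = G'.neighborSet u

/-- The outputs of the nodes (the partner, or `none`) form a maximal matching of `G`. -/
def IsMaximalMatching {V : Type} (G : SimpleGraph V) (out : V → Option V) : Prop :=
  (∀ v u, out v = some u → G.Adj v u ∧ out u = some v) ∧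
    ∀ v u, G.Adj v u → out v ≠ none ∨ out u ≠ none

end Pool.Agent.P.MP_6f280c_lc
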