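import Pool.Agent.P.MP_6f280c_lc.Phase

namespace Pool.Agent.P.MP_6f280c_lc

open Finset

variable {I : Type}

theorem first_col {N : ℕ} (gr : I → SimpleGraph (Fin N)) (L : ℕ) (hL : N ≤ 2 ^ L) :
    IsCol (nbr gr) (fun _ v u => if v < u then v.val * N + u.val else u.val * N + v.val)
      (2 ^ (3 + 2 * L)) := by
  have enc : ∀ a b a' b' : Fin N, a.val * N + b.val = a'.val * N + b'.val → a = a' ∧ b = b' := by
    intro a b a' b' e
    have h1 : (a.val * N + b.val) % N = b.val := by rw [Nat.mul_add_mod_of_lt b.isLt]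
    have h2 : (a'.val * N + b'.val) % N = b'.val := by rw [Nat.mul_add_mod_of_lt b'.isLt]
    have h3 : b.val = b'.val := by rw [← h1, e, h2]
    rw [h3] at e
    exact ⟨Fin.ext (Nat.eq_of_mul_eq_mul_right a.pos (Nat.add_right_cancel e)), Fin.ext h3⟩
  have enclt : ∀ a b : Fin N, a.val * N + b.val < 2 ^ (3 + 2 * L) := by
    intro a b
    have h1 : a.val * N + b.val < N * N := by nlinarith [a.isLt, b.isLt]
    have h2 : N * N ≤ 2 ^ L * 2 ^ L := Nat.mul_le_mul hL hL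
    have h3 : 2 ^ (3 + 2 * L) = 8 * (2 ^ L * 2 ^ L) := by ring
    omega
  constructor
  · intro i v u h
    rcases lt_trichotomy v u with e | e | e
    · simp only [if_pos e, if_neg (not_lt.2 e.le)]
      exact ⟨trivial, enclt _ _⟩
    · exact absurd e (mem_nbr.1 h).ne
    · simp only [if_pos e, if_neg (not_lt.2 e.le)]
      exact ⟨trivial, enclt _ _⟩
  · intro i v u u' h h' e
    by_cases c1 : v < u <;> by_cases c2 : v < u'
    · simp only [if_pos c1, if_pos c2] at e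
      exact (enc _ _ _ _ e).2
    · simp only [if_pos c1, if_neg c2] at e
      exact absurd (enc _ _ _ _ e).1 (mem_nbr.1 h').ne
    · simp only [if_neg c1, if_pos c2] at e
      exact absurd (enc _ _ _ _ e).1.symm (mem_nbr.1 h).ne
    · simp only [if_neg c1, if_neg c2] at e
      exact (enc _ _ _ _ e).1

theorem decay (L : ℕ) : ((255 : ℝ) / 256) ^ (256 * (L + 1)) * 2 ^ L < 1 := by
  have h1 : ((255 : ℝ) / 256) ^ 256 ≤ 1 / 2 := by
    have h := one_add_mul_le_pow (a := (1 : ℝ) / 255) (by norm_num) 256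
    have e : ((255 : ℝ) / 256) ^ 256 * (1 + 1 / 255) ^ 256 = 1 := by
      rw [← mul_pow]
      norm_num
    have p : (0 : ℝ) < (255 / 256) ^ 256 := by positivity
    have h2 : (2 : ℝ) ≤ (1 + 1 / 255) ^ 256 := le_trans (by norm_num) h
    nlinarith
  rw [pow_mul]
  have h2 : (((255 : ℝ) / 256) ^ 256) ^ (L + 1) ≤ (1 / 2) ^ (L + 1) :=
    pow_le_pow_left₀ (by positivity) h1 _
  have h3 : ((1 : ℝ) / 2) ^ (L + 1) * 2 ^ L = 1 / 2 := by
    rw [pow_succ, mul_right_comm, ← mul_pow]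
    norm_num
  have h4 := mul_le_mul_of_nonneg_right h2 (show (0 : ℝ) ≤ 2 ^ L by positivity)
  linarith

theorem main_loc {N : ℕ} (gr : I → SimpleGraph (Fin N)) (L m j : ℕ) (hL : N ≤ 2 ^ L)
    (hdeg : ∀ i v, (nbr gr i v).card ≤ 2 ^ m) (hj : 6000 * m ≤ 4 ^ j) :
    ∃ p, Loc gr (2 * L + 3 + 256 * (L + 1) * (m + m * (25 * 2 ^ j) + 2 * m + 524296)) p ∧
      ∀ i, IsMaximalMatching (gr i) (p i) := by
  obtain ⟨c, c1, c2⟩ := recolor (r := 1) (t := 2 * L) loc_nbr isSub_nbr hdeg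
    (fun _ _ _ _ => rfl) (first_col gr L hL)
  have e : 2 ^ m * 2 ^ m * 8 = 2 ^ (3 + 2 * m) := by ring
  rw [e] at c2
  have hε : (3000 : ℝ) * (1 / 4) ^ j * m ≤ 1 / 2 := by
    have h1 : (6000 : ℝ) * m ≤ 4 ^ j := by exact_mod_cast hj
    rw [one_div_pow]
    have h2 : (0 : ℝ) < 4 ^ j := by positivity
    rw [mul_one_div, div_mul_eq_mul_div, div_le_iff₀ h2]
    linarith
  obtain ⟨p, a1, a2, a3⟩ := phases (split_main j) (by positivity) hε hdeg c1 c2 (256 * (L + 1))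
  refine ⟨p, a1.mono (by omega), fun i => ⟨a2 i, (a3 i).maximal ?_ (a2 i)⟩⟩
  rw [Fintype.card_fin]
  have h1 : (N : ℝ) ≤ 2 ^ L := by exact_mod_cast hL
  exact lt_of_le_of_lt (mul_le_mul_of_nonneg_left h1 (by positivity)) (decay L)

theorem clog_le {n : ℕ} (hn : 2 ≤ n) : 1 ≤ Nat.clog 2 n ∧ (Nat.clog 2 n : ℝ) ≤ 3 * Real.log n := by
  have h1 : 1 ≤ Nat.clog 2 n := Nat.clog_pos (by norm_num) hn
  refine ⟨h1, ?_⟩
  have h2 : 2 ^ (Nat.clog 2 n).pred < n := Nat.pow_pred_clog_lt_self (by norm_num) (by omega)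
  obtain ⟨k, hk⟩ : ∃ k, Nat.clog 2 n = k + 1 := ⟨Nat.clog 2 n - 1, by omega⟩
  rw [hk] at h2 ⊢
  simp only [Nat.pred_succ] at h2
  have h3 : (2 : ℝ) ^ k ≤ n := by exact_mod_cast h2.le
  have h4 := Real.log_le_log (by positivity) h3
  rw [Real.log_pow] at h4
  have h5 : Real.log 2 ≤ Real.log n := Real.log_le_log (by norm_num) (by exact_mod_cast hn)
  have h6 := Real.log_two_gt_d9
  have h7 : (0 : ℝ) ≤ k := Nat.cast_nonneg k
  push_cast
  nlinarith

theorem pow_le_pow_left_iff_le_aux {a b : ℝ} (h : a ^ 2 ≤ b ^ 2) (hb : 0 ≤ b) : a ≤ b :=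
  le_trans (le_abs_self a) (abs_le_of_sq_le_sq' h hb |> abs_le.2)

theorem time_bound {N Δ : ℕ} (hN : 2 ≤ N) (hΔ : 2 ≤ Δ) :
    ∃ L m j : ℕ, N ≤ 2 ^ L ∧ Δ ≤ 2 ^ m ∧ 6000 * m ≤ 4 ^ j ∧
      ((2 * L + 3 + 256 * (L + 1) * (m + m * (25 * 2 ^ j) + 2 * m + 524296) : ℕ) : ℝ) ≤
        10 ^ 10 * Real.log N * Real.log Δ ^ (3 / 2 : ℝ) := by
  obtain ⟨l1, l2⟩ := clog_le hN
  obtain ⟨m1, m2⟩ := clog_le hΔ
  refine ⟨Nat.clog 2 N, Nat.clog 2 Δ, Nat.log 4 (6000 * Nat.clog 2 Δ) + 1,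
    Nat.le_pow_clog (by norm_num) _, Nat.le_pow_clog (by norm_num) _,
    (Nat.lt_pow_succ_log_self (by norm_num) _).le, ?_⟩
  have j1 : 4 ^ Nat.log 4 (6000 * Nat.clog 2 Δ) ≤ 6000 * Nat.clog 2 Δ :=
    Nat.pow_log_le_self 4 (by omega)
  generalize Nat.log 4 (6000 * Nat.clog 2 Δ) = j at j1
  generalize Nat.clog 2 Δ = m at *
  generalize Nat.clog 2 N = L at *
  have hD : 0 < Real.log Δ := Real.log_pos (by exact_mod_cast hΔ)
  have e : Real.log Δ ^ (3 / 2 : ℝ) = Real.log Δ * √(Real.log Δ) := by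
    rw [Real.sqrt_eq_rpow, show (3 / 2 : ℝ) = 1 + 1 / 2 by norm_num, Real.rpow_add hD,
      Real.rpow_one]
  rw [e]
  set s := √(Real.log Δ) with hs
  have s0 : 0 ≤ s := Real.sqrt_nonneg _
  have s2 : s * s = Real.log Δ := Real.mul_self_sqrt hD.le
  have L1 : (1 : ℝ) ≤ L := by exact_mod_cast l1
  have M1 : (1 : ℝ) ≤ m := by exact_mod_cast m1
  have J1 : ((2 : ℝ) ^ j) ^ 2 ≤ (135 * s) ^ 2 := by
    have : (4 : ℝ) ^ j ≤ 6000 * m := by exact_mod_cast j1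
    have e4 : ((2 : ℝ) ^ j) ^ 2 = 4 ^ j := by
      rw [← pow_mul, mul_comm, pow_mul]
      norm_num
    rw [e4]
    nlinarith
  have J2 : (2 : ℝ) ^ j ≤ 135 * s := by
    exact pow_le_pow_left_iff_le_aux J1 (by positivity)
  have s1 : 1 ≤ 2 * s := by nlinarith
  have R1 : (m : ℝ) + m * (25 * 2 ^ (j + 1)) + 2 * m + 524296 ≤ 1060000 * (m * s) := by
    rw [pow_succ]
    have := mul_le_mul_of_nonneg_left J2 (show (0 : ℝ) ≤ m by positivity)
    have := mul_le_mul_of_nonneg_left s1 (show (0 : ℝ) ≤ m by positivity)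
    nlinarith
  have R2 : (m : ℝ) * s ≤ 3 * (Real.log Δ * s) := by nlinarith
  have R3 : 1 ≤ 2 * ((m : ℝ) * s) := by nlinarith
  have R4 : ((2 * L + 3 + 256 * (L + 1) * (m + m * (25 * 2 ^ (j + 1)) + 2 * m + 524296) : ℕ) : ℝ) ≤
      L * (600000000 * (m * s)) := by
    push_cast
    have := mul_le_mul (show 256 * ((L : ℝ) + 1) ≤ 512 * L by linarith) R1 (by positivity)
      (by positivity)
    have := mul_le_mul_of_nonneg_left R3 (show (0 : ℝ) ≤ L by positivity)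
    nlinarith
  have R5 : (L : ℝ) * (600000000 * (m * s)) ≤
      (3 * Real.log N) * (600000000 * (3 * (Real.log Δ * s))) :=
    mul_le_mul l2 (by linarith) (by positivity) (by linarith)
  have R6 : 0 ≤ Real.log N * (Real.log Δ * s) := by
    have : 0 ≤ Real.log N := by linarith
    positivity
  nlinarith

theorem main : ∃ C : ℝ, ∀ N Δ : ℕ, 2 ≤ N → 2 ≤ Δ →
    ∃ (T : ℕ) (A : SimpleGraph (Fin N) → Fin N → Option (Fin N)),
      (T : ℝ) ≤ C * Real.log N * Real.log Δ ^ (3 / 2 : ℝ) ∧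
      (∀ G G' : SimpleGraph (Fin N), (∀ v, (G.neighborSet v).ncard ≤ Δ) →
        (∀ v, (G'.neighborSet v).ncard ≤ Δ) → ∀ v, SameView T G G' v → A G v = A G' v) ∧
      ∀ G : SimpleGraph (Fin N), (∀ v, (G.neighborSet v).ncard ≤ Δ) →
        IsMaximalMatching G (A G) := by
  classical
  refine ⟨10 ^ 10, fun N Δ hN hΔ => ?_⟩
  obtain ⟨L, m, j, h1, h2, h3, h4⟩ := time_bound hN hΔ
  obtain ⟨p, p1, p2⟩ := main_loc
    (I := {G : SimpleGraph (Fin N) // ∀ v, (G.neighborSet v).ncard ≤ Δ}) Subtype.val L m j h1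
    (fun i v => by
      refine le_trans ?_ ((i.2 v).trans h2)
      rw [← Set.ncard_coe_finset]
      apply le_of_eq
      congr 1
      ext u
      simp [mem_nbr]) h3
  refine ⟨_, fun G v => if h : ∀ v, (G.neighborSet v).ncard ≤ Δ then p ⟨G, h⟩ v else none, h4,
    fun G G' hG hG' v hv => ?_, fun G hG => ?_⟩
  · simp only [dif_pos hG, dif_pos hG']
    exact p1 ⟨G, hG⟩ ⟨G', hG'⟩ v (agree_of_sameView hv)
  · simp only [dif_pos hG]
    exact p2 ⟨G, hG⟩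

end Pool.Agent.P.MP_6f280c_lc
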