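import Pool.Agent.P.MP_6f280c_lc.Loc

namespace Pool.Agent.P.MP_6f280c_lc

open Finset

open Classical in
/-- a position where two numbers differ -/
noncomputable def cvIdx (x y : ℕ) : ℕ :=
  if h : ∃ i, x.testBit i ≠ y.testBit i then Nat.find h else 0

/-- one colour reduction step of Cole and Vishkin -/
noncomputable def cv (x y : ℕ) : ℕ := 2 * cvIdx x y + (if x.testBit (cvIdx x y) then 1 else 0)

theorem cvIdx_spec {x y : ℕ} (h : x ≠ y) : x.testBit (cvIdx x y) ≠ y.testBit (cvIdx x y) := by
  have hex : ∃ i, x.testBit i ≠ y.testBit i := by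
    by_contra hc
    push Not at hc
    exact h (Nat.eq_of_testBit_eq hc)
  unfold cvIdx
  rw [dif_pos hex]
  exact Nat.find_spec hex

theorem cv_ne {x y : ℕ} (h : x ≠ y) (z : ℕ) : cv x y ≠ cv y z := by
  intro e
  have h1 := cvIdx_spec h
  unfold cv at e
  have h2 : cvIdx x y = cvIdx y z := by split_ifs at e <;> omega
  rw [← h2] at e
  cases hx : x.testBit (cvIdx x y) <;> cases hy : y.testBit (cvIdx x y) <;>
    simp [hx, hy] at e h1

theorem cv_lt {x y b : ℕ} (hx : x < 2 ^ b) (hy : y < 2 ^ b) (hb : 1 ≤ b) : cv x y < 2 * b := by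
  have h1 : cvIdx x y < b := by
    by_cases h : x = y
    · subst h
      unfold cvIdx
      rw [dif_neg (by simp)]
      omega
    · by_contra hc
      have hle : 2 ^ b ≤ 2 ^ cvIdx x y := Nat.pow_le_pow_right (by norm_num) (not_lt.1 hc)
      apply cvIdx_spec h
      rw [Nat.testBit_lt_two_pow (hx.trans_le hle), Nat.testBit_lt_two_pow (hy.trans_le hle)]
  unfold cv
  split_ifs <;> omega

theorem two_mul_le_pow (t : ℕ) : 2 * (3 + t + 1) ≤ 2 ^ (3 + t) := by
  induction t with
  | zero => norm_num
  | succ t ih =>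
    rw [← add_assoc, pow_succ]
    omega

open Classical in
/-- an element with a given property, if there is one -/
noncomputable def pick {V : Type} (P : V → Prop) : Option V :=
  if h : ∃ u, P u then some (Classical.choose h) else none

theorem pick_spec {V : Type} {P : V → Prop} {u : V} (h : pick P = some u) : P u := by
  unfold pick at h
  split_ifs at h with hex
  rw [← Option.some.inj h]
  exact Classical.choose_spec hex

theorem pick_ne_none {V : Type} {P : V → Prop} {u : V} (h : P u) : pick P ≠ none := by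
  unfold pick
  rw [dif_pos ⟨u, h⟩]
  simp

theorem pick_eq {V : Type} {P : V → Prop} {u : V} (h : P u) (hu : ∀ w, P w → w = u) :
    pick P = some u := by
  rcases e : pick P with _ | w
  · exact absurd e (pick_ne_none h)
  · rw [hu w (pick_spec e)]

variable {V I : Type} [LinearOrder V] {gr : I → SimpleGraph V}

/-- a symmetric system of neighbour sets -/
def IsSub (gr : I → SimpleGraph V) (H : I → V → Finset V) : Prop :=
  ∀ i v u, u ∈ H i v → (gr i).Adj v u ∧ v ∈ H i u

/-- a proper edge colouring with colours below `K` -/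
def IsCol (H : I → V → Finset V) (c : I → V → V → ℕ) (K : ℕ) : Prop :=
  (∀ i v u, u ∈ H i v → c i v u = c i u v ∧ c i v u < K) ∧
    ∀ i v u u', u ∈ H i v → u' ∈ H i v → c i v u = c i v u' → u = u'

/-- classes of edges that form increasing paths -/
theorem exists_cls {r d : ℕ} {H : I → V → Finset V} (hH : Loc gr r H) (hs : IsSub gr H)
    (hd : ∀ i v, (H i v).card ≤ d) :
    ∃ k : I → V → V → ℕ, Loc gr (r + 1) k ∧
      (∀ i v u, u ∈ H i v → k i v u = k i u v ∧ k i v u < d * d) ∧
      ∀ i v u u', u ∈ H i v → u' ∈ H i v → (v < u ↔ v < u') → k i v u = k i v u' → u = u' := by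
  let port : Finset V → V → ℕ := fun s u => (s.filter (fun w => w < u)).card
  have p1 : ∀ (s : Finset V) u, u ∈ s → port s u < s.card := fun s u hu =>
    Finset.card_lt_card (Finset.filter_ssubset.2 ⟨u, hu, lt_irrefl u⟩)
  have p2 : ∀ (s : Finset V) u u', u ∈ s → u < u' → port s u < port s u' := by
    intro s u u' hu hlt
    apply Finset.card_lt_card
    rw [Finset.ssubset_iff_of_subset]
    · exact ⟨u, Finset.mem_filter.2 ⟨hu, hlt⟩, by simp⟩
    · intro w hw
      exact Finset.mem_filter.2 ⟨(Finset.mem_filter.1 hw).1, (Finset.mem_filter.1 hw).2.trans hlt⟩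
  have p3 : ∀ (s : Finset V) u u', u ∈ s → u' ∈ s → port s u = port s u' → u = u' := by
    intro s u u' hu hu' e
    rcases lt_trichotomy u u' with h | h | h
    · exact absurd e (p2 s u u' hu h).ne
    · exact h
    · exact absurd e (p2 s u' u hu' h).ne'
  have p4 : ∀ i v u, u ∈ H i v → port (H i v) u < d := fun i v u hu =>
    (p1 _ _ hu).trans_le (hd i v)
  have enc : ∀ a b a' b' : ℕ, b < d → b' < d → a * d + b = a' * d + b' → a = a' ∧ b = b' := by
    intro a b a' b' hb hb' e
    have h1 : (a * d + b) % d = b := by rw [Nat.mul_add_mod_of_lt hb]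
    have h2 : (a' * d + b') % d = b' := by rw [Nat.mul_add_mod_of_lt hb']
    have h3 : b = b' := by rw [← h1, e, h2]
    subst h3
    exact ⟨Nat.eq_of_mul_eq_mul_right (by omega) (Nat.add_right_cancel e), rfl⟩
  have enclt : ∀ a b : ℕ, a < d → b < d → a * d + b < d * d := by
    intro a b ha hb
    nlinarith
  refine ⟨fun i v u => if u ∈ H i v then (if v < u then port (H i v) u * d + port (H i u) v
    else port (H i u) v * d + port (H i v) u) else 0, ?_, ?_, ?_⟩
  · intro i i' v hA
    funext u
    show (if u ∈ H i v then _ else _) = (if u ∈ H i' v then _ else _)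
    rw [← hH.here hA (by omega)]
    by_cases hu : u ∈ H i v
    · rw [if_pos hu, if_pos hu, ← hH.adj hA (hs i v u hu).1 le_rfl]
    · rw [if_neg hu, if_neg hu]
  · intro i v u hu
    have hv := (hs i v u hu).2
    simp only [if_pos hu, if_pos hv]
    rcases lt_trichotomy v u with h | h | h
    · rw [if_pos h, if_neg (not_lt.2 h.le)]
      exact ⟨rfl, enclt _ _ (p4 i v u hu) (p4 i u v hv)⟩
    · exact absurd h (hs i v u hu).1.ne
    · rw [if_pos h, if_neg (not_lt.2 h.le)]
      exact ⟨rfl, enclt _ _ (p4 i u v hv) (p4 i v u hu)⟩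
  · intro i v u u' hu hu' hlt e
    simp only [if_pos hu, if_pos hu'] at e
    by_cases h : v < u
    · rw [if_pos h, if_pos (hlt.1 h)] at e
      exact p3 _ _ _ hu hu'
        (enc _ _ _ _ (p4 i u v (hs i v u hu).2) (p4 i u' v (hs i v u' hu').2) e).1
    · rw [if_neg h, if_neg (fun h' => h (hlt.2 h'))] at e
      exact p3 _ _ _ hu hu' (enc _ _ _ _ (p4 i v u hu) (p4 i v u' hu') e).2

/-- colours along the increasing paths of each class -/
def PathCol (H : I → V → Finset V) (k f : I → V → V → ℕ) (K : ℕ) : Prop :=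
  (∀ i v u, u ∈ H i v → f i v u < K) ∧
    ∀ i v u w, u ∈ H i v → w ∈ H i u → v < u → u < w → k i u w = k i v u → f i v u ≠ f i u w

theorem cv_step {r b : ℕ} {H : I → V → Finset V} {k f : I → V → V → ℕ} (hH : Loc gr r H)
    (hs : IsSub gr H) (hk : Loc gr r k) (hf : Loc gr r f)
    (hu : ∀ i v u u', u ∈ H i v → u' ∈ H i v → (v < u ↔ v < u') → k i v u = k i v u' → u = u')
    (hb : 1 ≤ b) (h : PathCol H k f (2 ^ b)) :
    ∃ f', Loc gr (r + 1) f' ∧ PathCol H k f' (2 * b) := by
  refine ⟨fun i v u => if u ∈ H i v then cv (f i v u)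
    ((pick (fun w => w ∈ H i u ∧ u < w ∧ k i u w = k i v u)).elim (f i v u) (f i u)) else 0,
    ?_, ?_, ?_⟩
  · intro i i' v hA
    funext u
    show (if u ∈ H i v then _ else _) = (if u ∈ H i' v then _ else _)
    rw [← hH.here hA (by omega), ← hk.here hA (by omega), ← hf.here hA (by omega)]
    by_cases h1 : u ∈ H i v
    · have ha := (hs i v u h1).1
      rw [if_pos h1, if_pos h1, ← hH.adj hA ha le_rfl, ← hk.adj hA ha le_rfl,
        ← hf.adj hA ha le_rfl]
    · rw [if_neg h1, if_neg h1]
  · intro i v u h1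
    simp only [if_pos h1]
    refine cv_lt (h.1 i v u h1) ?_ hb
    rcases e : pick (fun w => w ∈ H i u ∧ u < w ∧ k i u w = k i v u) with _ | w
    · exact h.1 i v u h1
    · exact h.1 i u w (pick_spec e).1
  · intro i v u w h1 h2 h3 h4 h5
    simp only [if_pos h1, if_pos h2]
    have e : pick (fun w => w ∈ H i u ∧ u < w ∧ k i u w = k i v u) = some w :=
      pick_eq ⟨h2, h4, h5⟩ fun w' hw' =>
        hu i u w' w hw'.1 h2 ⟨fun _ => h4, fun _ => hw'.2.1⟩ (hw'.2.2.trans h5.symm)
    rw [e]
    exact cv_ne (h.2 i v u w h1 h2 h3 h4 h5) _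

theorem cv_iter {H : I → V → Finset V} {k : I → V → V → ℕ} (hs : IsSub gr H)
    (hu : ∀ i v u u', u ∈ H i v → u' ∈ H i v → (v < u ↔ v < u') → k i v u = k i v u' → u = u')
    (t : ℕ) : ∀ {r : ℕ} {f : I → V → V → ℕ}, Loc gr r H → Loc gr r k → Loc gr r f →
      PathCol H k f (2 ^ (3 + t)) → ∃ f', Loc gr (r + t) f' ∧ PathCol H k f' 8 := by
  induction t with
  | zero => exact fun _ _ hf h => ⟨_, hf, h⟩
  | succ t ih =>
    intro r f hH hk hf h
    obtain ⟨f1, a1, a2⟩ := cv_step hH hs hk hf hu (by omega) h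
    have a3 : PathCol H k f1 (2 ^ (3 + t)) :=
      ⟨fun i v u h1 => (a2.1 i v u h1).trans_le (two_mul_le_pow t), a2.2⟩
    obtain ⟨f2, b1, b2⟩ := ih (hH.mono (by omega)) (hk.mono (by omega)) a1 a3
    exact ⟨f2, b1.mono (by omega), b2⟩

/-- reduction of the number of colours of a proper edge colouring -/
theorem recolor {r d t : ℕ} {H : I → V → Finset V} {c : I → V → V → ℕ} (hH : Loc gr r H)
    (hs : IsSub gr H) (hd : ∀ i v, (H i v).card ≤ d) (hc : Loc gr r c)
    (h : IsCol H c (2 ^ (3 + t))) :
    ∃ c', Loc gr (r + t + 2) c' ∧ IsCol H c' (d * d * 8) := by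
  obtain ⟨k, k1, k2, k3⟩ := exists_cls hH hs hd
  have h0 : PathCol H k c (2 ^ (3 + t)) := by
    refine ⟨fun i v u h1 => (h.1 i v u h1).2, fun i v u w h1 h2 h3 h4 _ e => ?_⟩
    rw [(h.1 i v u h1).1] at e
    exact (h3.trans h4).ne (h.2 i u v w (hs i v u h1).2 h2 e)
  obtain ⟨f, f1, f2⟩ := cv_iter hs k3 t (hH.mono (by omega)) k1 (hc.mono (by omega)) h0
  refine ⟨fun i v u => if u ∈ H i v then k i v u * 8 + (if v < u then f i v u else f i u v) else 0,
    ?_, ?_, ?_⟩
  · intro i i' v hA
    funext u
    show (if u ∈ H i v then _ else _) = (if u ∈ H i' v then _ else _)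
    rw [← hH.here hA (by omega), ← k1.here hA (by omega), ← f1.here hA (by omega)]
    by_cases h1 : u ∈ H i v
    · rw [if_pos h1, if_pos h1, ← f1.adj hA (hs i v u h1).1 (by omega)]
    · rw [if_neg h1, if_neg h1]
  · intro i v u h1
    have hv := (hs i v u h1).2
    have a1 := f2.1 i v u h1
    have a2 := f2.1 i u v hv
    have a3 := k2 i v u h1
    simp only [if_pos h1, if_pos hv]
    rcases lt_trichotomy v u with e | e | e
    · rw [if_pos e, if_neg (not_lt.2 e.le)]
      omega
    · exact absurd e (hs i v u h1).1.ne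
    · rw [if_pos e, if_neg (not_lt.2 e.le)]
      omega
  · intro i v u u' h1 h2 e
    simp only [if_pos h1, if_pos h2] at e
    have hv := (hs i v u h1).2
    have hv' := (hs i v u' h2).2
    have a1 := f2.1 i v u h1
    have a2 := f2.1 i u v hv
    have a3 := f2.1 i v u' h2
    have a4 := f2.1 i u' v hv'
    by_cases c1 : v < u <;> by_cases c2 : v < u'
    · rw [if_pos c1, if_pos c2] at e
      exact k3 i v u u' h1 h2 ⟨fun _ => c2, fun _ => c1⟩ (by omega)
    · rw [if_pos c1, if_neg c2] at e
      have hlt : u' < v := lt_of_le_of_ne (not_lt.1 c2) (hs i v u' h2).1.ne'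
      have := f2.2 i u' v u hv' h1 hlt c1 (by rw [← (k2 i v u' h2).1]; omega)
      omega
    · rw [if_neg c1, if_pos c2] at e
      have hlt : u < v := lt_of_le_of_ne (not_lt.1 c1) (hs i v u h1).1.ne'
      have := f2.2 i u v u' hv h2 hlt c2 (by rw [← (k2 i v u h1).1]; omega)
      omega
    · rw [if_neg c1, if_neg c2] at e
      exact k3 i v u u' h1 h2 ⟨fun h => absurd h c1, fun h => absurd h c2⟩ (by omega)

/-- the labels form a matching -/
def IsM (gr : I → SimpleGraph V) (p : I → V → Option V) : Prop :=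
  ∀ i v u, p i v = some u → (gr i).Adj v u ∧ p i u = some v

/-- greedy extension of a matching along a proper edge colouring -/
theorem greedy {r K0 : ℕ} {H : I → V → Finset V} {c : I → V → V → ℕ} {p : I → V → Option V}
    (hH : Loc gr r H) (hs : IsSub gr H) (hc : Loc gr r c) (h : IsCol H c K0) (hp : Loc gr r p)
    (hm : IsM gr p) (K : ℕ) :
    ∃ p', Loc gr (r + K) p' ∧ IsM gr p' ∧ (∀ i v u, p i v = some u → p' i v = some u) ∧
      ∀ i v u, u ∈ H i v → c i v u < K → p' i v ≠ none ∨ p' i u ≠ none := by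
  induction K with
  | zero => exact ⟨p, hp, hm, fun _ _ _ h => h, fun _ _ _ _ h => absurd h (by omega)⟩
  | succ K ih =>
    obtain ⟨q, a1, a2, a3, a4⟩ := ih
    set q' : I → V → Option V := fun i v => if q i v = none then
      pick (fun u => u ∈ H i v ∧ c i v u = K ∧ q i u = none) else q i v with hq'
    have ext : ∀ i v u, q i v = some u → q' i v = some u := by
      intro i v u e
      simp only [hq']
      rw [if_neg (by rw [e]; simp), e]
    have ext' : ∀ i v, q i v ≠ none → q' i v ≠ none := by
      intro i v e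
      simp only [hq']
      rwa [if_neg e]
    refine ⟨q', ?_, ?_, fun i v u e => ext i v u (a3 i v u e), ?_⟩
    · intro i i' v hA
      simp only [hq']
      rw [← hH.here hA (by omega), ← hc.here hA (by omega), ← a1.here hA (by omega)]
      congr 2
      funext u
      by_cases h1 : u ∈ H i v
      · rw [a1.adj hA (hs i v u h1).1 (by omega)]
      · simp only [h1, false_and]
    · intro i v u e
      by_cases h1 : q i v = none
      · simp only [hq'] at e
        rw [if_pos h1] at e
        obtain ⟨b1, b2, b3⟩ := pick_spec e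
        refine ⟨(hs i v u b1).1, ?_⟩
        simp only [hq']
        rw [if_pos b3]
        refine pick_eq ⟨(hs i v u b1).2, by rw [← (h.1 i v u b1).1, b2], h1⟩ fun w hw => ?_
        exact h.2 i u w v hw.1 (hs i v u b1).2 (by rw [hw.2.1, ← (h.1 i v u b1).1, b2])
      · simp only [hq'] at e
        rw [if_neg h1] at e
        exact ⟨(a2 i v u e).1, ext i u v (a2 i v u e).2⟩
    · intro i v u h1 h2
      by_cases c1 : q i v = none
      · by_cases c2 : q i u = none
        · rcases Nat.lt_succ_iff_lt_or_eq.1 h2 with h3 | h3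
          · rcases a4 i v u h1 h3 with e | e
            · exact absurd c1 e
            · exact absurd c2 e
          · left
            simp only [hq']
            rw [if_pos c1]
            exact pick_ne_none (u := u) ⟨h1, h3, c2⟩
        · exact Or.inr (ext' i u c2)
      · exact Or.inl (ext' i v c1)

end Pool.Agent.P.MP_6f280c_lc
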