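import Pool.Agent.P.MP_6f280c_lc.Split

namespace Pool.Agent.P.MP_6f280c_lc

open Finset

variable {V I : Type} [Fintype V] [LinearOrder V] {gr : I → SimpleGraph V}

/-- ends that are closed in pairs -/
structure Clo {r ℓ : ℕ} (L : Link gr r ℓ) (r1 : ℕ) where
  Cl : I → V → Finset V
  mu : I → V → V → V
  le : r ≤ r1
  locC : Loc gr r1 Cl
  locM : Loc gr r1 mu
  sub : ∀ i v u, u ∈ Cl i v → u ∈ L.E i v
  muC : ∀ i v u, u ∈ Cl i v → mu i v u ∈ Cl i v
  mumu : ∀ i v u, u ∈ Cl i v → mu i v (mu i v u) = u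
  mune : ∀ i v u, u ∈ Cl i v → mu i v u ≠ u
  ptC : ∀ i v u, u ∈ Cl i v → (L.pt i v u).2 ∉ Cl i (L.pt i v u).1

namespace Clo

variable {r ℓ r1 : ℕ} {L : Link gr r ℓ} (c : Clo L r1)

/-- the other end of a merged chain -/
noncomputable def pt' (i : I) (v u : V) : V × V :=
  if u ∈ L.E i v then
    (if (L.pt i v u).2 ∈ c.Cl i (L.pt i v u).1 then
      L.pt i (L.pt i v u).1 (c.mu i (L.pt i v u).1 (L.pt i v u).2) else L.pt i v u)
  else (v, u)

/-- the relative sign of a merged chain -/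
noncomputable def rho' (i : I) (v u : V) : ℝ :=
  if u ∈ L.E i v then
    (if (L.pt i v u).2 ∈ c.Cl i (L.pt i v u).1 then
      -(L.rho i v u * L.rho i (L.pt i v u).1 (c.mu i (L.pt i v u).1 (L.pt i v u).2))
    else L.rho i v u)
  else 0

omit [Fintype V] in
theorem pt'_closed {i : I} {v u : V} (hu : u ∈ L.E i v)
    (hb : (L.pt i v u).2 ∈ c.Cl i (L.pt i v u).1) :
    c.pt' i v u = L.pt i (L.pt i v u).1 (c.mu i (L.pt i v u).1 (L.pt i v u).2) := by
  rw [pt', if_pos hu, if_pos hb]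

omit [Fintype V] in
theorem pt'_open {i : I} {v u : V} (hu : u ∈ L.E i v)
    (hb : (L.pt i v u).2 ∉ c.Cl i (L.pt i v u).1) : c.pt' i v u = L.pt i v u := by
  rw [pt', if_pos hu, if_neg hb]

omit [Fintype V] in
theorem rho'_closed {i : I} {v u : V} (hu : u ∈ L.E i v)
    (hb : (L.pt i v u).2 ∈ c.Cl i (L.pt i v u).1) :
    c.rho' i v u =
      -(L.rho i v u * L.rho i (L.pt i v u).1 (c.mu i (L.pt i v u).1 (L.pt i v u).2)) := by
  rw [rho', if_pos hu, if_pos hb]

omit [Fintype V] in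
theorem rho'_open {i : I} {v u : V} (hu : u ∈ L.E i v)
    (hb : (L.pt i v u).2 ∉ c.Cl i (L.pt i v u).1) : c.rho' i v u = L.rho i v u := by
  rw [rho', if_pos hu, if_neg hb]

omit [Fintype V] in
/-- the description of a merged chain seen from its other end -/
theorem back {i : I} {v u : V} (hu : u ∈ L.E i v)
    (hb : (L.pt i v u).2 ∈ c.Cl i (L.pt i v u).1) :
    (c.pt' i v u).2 ∈ L.E i (c.pt' i v u).1 ∧ (c.pt' i v u).2 ∉ c.Cl i (c.pt' i v u).1 ∧
      c.pt' i (c.pt' i v u).1 (c.pt' i v u).2 = (v, u) ∧ c.pt' i v u ≠ (v, u) ∧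
      c.rho' i (c.pt' i v u).1 (c.pt' i v u).2 = c.rho' i v u := by
  have hm := c.muC i _ _ hb
  have hmE := c.sub i _ _ hm
  have h1 := L.ptE i _ _ hmE
  have h2 := L.ptpt i _ _ hmE
  rw [c.rho'_closed hu hb, c.pt'_closed hu hb]
  refine ⟨h1, c.ptC i _ _ hm, ?_, ?_, ?_⟩
  · rw [c.pt'_closed h1 (by rw [h2]; exact hm), h2]
    simp only
    rw [c.mumu i _ _ hb, L.ptpt i v u hu]
  · intro h
    rw [h] at h2
    exact c.mune i _ _ hb (congrArg Prod.snd h2).symm
  · rw [c.rho'_closed h1 (by rw [h2]; exact hm), h2]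
    simp only
    rw [c.mumu i _ _ hb, L.rhopt i v u hu, L.rhopt i _ _ hmE, mul_comm]

/-- the contracted system -/
noncomputable def link : Link gr (r1 + ℓ) (2 * ℓ) where
  E := fun i v => L.E i v \ c.Cl i v
  pt := c.pt'
  rho := c.rho'
  locE := by
    intro i i' v hA
    have := c.le
    show L.E i v \ c.Cl i v = L.E i' v \ c.Cl i' v
    rw [L.locE.here hA (by omega), c.locC.here hA (by omega)]
  locP := by
    intro i i' v hA
    have := c.le
    funext u
    unfold pt'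
    rw [← L.locE.here hA (by omega), ← L.locP.here hA (by omega)]
    by_cases hu : u ∈ L.E i v
    · have hn := L.near i v u hu
      rw [if_pos hu, if_pos hu, ← c.locC.far hA hn (by omega), ← c.locM.far hA hn (by omega),
        ← L.locP.far hA hn (by omega)]
    · rw [if_neg hu, if_neg hu]
  locR := by
    intro i i' v hA
    have := c.le
    funext u
    unfold rho'
    rw [← L.locE.here hA (by omega), ← L.locP.here hA (by omega), ← L.locR.here hA (by omega)]
    by_cases hu : u ∈ L.E i v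
    · have hn := L.near i v u hu
      rw [if_pos hu, if_pos hu, ← c.locC.far hA hn (by omega), ← c.locM.far hA hn (by omega),
        ← L.locR.far hA hn (by omega)]
    · rw [if_neg hu, if_neg hu]
  ptE := by
    intro i v u hu
    rw [Finset.mem_sdiff] at hu ⊢
    by_cases hb : (L.pt i v u).2 ∈ c.Cl i (L.pt i v u).1
    · exact ⟨(c.back hu.1 hb).1, (c.back hu.1 hb).2.1⟩
    · rw [c.pt'_open hu.1 hb]
      exact ⟨L.ptE i v u hu.1, hb⟩
  ptpt := by
    intro i v u hu
    rw [Finset.mem_sdiff] at hu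
    by_cases hb : (L.pt i v u).2 ∈ c.Cl i (L.pt i v u).1
    · exact (c.back hu.1 hb).2.2.1
    · rw [c.pt'_open hu.1 hb, c.pt'_open (L.ptE i v u hu.1) (by rw [L.ptpt i v u hu.1]; exact hu.2),
        L.ptpt i v u hu.1]
  ptne := by
    intro i v u hu
    rw [Finset.mem_sdiff] at hu
    by_cases hb : (L.pt i v u).2 ∈ c.Cl i (L.pt i v u).1
    · exact (c.back hu.1 hb).2.2.2.1
    · rw [c.pt'_open hu.1 hb]
      exact L.ptne i v u hu.1
  rhopt := by
    intro i v u hu
    rw [Finset.mem_sdiff] at hu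
    by_cases hb : (L.pt i v u).2 ∈ c.Cl i (L.pt i v u).1
    · exact (c.back hu.1 hb).2.2.2.2
    · rw [c.pt'_open hu.1 hb, c.rho'_open hu.1 hb,
        c.rho'_open (L.ptE i v u hu.1) (by rw [L.ptpt i v u hu.1]; exact hu.2),
        L.rhopt i v u hu.1]
  rhosq := by
    intro i v u hu
    rw [Finset.mem_sdiff] at hu
    by_cases hb : (L.pt i v u).2 ∈ c.Cl i (L.pt i v u).1
    · rw [c.rho'_closed hu.1 hb]
      have h1 := L.rhosq i v u hu.1
      have h2 := L.rhosq i _ _ (c.sub i _ _ (c.muC i _ _ hb))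
      rcases h1 with h1 | h1 <;> rcases h2 with h2 | h2 <;> rw [h1, h2] <;> norm_num
    · rw [c.rho'_open hu.1 hb]
      exact L.rhosq i v u hu.1
  near := by
    intro i v u hu
    rw [Finset.mem_sdiff] at hu
    by_cases hb : (L.pt i v u).2 ∈ c.Cl i (L.pt i v u).1
    · rw [c.pt'_closed hu.1 hb, two_mul]
      exact (L.near i v u hu.1).trans (L.near i _ _ (c.sub i _ _ (c.muC i _ _ hb)))
    · rw [c.pt'_open hu.1 hb]
      exact (L.near i v u hu.1).mono (by omega)

omit [Fintype V] in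
/-- signs on the contracted system extend to the original system -/
theorem extend {R : ℕ} (hR : r1 ≤ R) (σ' : I → V → V → ℝ) (hloc : Loc gr R σ')
    (h1 : ∀ i v u, u ∈ c.link.E i v → σ' i v u = 1 ∨ σ' i v u = -1)
    (h2 : ∀ i v u, u ∈ c.link.E i v →
      σ' i (c.link.pt i v u).1 (c.link.pt i v u).2 = c.link.rho i v u * σ' i v u) :
    ∃ σ : I → V → V → ℝ, Loc gr (R + ℓ) σ ∧
      (∀ i v u, u ∈ L.E i v → σ i v u = 1 ∨ σ i v u = -1) ∧
      (∀ i v u, u ∈ L.E i v → σ i (L.pt i v u).1 (L.pt i v u).2 = L.rho i v u * σ i v u) ∧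
      ∀ i v, ∑ u ∈ L.E i v, σ i v u = ∑ u ∈ c.link.E i v, σ' i v u := by
  have hle := c.le
  have hopen : ∀ i v u, u ∈ c.Cl i v → (L.pt i v u).2 ∈ c.link.E i (L.pt i v u).1 :=
    fun i v u hu => Finset.mem_sdiff.2 ⟨L.ptE i v u (c.sub i v u hu), c.ptC i v u hu⟩
  refine ⟨fun i v u => if u ∈ c.Cl i v then
    L.rho i v u * σ' i (L.pt i v u).1 (L.pt i v u).2 else σ' i v u, ?_, ?_, ?_, ?_⟩
  · intro i i' v hA
    funext u
    show (if u ∈ c.Cl i v then _ else _) = (if u ∈ c.Cl i' v then _ else _)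
    rw [← c.locC.here hA (by omega), ← L.locP.here hA (by omega), ← L.locR.here hA (by omega),
      ← hloc.here hA (by omega)]
    by_cases hu : u ∈ c.Cl i v
    · rw [if_pos hu, if_pos hu, hloc.far hA (L.near i v u (c.sub i v u hu)) (by omega)]
    · rw [if_neg hu, if_neg hu]
  · intro i v u hu
    by_cases hc : u ∈ c.Cl i v
    · simp only [if_pos hc]
      rcases L.rhosq i v u hu with e1 | e1 <;> rcases h1 i _ _ (hopen i v u hc) with e2 | e2 <;>
        rw [e1, e2] <;> norm_num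
    · simp only [if_neg hc]
      exact h1 i v u (Finset.mem_sdiff.2 ⟨hu, hc⟩)
  · intro i v u hu
    by_cases hc : u ∈ c.Cl i v
    · simp only [if_pos hc, if_neg (c.ptC i v u hc)]
      rcases L.rhosq i v u hu with e1 | e1 <;> rw [e1] <;> ring
    · by_cases hb : (L.pt i v u).2 ∈ c.Cl i (L.pt i v u).1
      · simp only [if_neg hc, if_pos hb, L.ptpt i v u hu, L.rhopt i v u hu]
      · simp only [if_neg hc, if_neg hb]
        have := h2 i v u (Finset.mem_sdiff.2 ⟨hu, hc⟩)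
        change σ' i (c.pt' i v u).1 (c.pt' i v u).2 = c.rho' i v u * σ' i v u at this
        rwa [c.pt'_open hu hb, c.rho'_open hu hb] at this
  · intro i v
    have hsub : c.Cl i v ⊆ L.E i v := fun u hu => c.sub i v u hu
    rw [← Finset.sum_sdiff hsub]
    have e1 : ∑ u ∈ c.Cl i v, (if u ∈ c.Cl i v then
        L.rho i v u * σ' i (L.pt i v u).1 (L.pt i v u).2 else σ' i v u) = 0 := by
      refine Finset.sum_involution (fun u _ => c.mu i v u) ?_ (fun u hu _ => c.mune i v u hu)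
        (fun u hu => c.muC i v u hu) (fun u hu => c.mumu i v u hu)
      intro u hu
      have huE := c.sub i v u hu
      have hm := c.muC i v u hu
      rw [if_pos hu, if_pos hm]
      have h3 := h2 i _ _ (hopen i v u hu)
      have hb : (L.pt i (L.pt i v u).1 (L.pt i v u).2).2 ∈
          c.Cl i (L.pt i (L.pt i v u).1 (L.pt i v u).2).1 := by
        rw [L.ptpt i v u huE]
        exact hu
      change σ' i (c.pt' i _ _).1 (c.pt' i _ _).2 = c.rho' i _ _ * σ' i _ _ at h3
      rw [c.pt'_closed (L.ptE i v u huE) hb, c.rho'_closed (L.ptE i v u huE) hb,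
        L.ptpt i v u huE, L.rhopt i v u huE] at h3
      simp only at h3
      rw [h3]
      rcases L.rhosq i v _ (c.sub i v _ hm) with e | e <;> rw [e] <;> ring
    rw [e1, add_zero]
    refine Finset.sum_congr rfl fun u hu => ?_
    exact if_neg (Finset.mem_sdiff.1 hu).2

end Clo

/-- the same chains with all relative signs negative -/
def Link.neg {r ℓ : ℕ} (L : Link gr r ℓ) : Link gr r ℓ :=
  { L with
    rho := fun _ _ _ => -1
    locR := fun _ _ _ _ => rfl
    rhopt := fun _ _ _ _ => rfl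
    rhosq := fun _ _ _ _ => Or.inr rfl }

theorem split_combine {T1 T2 : ℕ} {ε1 B1 ε2 B2 : ℝ} (h1 : SplitProp gr T1 ε1 B1)
    (h2 : SplitProp gr T2 ε2 B2) (hε : 0 ≤ ε2) (hB : 0 ≤ B2) :
    SplitProp gr (T1 + 2 * T2 + 2) (ε2 * ((1 + ε1) / 4)) (ε2 * (B1 / 4 + 3) + B2) := by
  intro r ℓ L γ hγ
  obtain ⟨τ, hτ, t1, t2, t3⟩ := h1 r ℓ L.neg (fun i v => ((L.E i v).card : ℝ))
    (L.locE.map (fun _ s => (s.card : ℝ)))
  change ∀ i v u, u ∈ L.E i v → _ at t1
  change ∀ i v u, u ∈ L.E i v → τ i (L.pt i v u).1 (L.pt i v u).2 = -1 * τ i v u at t2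
  change ∀ i, ∑ v, ((L.E i v).card : ℝ) * ∑ u ∈ L.E i v, τ i v u ≤ 0 ∧
    ∑ v, (∑ u ∈ L.E i v, τ i v u) ^ 2 ≤
      ε1 * ∑ v, ((L.E i v).card : ℝ) ^ 2 + B1 * ∑ v, ((L.E i v).card : ℝ) at t3
  let In : I → V → Finset V := fun i v => (L.E i v).filter (fun u => τ i v u = -1)
  have hIn : Loc gr (r + T1 * ℓ) In := by
    intro i i' v hA
    show (L.E i v).filter _ = (L.E i' v).filter _
    rw [L.locE.here hA (by omega), hτ.here hA le_rfl]
  let c : Clo L (r + T1 * ℓ) :=
    { Cl := fun i v => (In i v).filter (fun u => mate (In i v) u ≠ u)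
      mu := fun i v => mate (In i v)
      le := by omega
      locC := hIn.map (fun _ s => s.filter (fun u => mate s u ≠ u))
      locM := hIn.map (fun _ s => mate s)
      sub := fun i v u hu => (Finset.mem_filter.1 (Finset.mem_filter.1 hu).1).1
      muC := fun i v u hu => by
        have hu' := Finset.mem_filter.1 hu
        refine Finset.mem_filter.2 ⟨mate_mem hu'.1, ?_⟩
        rw [mate_mate hu'.1]
        exact hu'.2.symm
      mumu := fun i v u hu => mate_mate (Finset.mem_filter.1 hu).1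
      mune := fun i v u hu => (Finset.mem_filter.1 hu).2
      ptC := fun i v u hu hb => by
        have a1 := Finset.mem_filter.1 (Finset.mem_filter.1 hu).1
        have a2 := Finset.mem_filter.1 (Finset.mem_filter.1 hb).1
        have := t2 i v u a1.1
        rw [a1.2, a2.2] at this
        norm_num at this }
  obtain ⟨σ', hσ', s1, s2, s3⟩ := h2 _ _ c.link γ (hγ.mono (by omega))
  obtain ⟨σ, hσ, u1, u2, u3⟩ := c.extend (by omega) σ' hσ' s1 s2
  refine ⟨σ, hσ.mono (le_of_eq (by ring)), u1, u2, fun i => ?_⟩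
  simp only [u3]
  refine ⟨(s3 i).1, (s3 i).2.trans ?_⟩
  -- the number of open ends after the contraction
  have key : ∀ v, ((c.link.E i v).card : ℝ) ≤ (L.E i v).card ∧ ((c.link.E i v).card : ℝ) ^ 2 ≤
      (((L.E i v).card : ℝ) + ∑ u ∈ L.E i v, τ i v u) ^ 2 / 4 + 3 * (L.E i v).card := by
    intro v
    have hd : (c.link.E i v).card ≤ (L.E i v).card := Finset.card_le_card Finset.sdiff_subset
    set Out := (L.E i v).filter (fun u => τ i v u = 1) with hOut
    have ho : (Out.card : ℝ) = (((L.E i v).card : ℝ) + ∑ u ∈ L.E i v, τ i v u) / 2 := by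
      rw [hOut, Finset.card_filter, Finset.card_eq_sum_ones (L.E i v)]
      push_cast
      rw [← Finset.sum_add_distrib, Finset.sum_div]
      refine Finset.sum_congr rfl fun u hu => ?_
      rcases t1 i v u hu with e | e <;> rw [e] <;> norm_num
    have hsub : c.link.E i v ⊆ Out ∪ (In i v).filter (fun u => mate (In i v) u = u) := by
      intro u hu
      have hu' := Finset.mem_sdiff.1 hu
      rcases t1 i v u hu'.1 with e | e
      · exact Finset.mem_union_left _ (Finset.mem_filter.2 ⟨hu'.1, e⟩)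
      · have hin : u ∈ In i v := Finset.mem_filter.2 ⟨hu'.1, e⟩
        refine Finset.mem_union_right _ (Finset.mem_filter.2 ⟨hin, ?_⟩)
        by_contra hne
        exact hu'.2 (Finset.mem_filter.2 ⟨hin, hne⟩)
    have h3 : (c.link.E i v).card ≤ Out.card + 1 :=
      (Finset.card_le_card hsub).trans ((Finset.card_union_le _ _).trans
        (Nat.add_le_add_left (mate_fixed _) _))
    have h4 : Out.card ≤ (L.E i v).card := Finset.card_filter_le _ _
    have h5 : (c.link.E i v).card ^ 2 ≤ Out.card ^ 2 + 3 * (L.E i v).card := by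
      rcases Nat.eq_zero_or_pos (L.E i v).card with h0 | h0
      · have : (c.link.E i v).card = 0 := by omega
        rw [this]
        positivity
      · nlinarith [Nat.pow_le_pow_left h3 2]
    refine ⟨by exact_mod_cast hd, ?_⟩
    have h6 : ((c.link.E i v).card : ℝ) ^ 2 ≤ (Out.card : ℝ) ^ 2 + 3 * (L.E i v).card := by
      exact_mod_cast h5
    rw [ho] at h6
    linarith
  have k1 : ∑ v, ((c.link.E i v).card : ℝ) ≤ ∑ v, ((L.E i v).card : ℝ) :=
    Finset.sum_le_sum fun v _ => (key v).1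
  have k2 : ∑ v, ((c.link.E i v).card : ℝ) ^ 2 ≤
      (1 + ε1) / 4 * ∑ v, ((L.E i v).card : ℝ) ^ 2 + (B1 / 4 + 3) * ∑ v, ((L.E i v).card : ℝ) := by
    refine (Finset.sum_le_sum fun v _ => (key v).2).trans ?_
    have e : ∑ v, ((((L.E i v).card : ℝ) + ∑ u ∈ L.E i v, τ i v u) ^ 2 / 4 + 3 * (L.E i v).card) =
        (∑ v, ((L.E i v).card : ℝ) ^ 2) / 4 +
        (∑ v, ((L.E i v).card : ℝ) * ∑ u ∈ L.E i v, τ i v u) / 2 +
        (∑ v, (∑ u ∈ L.E i v, τ i v u) ^ 2) / 4 + 3 * ∑ v, ((L.E i v).card : ℝ) := by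
      rw [Finset.sum_div, Finset.sum_div, Finset.sum_div, Finset.mul_sum,
        ← Finset.sum_add_distrib, ← Finset.sum_add_distrib, ← Finset.sum_add_distrib]
      exact Finset.sum_congr rfl fun v _ => by ring
    rw [e]
    linarith [(t3 i).1, (t3 i).2]
  nlinarith [mul_le_mul_of_nonneg_left k2 hε, mul_le_mul_of_nonneg_left k1 hB]

omit [LinearOrder V] in
theorem SplitProp.mono {T T' : ℕ} {ε ε' B B' : ℝ} (h : SplitProp gr T ε B) (hT : T ≤ T')
    (hε : ε ≤ ε') (hB : B ≤ B') : SplitProp gr T' ε' B' := by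
  intro r ℓ L γ hγ
  obtain ⟨σ, h1, h2, h3, h4⟩ := h r ℓ L γ hγ
  refine ⟨σ, h1.mono (Nat.add_le_add_left (Nat.mul_le_mul_right _ hT) _), h2, h3,
    fun i => ⟨(h4 i).1, (h4 i).2.trans ?_⟩⟩
  have a1 : 0 ≤ ∑ v, ((L.E i v).card : ℝ) ^ 2 := Finset.sum_nonneg fun _ _ => by positivity
  have a2 : 0 ≤ ∑ v, ((L.E i v).card : ℝ) := Finset.sum_nonneg fun _ _ => by positivity
  exact add_le_add (mul_le_mul_of_nonneg_right hε a1) (mul_le_mul_of_nonneg_right hB a2)

theorem split_zero (t : ℕ) : SplitProp gr (4 * 2 ^ t - 3) ((1 / 2) ^ t) (6 - 6 * (1 / 2) ^ t) := by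
  induction t with
  | zero => simpa using split_base
  | succ t ih =>
    have h1 : ((1 : ℝ) / 2) ^ t ≤ 1 := pow_le_one₀ (by norm_num) (by norm_num)
    refine (split_combine split_base ih (by positivity) (by linarith)).mono ?_ ?_ ?_
    · have := Nat.one_le_two_pow (n := t)
      rw [pow_succ]
      omega
    · rw [pow_succ]
      norm_num
    · rw [pow_succ]
      linarith

theorem half_pow_le (j : ℕ) : ((1 : ℝ) / 2) ^ (j / 2) ≤ 2 * (3 / 4) ^ j := by
  have h1 : ((1 : ℝ) / 2) ^ (j / 2) ≤ ((3 / 4) ^ 2) ^ (j / 2) :=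
    pow_le_pow_left₀ (by norm_num) (by norm_num) _
  rw [← pow_mul] at h1
  have h2 : ((3 : ℝ) / 4) ^ (2 * (j / 2) + 1) ≤ (3 / 4) ^ j :=
    pow_le_pow_of_le_one (by norm_num) (by norm_num) (by omega)
  rw [pow_succ] at h2
  have h3 : (0 : ℝ) ≤ (3 / 4) ^ (2 * (j / 2)) := by positivity
  linarith

theorem split_one (j : ℕ) : ∃ (T : ℕ) (ε B : ℝ), SplitProp gr T ε B ∧ 0 ≤ ε ∧ 0 ≤ B ∧
    (T : ℝ) ≤ 2 ^ j * (25 - 24 * (3 / 4) ^ j) ∧
    ε ≤ (1 / 4) ^ j * Real.exp (8 - 8 * (3 / 4) ^ j) ∧ ε ≤ (1 / 2) ^ j ∧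
    B ≤ 9 - 9 * (1 / 2) ^ j := by
  induction j with
  | zero => exact ⟨1, 1, 0, split_base, by norm_num, le_rfl, by norm_num, by simp, by simp, by simp⟩
  | succ j ih =>
    obtain ⟨T, ε, B, h, hε, hB, a1, a2, a3, a4⟩ := ih
    have hz : SplitProp gr (4 * 2 ^ (j / 2)) ((1 / 2) ^ (j / 2)) 6 :=
      (split_zero (j / 2)).mono (by omega) le_rfl (by
        have : (0 : ℝ) ≤ (1 / 2) ^ (j / 2) := by positivity
        linarith)
    have b0 : (0 : ℝ) ≤ (1 / 2) ^ (j / 2) := by positivity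
    have b1 : ((1 : ℝ) / 2) ^ (j / 2) ≤ 1 := pow_le_one₀ (by norm_num) (by norm_num)
    have b2 := half_pow_le j
    refine ⟨_, _, _, split_combine hz h hε hB, by positivity, by positivity, ?_, ?_, ?_, ?_⟩
    · have c1 : (2 : ℝ) ^ (j / 2) ≤ 2 ^ j * (1 / 2) ^ (j / 2) := by
        rw [one_div_pow, mul_one_div, le_div_iff₀ (by positivity), ← pow_add]
        exact pow_le_pow_right₀ (by norm_num) (by omega)
      have c2 : (1 : ℝ) ≤ 2 ^ (j / 2) := one_le_pow₀ (by norm_num)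
      have c3 : (2 : ℝ) ^ j * (1 / 2) ^ (j / 2) ≤ 2 ^ j * (2 * (3 / 4) ^ j) :=
        mul_le_mul_of_nonneg_left b2 (by positivity)
      push_cast
      rw [pow_succ, pow_succ]
      linarith
    · have c1 : 1 + ((1 : ℝ) / 2) ^ (j / 2) ≤ Real.exp (2 * (3 / 4) ^ j) := by
        have := Real.add_one_le_exp (2 * (3 / 4 : ℝ) ^ j)
        linarith
      have c2 : (8 : ℝ) - 8 * (3 / 4) ^ (j + 1) = (8 - 8 * (3 / 4) ^ j) + 2 * (3 / 4) ^ j := by
        rw [pow_succ]
        ring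
      rw [c2, Real.exp_add, pow_succ]
      have c3 := mul_le_mul a2 c1 (by positivity) (by positivity)
      linarith
    · rw [pow_succ]
      nlinarith
    · rw [pow_succ]
      linarith

/-- the splitting lemma: squared error `O(4^(-j))` in `O(2^j)` rounds -/
theorem split_main (j : ℕ) : SplitProp gr (25 * 2 ^ j) (3000 * (1 / 4) ^ j) 9 := by
  obtain ⟨T, ε, B, h, -, -, a1, a2, -, a4⟩ := split_one (gr := gr) j
  have p1 : (0 : ℝ) ≤ (3 / 4) ^ j := by positivity
  have p2 : (0 : ℝ) ≤ (1 / 2) ^ j := by positivity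
  refine h.mono ?_ (a2.trans ?_) (by linarith)
  · have : (T : ℝ) ≤ ((25 * 2 ^ j : ℕ) : ℝ) := by
      push_cast
      have : (0 : ℝ) ≤ 2 ^ j * (3 / 4) ^ j := by positivity
      linarith
    exact_mod_cast this
  · rw [mul_comm]
    refine mul_le_mul_of_nonneg_right ?_ (by positivity)
    have e1 : Real.exp (8 - 8 * (3 / 4) ^ j) ≤ Real.exp 8 := Real.exp_le_exp.2 (by linarith)
    have e2 : Real.exp 8 = Real.exp 1 ^ 8 := by
      rw [← Real.exp_nat_mul]
      norm_num
    have e3 : Real.exp 1 ^ 8 ≤ 2.7182818286 ^ 8 :=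
      pow_le_pow_left₀ (Real.exp_pos 1).le Real.exp_one_lt_d9.le 8
    have e4 : (2.7182818286 : ℝ) ^ 8 ≤ 3000 := by norm_num
    linarith

end Pool.Agent.P.MP_6f280c_lc
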