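import Pool.Agent.P.MP_6f280c_lc.H7St

namespace Pool.Agent.P.MP_6f280c_lc

open Finset

variable {V I : Type} [Fintype V] [LinearOrder V]

/-- a chosen subset of a given size -/
noncomputable def h7adv_sub (A : Finset V) (n : ℕ) : Finset V :=
  if h : n ≤ A.card then (exists_subset_card_eq h).choose else ∅

omit [Fintype V] [LinearOrder V] in
theorem h7adv_sub_spec {A : Finset V} {n : ℕ} (h : n ≤ A.card) :
    h7adv_sub A n ⊆ A ∧ (h7adv_sub A n).card = n := by
  rw [h7adv_sub, dif_pos h]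
  exact (exists_subset_card_eq h).choose_spec

theorem h7adv_arith {Λ : ℕ} (h : 0 < Λ) (p : ℕ) :
    ((p + 1) % Λ = 0 ∧ p % Λ + 1 = Λ ∧ (p + 1) / Λ = p / Λ + 1) ∨
      ((p + 1) % Λ = p % Λ + 1 ∧ (p + 1) / Λ = p / Λ) := by
  have h1 := Nat.mod_lt p h
  have h2 := Nat.mod_add_div p Λ
  by_cases h3 : p % Λ + 1 = Λ
  · obtain ⟨h4, h5⟩ := (Nat.div_mod_unique (a := p + 1) (d := p / Λ + 1) (c := 0) h).mpr
      ⟨by rw [mul_add]; omega, h⟩
    exact Or.inl ⟨h5, h3, h4⟩
  · obtain ⟨h4, h5⟩ := (Nat.div_mod_unique (a := p + 1) (d := p / Λ) (c := p % Λ + 1) h).mpr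
      ⟨by omega, by omega⟩
    exact Or.inr ⟨h5, h4⟩

/-- the potential inequality, for one instance -/
theorem h7adv_pot {P σ : ℕ} {Z : ℝ} (ptr ptr' : V → V → ℕ) (X X' : V → V → Finset V)
    (S : ℕ → V → Bool) (s : ℕ → ℕ) (Q : ℕ → Finset V)
    (hlt : ∀ u v, X u v ≠ ∅ → ptr u v < P)
    (hQ : ∀ u v, X u v ⊆ Q (ptr u v))
    (hZ : ∑ p ∈ range (P + 1), (16 : ℝ) ^ p * ((Q p).card : ℝ) +
      ∑ u, ∑ v, (if X u v ≠ ∅ then (16 : ℝ) ^ σ / 16 ^ ptr u v else 0) ≤ Z)
    (hstep : ∀ u v, (X u v ≠ ∅ ∧ ptr' u v = ptr u v + 1 ∧ ∀ z ∈ X' u v, S (ptr u v) z = true) ∨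
      (ptr' u v = ptr u v ∧ X' u v = X u v ∧ (X u v ≠ ∅ →
        ((X u v).filter (fun z => S (ptr u v) z = true)).card < s (ptr u v))))
    (hit : ∀ p, (16 : ℝ) ^ (p + 1) * ((univ.filter (fun z => S p z = true)).card : ℝ) +
      (16 : ℝ) ^ (σ + 1) / 16 ^ p * ∑ u, ∑ v, (if (if ptr u v = p then X u v else ∅) ≠ ∅ ∧
        ((if ptr u v = p then X u v else ∅).filter (fun z => S p z = true)).card < s p
          then (1 : ℝ) else 0) ≤
      ((16 : ℝ) ^ (p + 1) * ((Q p).card : ℝ) + (16 : ℝ) ^ (σ + 1) / 16 ^ p *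
        ∑ u, ∑ v, (if (if ptr u v = p then X u v else ∅) ≠ ∅ then (1 : ℝ) else 0)) / 16) :
    ∃ Q' : ℕ → Finset V, (∀ u v, X' u v ⊆ Q' (ptr' u v)) ∧
      ∑ p ∈ range (P + 1), (16 : ℝ) ^ p * ((Q' p).card : ℝ) +
        ∑ u, ∑ v, (if X' u v ≠ ∅ then (16 : ℝ) ^ (σ + 1) / 16 ^ ptr' u v else 0) ≤ 2 * Z := by
  let Q' : ℕ → Finset V := fun p =>
    Nat.casesOn p (Q 0) fun p => Q (p + 1) ∪ univ.filter (fun z => S p z = true)
  have hQQ : ∀ p, Q p ⊆ Q' p := fun p => by
    cases p with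
    | zero => exact Subset.refl _
    | succ p => exact subset_union_left
  refine ⟨Q', fun u v => ?_, ?_⟩
  · rcases hstep u v with ⟨-, h1, h2⟩ | ⟨h1, h2, -⟩
    · rw [h1]
      exact fun z hz => mem_union_right _ (mem_filter.mpr ⟨mem_univ _, h2 z hz⟩)
    · rw [h1, h2]
      exact (hQ u v).trans (hQQ _)
  have h1 : ∑ p ∈ range (P + 1), (16 : ℝ) ^ p * ((Q' p).card : ℝ) ≤
      ∑ p ∈ range (P + 1), (16 : ℝ) ^ p * ((Q p).card : ℝ) +
        ∑ p ∈ range P, (16 : ℝ) ^ (p + 1) * ((univ.filter (fun z => S p z = true)).card : ℝ) := by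
    rw [sum_range_succ', sum_range_succ', add_right_comm, ← sum_add_distrib]
    refine add_le_add (sum_le_sum fun p _ => ?_) le_rfl
    rw [← mul_add]
    gcongr
    exact_mod_cast card_union_le _ _
  have h2 : ∑ u, ∑ v, (if X' u v ≠ ∅ then (16 : ℝ) ^ (σ + 1) / 16 ^ ptr' u v else 0) ≤
      ∑ u, ∑ v, (if X u v ≠ ∅ then (16 : ℝ) ^ σ / 16 ^ ptr u v else 0) +
      ∑ p ∈ range P, (16 : ℝ) ^ (σ + 1) / 16 ^ p * ∑ u, ∑ v,
        (if (if ptr u v = p then X u v else ∅) ≠ ∅ ∧
        ((if ptr u v = p then X u v else ∅).filter (fun z => S p z = true)).card < s p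
          then (1 : ℝ) else 0) := by
    simp only [mul_sum]
    rw [sum_comm (s := range P), ← sum_add_distrib]
    refine sum_le_sum fun u _ => ?_
    rw [sum_comm (s := range P), ← sum_add_distrib]
    refine sum_le_sum fun v _ => ?_
    have h0 : ∀ p ∈ range P, 0 ≤ (16 : ℝ) ^ (σ + 1) / 16 ^ p *
        (if (if ptr u v = p then X u v else ∅) ≠ ∅ ∧
        ((if ptr u v = p then X u v else ∅).filter (fun z => S p z = true)).card < s p
          then (1 : ℝ) else 0) := fun p _ => by positivity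
    rcases hstep u v with ⟨k0, k1, -⟩ | ⟨k1, k2, k3⟩
    · refine le_add_of_le_of_nonneg ?_ (sum_nonneg h0)
      rw [if_pos k0, k1]
      split_ifs
      · rw [pow_succ, pow_succ, mul_div_mul_right _ _ (by norm_num)]
      · positivity
    · rw [k1, k2]
      by_cases k0 : X u v ≠ ∅
      · refine le_add_of_nonneg_of_le (by positivity)
          (le_trans (le_of_eq ?_) (single_le_sum h0 (mem_range.mpr (hlt u v k0))))
        rw [if_pos k0, if_pos rfl, if_pos ⟨k0, k3 k0⟩, mul_one]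
      · rw [if_neg k0, if_neg k0, zero_add]
        exact sum_nonneg h0
  have h3 : ∑ p ∈ range P, (16 : ℝ) ^ σ / 16 ^ p *
      ∑ u, ∑ v, (if (if ptr u v = p then X u v else ∅) ≠ ∅ then (1 : ℝ) else 0) ≤
      ∑ u, ∑ v, (if X u v ≠ ∅ then (16 : ℝ) ^ σ / 16 ^ ptr u v else 0) := by
    simp only [mul_sum]
    rw [sum_comm (s := range P)]
    refine sum_le_sum fun u _ => ?_
    rw [sum_comm (s := range P)]
    refine sum_le_sum fun v _ => ?_
    rw [sum_eq_single (ptr u v) (fun p _ hp => by rw [if_neg hp.symm]; simp) (fun hp => by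
      rw [if_pos rfl, if_neg fun k => hp (mem_range.mpr (hlt u v k)), mul_zero]), if_pos rfl]
    split_ifs <;> simp
  have h4 : ∑ p ∈ range P, (16 : ℝ) ^ p * ((Q p).card : ℝ) ≤
      ∑ p ∈ range (P + 1), (16 : ℝ) ^ p * ((Q p).card : ℝ) := by
    rw [sum_range_succ]
    exact le_add_of_nonneg_right (by positivity)
  have h5 := sum_le_sum fun p (_ : p ∈ range P) => hit p
  have h6 : ∀ (p : ℕ) (x y : ℝ), ((16 : ℝ) ^ (p + 1) * x + (16 : ℝ) ^ (σ + 1) / 16 ^ p * y) / 16 =
      16 ^ p * x + 16 ^ σ / 16 ^ p * y := fun p x y => by ring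
  simp only [h6] at h5
  rw [sum_add_distrib, sum_add_distrib] at h5
  linarith

theorem adv_st (gr : I → SimpleGraph V) : AdvSt gr := by
  intro τ r Λ P σ μ c hH hΛ hF hM
  let s : ℕ → ℕ := fun p => (2 ^ 14) ^ (Λ - p % Λ - 1)
  have hs : ∀ p, 0 < s p := fun p => by positivity
  have hne : ∀ {i u v z}, z ∈ c.X i u v → c.X i u v ≠ ∅ := fun h => ne_empty_of_mem h
  have hnear : ∀ i u v z, z ∈ c.X i u v → Near (gr i) (P / Λ + 2) u z := fun i u v z h =>
    ((hF i u v (hne h)).2 z h).mono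
      (Nat.add_le_add_right (Nat.div_le_div_right (c.lt i u v (hne h)).le) 2)
  have key := fun p : ℕ => hH r (P / Λ + 2) (s p)
    (fun i u v => if c.ptr i u v = p then c.X i u v else ∅) ((16 : ℝ) ^ (p + 1))
    ((16 : ℝ) ^ (σ + 1) / 16 ^ p)
    ((c.locP.prod c.locX).map fun _ a v => if a.1 v = p then a.2 v else ∅)
    (fun i u v z h => hnear i u v z (by
      split_ifs at h
      · exact h
      · exact absurd h (notMem_empty z))) (hs p)
    (fun i u v h => by
      split_ifs at h ⊢ with k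
      · have h1 := Nat.mod_lt p hΛ
        rw [(hF i u v h).1, k, ← pow_succ']
        congr 1
        omega
      · exact absurd rfl h) (by positivity) (by positivity)
  choose S hS hit using key
  let T : I → V → V → Finset V := fun i u v =>
    (c.X i u v).filter (fun z => S (c.ptr i u v) i z = true)
  have hr : r ≤ r + (τ + 1) * (P / Λ + 2) := Nat.le_add_right _ _
  have hT : Loc gr (r + (τ + 1) * (P / Λ + 2)) T := fun i i' u hA => by
    funext v
    simp only [T]
    rw [← c.locP.here hA hr, ← c.locX.here hA hr]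
    refine filter_congr fun z hz => ?_
    rw [(hS _).far hA (hnear i u v z hz) (le_of_eq (by ring))]
  have hL := ((c.locP.mono hr).prod (c.locX.mono hr)).prod hT
  let ok : I → V → V → Prop := fun i u v => c.X i u v ≠ ∅ ∧ s (c.ptr i u v) ≤ (T i u v).card
  let ptr' : I → V → V → ℕ := fun i u v => if ok i u v then c.ptr i u v + 1 else c.ptr i u v
  let X' : I → V → V → Finset V := fun i u v =>
    if ok i u v then h7adv_sub (T i u v) (s (c.ptr i u v)) else c.X i u v
  have h1 : ∀ i u v, ok i u v → ptr' i u v = c.ptr i u v + 1 ∧ X' i u v ⊆ T i u v ∧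
      (X' i u v).card = s (c.ptr i u v) := fun i u v h => by
    simp only [ptr', X', if_pos h]
    exact ⟨trivial, h7adv_sub_spec h.2⟩
  have h2 : ∀ i u v, ¬ok i u v → ptr' i u v = c.ptr i u v ∧ X' i u v = c.X i u v :=
    fun i u v h => ⟨if_neg h, if_neg h⟩
  have hE : ∀ i u v, X' i u v = ∅ ↔ c.X i u v = ∅ := fun i u v => by
    by_cases h : ok i u v
    · refine iff_of_false (fun k => ?_) h.1
      have := (h1 i u v h).2.2
      rw [k, card_empty] at this
      exact (hs _).ne this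
    · rw [(h2 i u v h).2]
  have hpot : ∀ i, ∃ Q : ℕ → Finset V, (∀ u v, X' i u v ⊆ Q (ptr' i u v)) ∧
      ∑ p ∈ range (P + 1), (16 : ℝ) ^ p * ((Q p).card : ℝ) +
        ∑ u, ∑ v, (if X' i u v ≠ ∅ then (16 : ℝ) ^ (σ + 1) / 16 ^ ptr' i u v else 0) ≤
      2 ^ (σ + 1) * ((Fintype.card V : ℝ) + (Fintype.card V : ℝ) ^ 2) := fun i => by
    obtain ⟨Q, k1, k2⟩ := c.pot i
    rw [pow_succ' (2 : ℝ) σ, mul_assoc]
    refine h7adv_pot (c.ptr i) (ptr' i) (c.X i) (X' i) (fun p => S p i) s Q (c.lt i) k1 k2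
      (fun u v => ?_) fun p => hit p i (Q p) fun u v => ?_
    · by_cases h : ok i u v
      · exact Or.inl ⟨h.1, (h1 i u v h).1, fun z hz => (mem_filter.mp ((h1 i u v h).2.1 hz)).2⟩
      · exact Or.inr ⟨(h2 i u v h).1, (h2 i u v h).2, fun k => not_le.mp fun k' => h ⟨k, k'⟩⟩
    · split_ifs with k
      · exact k ▸ k1 u v
      · exact empty_subset _
  refine ⟨{ ptr := ptr'
            X := X'
            lab := c.lab
            locP := hL.map fun _ a v =>
              if a.1.2 v ≠ ∅ ∧ s (a.1.1 v) ≤ (a.2 v).card then a.1.1 v + 1 else a.1.1 v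
            locX := hL.map fun _ a v =>
              if a.1.2 v ≠ ∅ ∧ s (a.1.1 v) ≤ (a.2 v).card then h7adv_sub (a.2 v) (s (a.1.1 v))
              else a.1.2 v
            locL := c.locL.mono hr
            symP := fun i u v => by simp only [ptr', ok, T, c.symP i u v, c.symX i u v]
            symX := fun i u v => by simp only [X', ok, T, c.symP i u v, c.symX i u v]
            symL := fun i u v h k => c.symL i u v h ((hE i u v).mp k)
            adj := fun i u v h => c.adj i u v (mt (hE i u v).mpr h)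
            lt := fun i u v h => ?_
            size := fun i u v h => ?_
            nearL := fun i u v h k => c.nearL i u v h ((hE i u v).mp k)
            mult := fun i u => by simp only [hE]; exact c.mult i u
            pot := hpot }⟩
  · have k0 := c.lt i u v (mt (hE i u v).mpr h)
    have k1 : ptr' i u v ≤ P := by
      by_cases k : ok i u v
      · rw [(h1 i u v k).1]; exact k0
      · rw [(h2 i u v k).1]; exact k0.le
    refine lt_of_le_of_ne k1 fun k2 => ?_
    obtain ⟨Q, k3, k4⟩ := hpot i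
    have k5 : (1 : ℝ) ≤ (Q P).card := by
      exact_mod_cast card_pos.mpr ((nonempty_iff_ne_empty.mpr h).mono (k2 ▸ k3 u v))
    have k6 : (16 : ℝ) ^ P * ((Q P).card : ℝ) ≤
        ∑ p ∈ range (P + 1), (16 : ℝ) ^ p * ((Q p).card : ℝ) :=
      single_le_sum (f := fun p => (16 : ℝ) ^ p * ((Q p).card : ℝ)) (fun p _ => by positivity)
        (self_mem_range_succ P)
    have k7 : (16 : ℝ) ^ P ≤ 16 ^ P * ((Q P).card : ℝ) :=
      le_mul_of_one_le_right (by positivity) k5
    have k8 : 0 ≤ ∑ u, ∑ v,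
        (if X' i u v ≠ ∅ then (16 : ℝ) ^ (σ + 1) / 16 ^ ptr' i u v else 0) :=
      sum_nonneg fun u _ => sum_nonneg fun v _ => by positivity
    linarith
  · by_cases k : ok i u v
    · obtain ⟨k1, k2, k3⟩ := h1 i u v k
      have k4 : ∀ z ∈ X' i u v, Near (gr i) (c.ptr i u v / Λ + 2) u z := fun z hz =>
        (hF i u v k.1).2 z (mem_filter.mp (k2 hz)).1
      rw [k1, k3]
      rcases h7adv_arith hΛ (c.ptr i u v) with ⟨a1, a2, a3⟩ | ⟨a1, a2⟩
      · refine Or.inr ⟨a1, ?_, by rw [a3]; exact k4⟩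
        simp only [s]
        rw [show Λ - c.ptr i u v % Λ - 1 = 0 by omega, pow_zero]
      · exact Or.inl ⟨by rw [a1]; rfl, by rw [a2]; exact k4⟩
    · rw [(h2 i u v k).1, (h2 i u v k).2]
      exact c.size i u v (mt (hE i u v).mpr h)

end Pool.Agent.P.MP_6f280c_lc
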