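import Pool.Agent.P.MP_6f280c_lc.H7St

namespace Pool.Agent.P.MP_6f280c_lc

open Finset

variable {V I : Type} [Fintype V] [LinearOrder V]

/-- the nodes that occur in some set -/
def h7cls_play (X : V → V → Finset V) : Finset V := univ.filter (fun z => ∃ u v, z ∈ X u v)

/-- pairs of equal colour below `j` -/
noncomputable def h7cls_M (X : V → V → Finset V) (c : V → ℕ) (j : ℕ) : ℝ :=
  ∑ u, ∑ v, ∑ z ∈ X u v, ∑ z' ∈ X u v, if c z = c z' ∧ c z < j then (1 : ℝ) else 0

/-- the gradient of the potential -/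
noncomputable def h7cls_grad (X : V → V → Finset V) (w : V → ℝ) (a b : ℝ) (z : V) : ℝ :=
  a + 2 * b * ∑ u, ∑ v, if z ∈ X u v then ∑ y ∈ X u v, w y else 0

/-- the new values -/
noncomputable def h7cls_del (X : V → V → Finset V) (c : V → ℕ) (w : V → ℝ) (a b : ℝ) (j : ℕ)
    (z : V) : ℝ :=
  if c z = j then (if 0 ≤ h7cls_grad X w a b z then -1 / 16 else 15 / 16) else 0

theorem h7cls_sub (X : V → V → Finset V) (u v : V) : X u v ⊆ h7cls_play X := fun _ hz =>
  mem_filter.mpr ⟨mem_univ _, u, v, hz⟩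

theorem h7cls_step (X : V → V → Finset V) (c : V → ℕ) (w : V → ℝ) {a b : ℝ} (j : ℕ) (hb : 0 ≤ b)
    (h : a * ∑ z ∈ h7cls_play X, w z + b * ∑ u, ∑ v, (∑ z ∈ X u v, w z) ^ 2 ≤ b * h7cls_M X c j) :
    a * ∑ z ∈ h7cls_play X, (w z + h7cls_del X c w a b j z) +
      b * ∑ u, ∑ v, (∑ z ∈ X u v, (w z + h7cls_del X c w a b j z)) ^ 2 ≤
      b * h7cls_M X c (j + 1) := by
  set δ := h7cls_del X c w a b j with hδ
  have h1 : ∑ z ∈ h7cls_play X, δ z * h7cls_grad X w a b z ≤ 0 := sum_nonpos fun z _ => by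
    simp only [hδ, h7cls_del]
    split_ifs with h2 h3
    · linarith
    · linarith
    · simp
  have h2 : ∑ z ∈ h7cls_play X, δ z * h7cls_grad X w a b z = a * ∑ z ∈ h7cls_play X, δ z +
      2 * b * ∑ u, ∑ v, (∑ z ∈ X u v, w z) * ∑ z ∈ X u v, δ z := by
    have e : ∀ u v, (∑ z ∈ X u v, w z) * ∑ z ∈ X u v, δ z =
        ∑ z ∈ h7cls_play X, δ z * if z ∈ X u v then ∑ y ∈ X u v, w y else 0 := fun u v => by
      simp only [mul_ite, mul_zero]
      rw [sum_ite_mem, inter_eq_right.mpr (h7cls_sub X u v), ← sum_mul, mul_comm]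
    simp only [e]
    rw [sum_comm_cycle, mul_sum, mul_sum, ← sum_add_distrib]
    refine sum_congr rfl fun z _ => ?_
    simp only [← mul_sum, h7cls_grad]
    ring
  have h3 : h7cls_M X c j + ∑ u, ∑ v, (∑ z ∈ X u v, δ z) ^ 2 ≤ h7cls_M X c (j + 1) := by
    simp only [h7cls_M, sq, sum_mul_sum, ← sum_add_distrib]
    refine sum_le_sum fun u _ => sum_le_sum fun v _ => sum_le_sum fun z _ =>
      sum_le_sum fun z' _ => ?_
    by_cases h4 : c z = j ∧ c z' = j
    · rw [if_neg (by omega), if_pos (by omega)]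
      simp only [hδ, h7cls_del, h4.1, h4.2, if_true]
      split_ifs <;> norm_num
    · have : δ z * δ z' = 0 := by
        simp only [hδ, h7cls_del]
        rcases not_and_or.mp h4 with h5 | h5 <;> simp [h5]
      rw [this, add_zero]
      split_ifs with h5 h6
      · exact le_rfl
      · omega
      · norm_num
      · exact le_rfl
  have h4 : ∑ u, ∑ v, (∑ z ∈ X u v, (w z + δ z)) ^ 2 = ∑ u, ∑ v, (∑ z ∈ X u v, w z) ^ 2 +
      2 * ∑ u, ∑ v, (∑ z ∈ X u v, w z) * ∑ z ∈ X u v, δ z + ∑ u, ∑ v, (∑ z ∈ X u v, δ z) ^ 2 := by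
    simp only [mul_sum univ, ← sum_add_distrib]
    refine sum_congr rfl fun u _ => sum_congr rfl fun v _ => ?_
    rw [sum_add_distrib]
    ring
  rw [h4, sum_add_distrib]
  nlinarith [mul_le_mul_of_nonneg_left h3 hb]

theorem h7cls_loc {gr : I → SimpleGraph V} {r s R : ℕ} {X : I → V → V → Finset V}
    {w : I → V → ℝ} (a b : ℝ) (hX : Loc gr r X) (hN : ∀ i u v z, z ∈ X i u v → Near (gr i) R u z)
    (hw : Loc gr s w) (hs : r ≤ s) :
    Loc gr (s + R + R) (fun i z => h7cls_grad (X i) (w i) a b z) := by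
  have h1 : Loc gr (s + R) (fun i u v => ∑ y ∈ X i u v, w i y) := fun i i' u hA => by
    funext v
    have e : X i u = X i' u := hX.here hA (by omega)
    show ∑ y ∈ X i u v, w i y = ∑ y ∈ X i' u v, w i' y
    rw [← e]
    exact sum_congr rfl fun y hy => hw.far hA (hN i u v y hy) le_rfl
  have h2 := ((hX.mono (by omega : r ≤ s + R)).prod h1).gather (k := R)
    (fun z _ p => ∑ v, if z ∈ p.1 v then p.2 v else 0) 0 fun i z u h => by
      obtain ⟨v, -, hv⟩ := exists_ne_zero_of_sum_ne_zero h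
      exact (hN i u v z (by by_contra h3; exact hv (if_neg h3))).symm
  exact h2.map fun _ g => a + 2 * b * ∑ u, g u

theorem class_st (gr : I → SimpleGraph V) : ClassSt gr := by
  intro r R q X c a b hX hN hc hq ha hb
  have key : ∀ j, ∃ w : I → V → ℝ, Loc gr (r + 2 * j * R) w ∧
      (∀ i z, c i z < j → w i z = -1 / 16 ∨ (w i z = 15 / 16 ∧ z ∈ h7cls_play (X i))) ∧
      (∀ i z, ¬c i z < j → w i z = 0) ∧
      ∀ i, a * ∑ z ∈ h7cls_play (X i), w i z + b * ∑ u, ∑ v, (∑ z ∈ X i u v, w i z) ^ 2 ≤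
        b * h7cls_M (X i) (c i) j := fun j => by
    induction j with
    | zero =>
      exact ⟨fun _ _ => 0, Loc.const _, fun _ _ h => absurd h (Nat.not_lt_zero _),
        fun _ _ _ => rfl, fun i => by simp [h7cls_M]⟩
    | succ j ih =>
      obtain ⟨w, h1, h2, h3, h4⟩ := ih
      have e : r + 2 * (j + 1) * R = r + 2 * j * R + R + R := by ring
      refine ⟨fun i z => w i z + h7cls_del (X i) (c i) (w i) a b j z, ?_, fun i z h5 => ?_,
        fun i z h5 => ?_, fun i => h7cls_step _ _ _ j hb (h4 i)⟩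
      · rw [e]
        exact ((h1.mono (by omega)).prod ((hc.mono (by omega)).prod
          (h7cls_loc a b hX hN h1 (by omega)))).map fun _ p =>
            p.1 + if p.2.1 = j then (if 0 ≤ p.2.2 then -1 / 16 else 15 / 16) else 0
      · by_cases h6 : c i z = j
        · simp only [h7cls_del, h3 i z (by omega), zero_add, if_pos h6]
          split_ifs with h7
          · exact Or.inl rfl
          · refine Or.inr ⟨rfl, ?_⟩
            by_contra h8
            refine h7 ?_
            rw [h7cls_grad, sum_eq_zero fun u _ => sum_eq_zero fun v _ =>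
              if_neg fun h9 => h8 (h7cls_sub _ u v h9)]
            linarith
        · simp only [h7cls_del, if_neg h6, add_zero]
          exact h2 i z (by omega)
      · simp only [h7cls_del, h3 i z (by omega), if_neg (show c i z ≠ j by omega), add_zero]
  obtain ⟨w, h1, h2, -, h4⟩ := key q
  refine ⟨fun i z => decide (w i z = 15 / 16),
    (h1.mono (by nlinarith)).map fun _ x => decide (x = 15 / 16), fun i U hU => ?_⟩
  have e1 : ∀ T : Finset V, ∑ z ∈ T, w i z =
      ((T.filter (fun z => decide (w i z = 15 / 16) = true)).card : ℝ) - (T.card : ℝ) / 16 :=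
    fun T => by
      rw [card_filter, card_eq_sum_ones, Nat.cast_sum, Nat.cast_sum, sum_div, ← sum_sub_distrib]
      refine sum_congr rfl fun z _ => ?_
      rcases h2 i z (hq i z) with h5 | h5
      · rw [h5]; norm_num
      · rw [h5.1]; norm_num
  have e2 : (h7cls_play (X i)).filter (fun z => decide (w i z = 15 / 16) = true) =
      univ.filter (fun z => decide (w i z = 15 / 16) = true) := by
    ext z
    simp only [mem_filter, mem_univ, true_and, decide_eq_true_eq, and_iff_right_iff_imp]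
    intro h5
    rcases h2 i z (hq i z) with h6 | h6
    · rw [h5] at h6; norm_num at h6
    · exact h6.2
  have e3 : h7cls_M (X i) (c i) q = (monoPairs (X i) (c i) : ℝ) := by
    simp only [h7cls_M, monoPairs, card_filter, sum_product, hq, and_true, Nat.cast_sum,
      Nat.cast_ite, Nat.cast_one, Nat.cast_zero]
  have e4 : ((h7cls_play (X i)).card : ℝ) ≤ U.card := by
    refine Nat.cast_le.mpr (card_le_card fun z hz => ?_)
    obtain ⟨u, v, h5⟩ := (mem_filter.mp hz).2
    exact hU u v h5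
  have h5 := h4 i
  simp only [e1, e2, e3] at h5
  nlinarith [mul_le_mul_of_nonneg_left e4 ha]

end Pool.Agent.P.MP_6f280c_lc
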