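import Pool.Agent.P.MP_6f280c_lc.H7St

namespace Pool.Agent.P.MP_6f280c_lc

open Finset

variable {V I : Type} [Fintype V] [LinearOrder V]

omit [LinearOrder V] in
theorem h7hit_mono_inj (X : V → V → Finset V) (idn : V → ℕ) (hinj : Function.Injective idn) :
    monoPairs X idn = ∑ u, ∑ v, (X u v).card := by
  classical
  unfold monoPairs
  refine Finset.sum_congr rfl fun u _ => Finset.sum_congr rfl fun v _ => ?_
  symm
  refine Finset.card_bij (fun z _ => (z, z)) ?_ ?_ ?_
  · intro z hz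
    simp [hz]
  · intro z _ z' _ h
    exact congrArg Prod.fst h
  · rintro ⟨a, b⟩ h
    simp only [Finset.mem_filter, Finset.mem_product] at h
    have := hinj h.2
    subst this
    exact ⟨a, h.1.1, rfl⟩

theorem h7hit_div {p k m m' S : ℕ} (hp : 0 < p) (e : 2 ^ 15 * k ≤ p)
    (h : p * m' ≤ p * m + k * S) : (m' : ℝ) ≤ m + (S : ℝ) / 2 ^ 15 := by
  have h1 : (p : ℝ) * m' ≤ p * m + k * S := by exact_mod_cast h
  have h2 : (2 : ℝ) ^ 15 * k ≤ p := by exact_mod_cast e
  have h3 : (0 : ℝ) < p := by exact_mod_cast hp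
  have h4 : (0 : ℝ) ≤ S := Nat.cast_nonneg S
  have h5 : (k : ℝ) * S ≤ p * (S / 2 ^ 15) := by
    have := mul_le_mul_of_nonneg_right h2 h4
    linarith
  have h6 : (p : ℝ) * m' ≤ p * (m + S / 2 ^ 15) := by linarith
  exact le_of_mul_le_mul_left h6 h3

theorem hit_of (gr : I → SimpleGraph V) (hD : DefectSt gr) (hC : ClassSt gr) (idn : V → ℕ)
    (hinj : Function.Injective idn) {p1 k1 p2 k2 : ℕ} (h1 : p1.Prime) (h2 : p2.Prime)
    (hid : ∀ v, idn v < p1 ^ (k1 + 1)) (h12 : p1 ^ 2 ≤ p2 ^ (k2 + 1)) (e1 : 2 ^ 15 * k1 ≤ p1)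
    (e2 : 2 ^ 15 * k2 ≤ p2) : HitProp gr (2 * p2 ^ 2 + 5) := by
  intro r R s X a b hX hn hs hcard ha hb
  obtain ⟨c1, a1, a2, a3⟩ := hD r R p1 k1 X (fun _ v => idn v) h1 hX hn (Loc.const idn)
    (fun _ z => hid z)
  obtain ⟨c2, b1, b2, b3⟩ := hD (r + 2 * R) R p2 k2 X c1 h2 (hX.mono (by omega)) hn a1
    (fun i z => (a2 i z).trans_le h12)
  have hs' : (1 : ℝ) ≤ s := by exact_mod_cast hs
  have hden : (0 : ℝ) < (1023 * s) ^ 2 := by positivity
  obtain ⟨S, c3, c4⟩ := hC (r + 2 * R + 2 * R) R (p2 ^ 2) X c2 a (b / (1023 * s) ^ 2)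
    (hX.mono (by omega)) hn b1 b2 ha (by positivity)
  refine ⟨S, c3.mono (le_of_eq (by ring)), fun i U hU => ?_⟩
  have d1 := h7hit_div h1.pos e1 (a3 i)
  have d2 := h7hit_div h2.pos e2 (b3 i)
  rw [h7hit_mono_inj _ _ hinj] at d1
  have d3 := c4 i U hU
  set act : ℝ := ∑ u, ∑ v, (if X i u v ≠ ∅ then (1 : ℝ) else 0) with hact
  have act0 : 0 ≤ act := Finset.sum_nonneg fun u _ => Finset.sum_nonneg fun v _ => by
    split_ifs <;> norm_num
  have f1 : ((∑ u, ∑ v, (X i u v).card : ℕ) : ℝ) = 2 ^ 14 * s * act := by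
    rw [hact]
    push_cast
    simp only [Finset.mul_sum]
    refine Finset.sum_congr rfl fun u _ => Finset.sum_congr rfl fun v _ => ?_
    split_ifs with h
    · rw [hcard i u v h]
      push_cast
      ring
    · rw [not_not.1 h]
      simp
  have f2 : ((∑ u, ∑ v, (X i u v).card ^ 2 : ℕ) : ℝ) = 2 ^ 28 * s ^ 2 * act := by
    rw [hact]
    push_cast
    simp only [Finset.mul_sum]
    refine Finset.sum_congr rfl fun u _ => Finset.sum_congr rfl fun v _ => ?_
    split_ifs with h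
    · rw [hcard i u v h]
      push_cast
      ring
    · rw [not_not.1 h]
      simp
  rw [f2] at d1 d2
  rw [f1] at d1
  have f3 : (monoPairs (X i) (c2 i) : ℝ) ≤ 2 ^ 15 * s ^ 2 * act := by
    have : (s : ℝ) * act ≤ s ^ 2 * act := mul_le_mul_of_nonneg_right (by nlinarith) act0
    linarith
  have f4 : b / (1023 * s) ^ 2 * (monoPairs (X i) (c2 i) : ℝ) ≤ b * act / 16 := by
    refine (mul_le_mul_of_nonneg_left f3 (by positivity)).trans ?_
    have e : b / (1023 * s) ^ 2 * (2 ^ 15 * s ^ 2 * act) = b * act * (2 ^ 15 / 1023 ^ 2) := by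
      field_simp
    rw [e]
    have : 0 ≤ b * act := mul_nonneg hb act0
    nlinarith
  have f5 : b * ∑ u, ∑ v, (if X i u v ≠ ∅ ∧
      ((X i u v).filter (fun z => S i z = true)).card < s then (1 : ℝ) else 0) ≤
      b / (1023 * s) ^ 2 * ∑ u, ∑ v, ((((X i u v).filter (fun z => S i z = true)).card : ℝ) -
        ((X i u v).card : ℝ) / 16) ^ 2 := by
    simp only [Finset.mul_sum]
    refine Finset.sum_le_sum fun u _ => Finset.sum_le_sum fun v _ => ?_
    split_ifs with h
    · have g1 : (((X i u v).filter (fun z => S i z = true)).card : ℝ) < s := by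
        exact_mod_cast h.2
      have g2 : ((X i u v).card : ℝ) = 2 ^ 14 * s := by
        rw [hcard i u v h.1]
        push_cast
        ring
      have g0 : (0 : ℝ) ≤ (((X i u v).filter (fun z => S i z = true)).card : ℝ) :=
        Nat.cast_nonneg _
      rw [g2, mul_one, div_mul_eq_mul_div, le_div_iff₀ hden]
      refine mul_le_mul_of_nonneg_left ?_ hb
      nlinarith
    · rw [mul_zero]
      positivity
  linarith

end Pool.Agent.P.MP_6f280c_lc
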