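import Pool.Agent.P.MP_6f280c_lc.H7Defect

namespace Pool.Agent.P.MP_6f280c_lc

open Finset

variable {V I : Type} [Fintype V] [LinearOrder V] {gr : I → SimpleGraph V}

theorem h5_half_ex (S : Finset ℕ) (a : ℕ → ℝ) (n : ℕ) (h : S.card = 2 * n) :
    ∃ Y, Y ⊆ S ∧ 2 * Y.card = S.card ∧ 2 * ∑ x ∈ Y, a x ≤ ∑ x ∈ S, a x := by
  obtain ⟨Y, hY, hc⟩ := Finset.exists_subset_card_eq (s := S) (n := n) (by omega)
  have h1 : ∑ x ∈ S \ Y, a x + ∑ x ∈ Y, a x = ∑ x ∈ S, a x := Finset.sum_sdiff hY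
  by_cases h2 : 2 * ∑ x ∈ Y, a x ≤ ∑ x ∈ S, a x
  · exact ⟨Y, hY, by omega, h2⟩
  · refine ⟨S \ Y, sdiff_subset, ?_, by linarith⟩
    rw [card_sdiff_of_subset hY]
    omega

open Classical in
/-- the cheaper half of a list -/
noncomputable def h5half (S : Finset ℕ) (a : ℕ → ℝ) : Finset ℕ :=
  if h : ∃ Y, Y ⊆ S ∧ 2 * Y.card = S.card ∧ 2 * ∑ x ∈ Y, a x ≤ ∑ x ∈ S, a x then h.choose else S

theorem h5half_spec (S : Finset ℕ) (a : ℕ → ℝ) (n : ℕ) (h : S.card = 2 * n) :
    h5half S a ⊆ S ∧ 2 * (h5half S a).card = S.card ∧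
      2 * ∑ x ∈ h5half S a, a x ≤ ∑ x ∈ S, a x := by
  have hex := h5_half_ex S a n h
  unfold h5half
  rw [dif_pos hex]
  exact hex.choose_spec

/-- the probability that uniform elements of two lists agree -/
noncomputable def h5ov (A B : Finset ℕ) : ℝ := ((A ∩ B).card : ℝ) / ((A.card : ℝ) * B.card)

theorem h5ov_comm (A B : Finset ℕ) : h5ov A B = h5ov B A := by
  unfold h5ov
  rw [inter_comm, mul_comm]

theorem h5ov_nonneg (A B : Finset ℕ) : 0 ≤ h5ov A B := by
  unfold h5ov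
  positivity

theorem h5ov_sum (A B : Finset ℕ) :
    h5ov A B = (∑ x ∈ A, if x ∈ B then 1 / (B.card : ℝ) else 0) / A.card := by
  unfold h5ov
  rw [← Finset.sum_filter, Finset.filter_mem_eq_inter, sum_const, nsmul_eq_mul, mul_one_div,
    div_div, mul_comm]

theorem h5ov_half {A B B' : Finset ℕ} (h : B' ⊆ B) (hc : 2 * B'.card = B.card) :
    h5ov A B' ≤ 2 * h5ov A B := by
  unfold h5ov
  have e : (B.card : ℝ) = 2 * B'.card := by exact_mod_cast hc.symm
  have h1 : ((A ∩ B').card : ℝ) ≤ (A ∩ B).card := by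
    exact_mod_cast card_le_card (inter_subset_inter_left h)
  rw [e]
  rcases Nat.eq_zero_or_pos A.card with h2 | h2
  · simp [h2]
  rcases Nat.eq_zero_or_pos B'.card with h3 | h3
  · simp [h3]
  have h4 : (0 : ℝ) < A.card := by exact_mod_cast h2
  have h5 : (0 : ℝ) < B'.card := by exact_mod_cast h3
  rw [← mul_div_assoc, div_le_div_iff₀ (by positivity) (by positivity)]
  nlinarith [mul_pos h4 h5]

theorem h5_erase_inter (A B : Finset ℕ) (T : ℕ) : (A ∩ B).erase T = A.erase T ∩ B.erase T := by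
  ext x
  simp only [mem_erase, mem_inter]
  tauto

omit [LinearOrder V] in
theorem h5_swap {H : V → Finset V} (hs : ∀ v u, u ∈ H v → v ∈ H u) (f : V → V → ℝ) :
    ∑ v, ∑ u ∈ H v, f v u = ∑ v, ∑ u ∈ H v, f u v := by
  apply Finset.sum_comm'
  intro v u
  simp only [mem_univ, true_and, and_true]
  exact ⟨hs v u, hs u v⟩

/-- the potential of the rounding -/
noncomputable def h5Phi (H : V → Finset V) (ω : V → V → ℝ) (S M : V → Finset ℕ) : ℝ :=
  ∑ v, ∑ u ∈ H v, ω v u * 2 ^ (M v ∩ M u).card * h5ov (S v) (S u)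

/-- the price of an element -/
noncomputable def h5a (H : Finset V) (ω : V → ℝ) (Mv : Finset ℕ) (S M : V → Finset ℕ) (T : ℕ)
    (x : ℕ) : ℝ :=
  ∑ u ∈ H, (if T ∈ M u then 1 else 2) * (ω u * 2 ^ (Mv ∩ M u).card) *
    (if x ∈ S u then 1 / ((S u).card : ℝ) else 0)

/-- the new list -/
noncomputable def h5Y (H : Finset V) (ω : V → ℝ) (Mv Sv : Finset ℕ) (S M : V → Finset ℕ)
    (T : ℕ) : Finset ℕ :=
  if T ∈ Mv then h5half Sv (h5a H ω Mv S M T) else Sv

omit [LinearOrder V] in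
theorem h5_step_pure {H : V → Finset V} {ω : V → V → ℝ} {S M : V → Finset ℕ} (T : ℕ)
    (hs : ∀ v u, u ∈ H v → v ∈ H u) (hsym : ∀ v u, u ∈ H v → ω v u = ω u v)
    (hpos : ∀ v u, 0 ≤ ω v u) (hc : ∀ v, (S v).card = 2 ^ (M v).card) :
    (∀ v, h5Y (H v) (ω v) (M v) (S v) S M T ⊆ S v) ∧
    (∀ v, (h5Y (H v) (ω v) (M v) (S v) S M T).card = 2 ^ ((M v).erase T).card) ∧
    h5Phi H ω (fun v => h5Y (H v) (ω v) (M v) (S v) S M T) (fun v => (M v).erase T) ≤
      h5Phi H ω S M := by
  set Y : V → Finset ℕ := fun v => h5Y (H v) (ω v) (M v) (S v) S M T with hY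
  have hmv : ∀ v, T ∈ M v → (S v).card = 2 * 2 ^ ((M v).erase T).card := by
    intro v hv
    rw [hc v, ← card_erase_add_one hv, pow_succ, mul_comm]
  have y1 : ∀ v, T ∈ M v → Y v ⊆ S v ∧ 2 * (Y v).card = (S v).card ∧
      2 * ∑ x ∈ Y v, h5a (H v) (ω v) (M v) S M T x ≤
        ∑ x ∈ S v, h5a (H v) (ω v) (M v) S M T x := by
    intro v hv
    simp only [hY, h5Y, if_pos hv]
    exact h5half_spec _ _ _ (hmv v hv)
  have y2 : ∀ v, T ∉ M v → Y v = S v := by
    intro v hv
    simp only [hY, h5Y, if_neg hv]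
  refine ⟨fun v => ?_, fun v => ?_, ?_⟩
  · by_cases hv : T ∈ M v
    · exact (y1 v hv).1
    · exact (y2 v hv).le
  · by_cases hv : T ∈ M v
    · have := (y1 v hv).2.1
      rw [hmv v hv] at this
      exact Nat.eq_of_mul_eq_mul_left (by norm_num) this
    · show (Y v).card = _
      rw [y2 v hv, erase_eq_of_notMem hv, hc v]
  set g : V → V → Finset ℕ → ℝ := fun v u A => ω v u * 2 ^ (M v ∩ M u).card * h5ov A (S u)
    with hg
  set F : (V → Finset ℕ) → ℝ := fun Z => ∑ v, ∑ u ∈ H v,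
    (if T ∈ M v then g v u (Z v) else if T ∈ M u then g u v (Z u) else g v u (S v)) with hF
  have f1 : F S = h5Phi H ω S M := by
    refine sum_congr rfl fun v _ => sum_congr rfl fun u hu => ?_
    split_ifs
    · rfl
    · simp only [hg]
      rw [hsym v u hu, inter_comm, h5ov_comm]
    · rfl
  have f2 : h5Phi H ω Y (fun v => (M v).erase T) ≤ F Y := by
    refine sum_le_sum fun v _ => sum_le_sum fun u hu => ?_
    have hp := hpos v u
    by_cases hv : T ∈ M v <;> by_cases hu' : T ∈ M u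
    · rw [if_pos hv]
      simp only [hg]
      have e : (M v ∩ M u).card = ((M v).erase T ∩ (M u).erase T).card + 1 := by
        rw [← card_erase_add_one (mem_inter.2 ⟨hv, hu'⟩), h5_erase_inter]
      rw [e, pow_succ]
      have := h5ov_half (A := Y v) (y1 u hu').1 (y1 u hu').2.1
      have h2 : 0 ≤ ω v u * 2 ^ ((M v).erase T ∩ (M u).erase T).card := by positivity
      nlinarith [mul_le_mul_of_nonneg_left this h2]
    · rw [if_pos hv]
      simp only [hg]
      rw [← h5_erase_inter, erase_eq_of_notMem (fun h => hu' (mem_inter.1 h).2), y2 u hu']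
    · rw [if_neg hv, if_pos hu']
      simp only [hg]
      rw [← h5_erase_inter, erase_eq_of_notMem (fun h => hv (mem_inter.1 h).1), y2 v hv,
        hsym v u hu, inter_comm, h5ov_comm]
    · rw [if_neg hv, if_neg hu']
      simp only [hg]
      rw [← h5_erase_inter, erase_eq_of_notMem (fun h => hv (mem_inter.1 h).1), y2 v hv,
        y2 u hu']
  have f3 : ∀ Z : V → Finset ℕ, F Z =
      ∑ v, (if T ∈ M v then (∑ x ∈ Z v, h5a (H v) (ω v) (M v) S M T x) / (Z v).card else 0) +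
      ∑ v, ∑ u ∈ H v, (if T ∉ M v ∧ T ∉ M u then g v u (S v) else 0) := by
    intro Z
    have e1 : F Z = ∑ v, ∑ u ∈ H v, (if T ∈ M v then g v u (Z v) else 0) +
        ∑ v, ∑ u ∈ H v, (if T ∈ M u ∧ T ∉ M v then g u v (Z u) else 0) +
        ∑ v, ∑ u ∈ H v, (if T ∉ M v ∧ T ∉ M u then g v u (S v) else 0) := by
      simp only [hF, ← sum_add_distrib]
      refine sum_congr rfl fun v _ => sum_congr rfl fun u _ => ?_
      by_cases hv : T ∈ M v <;> by_cases hu' : T ∈ M u <;> simp [hv, hu']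
    rw [e1, ← h5_swap hs (fun v u => if T ∈ M v ∧ T ∉ M u then g v u (Z v) else 0),
      ← sum_add_distrib]
    congr 1
    refine sum_congr rfl fun v _ => ?_
    by_cases hv : T ∈ M v
    · simp only [hv, if_true, true_and, ← sum_add_distrib]
      unfold h5a
      rw [sum_comm, sum_div]
      refine sum_congr rfl fun u _ => ?_
      simp only [hg]
      rw [h5ov_sum, ← mul_sum]
      by_cases hu' : T ∈ M u
      · simp only [hu', if_true, not_true, if_false]
        ring
      · simp only [hu', if_false, not_false_iff, if_true]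
        ring
    · simp [hv]
  rw [← f1]
  refine f2.trans ?_
  rw [f3 Y, f3 S]
  refine add_le_add_left (sum_le_sum fun v _ => ?_) _
  by_cases hv : T ∈ M v
  · rw [if_pos hv, if_pos hv]
    obtain ⟨_, a2, a3⟩ := y1 v hv
    have e : ((S v).card : ℝ) = 2 * (Y v).card := by exact_mod_cast a2.symm
    have h0 : 0 < (S v).card := by rw [hc v]; positivity
    have h4 : (0 : ℝ) < (Y v).card := by exact_mod_cast (by omega : 0 < (Y v).card)
    rw [e, div_le_div_iff₀ h4 (by positivity)]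
    nlinarith
  · rw [if_neg hv, if_neg hv]

theorem h5_round {H : I → V → Finset V} {ω : I → V → V → ℝ} (hs : IsSub gr H)
    (hsym : ∀ i v u, u ∈ H i v → ω i v u = ω i u v) (hpos : ∀ i v u, 0 ≤ ω i v u) (T : ℕ) :
    ∀ {r : ℕ} {S M : I → V → Finset ℕ}, Loc gr r H → Loc gr r ω → Loc gr r S → Loc gr r M →
      (∀ i v, (S i v).card = 2 ^ (M i v).card) → (∀ i v, M i v ⊆ range T) →
      ∃ S' : I → V → Finset ℕ, Loc gr (r + T) S' ∧ (∀ i v, S' i v ⊆ S i v) ∧
        (∀ i v, (S' i v).card = 1) ∧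
        ∀ i, h5Phi (H i) (ω i) (S' i) (fun _ => ∅) ≤ h5Phi (H i) (ω i) (S i) (M i) := by
  induction T with
  | zero =>
    intro r S M _ _ hS _ hc hM
    have e : ∀ i v, M i v = ∅ := fun i v => by simpa using hM i v
    refine ⟨S, hS, fun _ _ => Subset.refl _, fun i v => by rw [hc, e]; simp, fun i => ?_⟩
    rw [show M i = fun _ => ∅ from funext (e i)]
  | succ T ih =>
    intro r S M hH hω hS hM hc hT
    have st := fun i => h5_step_pure (H := H i) (ω := ω i) (S := S i) (M := M i) T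
      (fun v u h => (hs i v u h).2) (hsym i) (hpos i) (hc i)
    have l1 : Loc gr (r + 1)
        (fun i v => h5Y (H i v) (ω i v) (M i v) (S i v) (S i) (M i) T) := by
      intro i i' v hA
      show h5Y _ _ _ _ _ _ _ = h5Y _ _ _ _ _ _ _
      rw [← hH.here hA (by omega), ← hω.here hA (by omega), ← hS.here hA (by omega),
        ← hM.here hA (by omega)]
      unfold h5Y
      congr 2
      funext x
      unfold h5a
      refine sum_congr rfl fun u hu => ?_
      rw [hS.adj hA (hs i v u hu).1 le_rfl, hM.adj hA (hs i v u hu).1 le_rfl]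
    obtain ⟨S', a1, a2, a3, a4⟩ := ih (r := r + 1) (M := fun i v => (M i v).erase T)
      (hH.mono (by omega)) (hω.mono (by omega)) l1
      ((hM.mono (by omega)).map (fun _ s => s.erase T)) (fun i v => (st i).2.1 v)
      (fun i v x hx => by
        have h1 := mem_range.1 (hT i v (mem_of_mem_erase hx))
        have h2 := ne_of_mem_erase hx
        exact mem_range.2 (by omega))
    exact ⟨S', a1.mono (by omega), fun i v => (a2 i v).trans ((st i).1 v), a3,
      fun i => (a4 i).trans (st i).2.2⟩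

/-- one attempt -/
theorem h5_attempt {r T b κ : ℕ} {H : I → V → Finset V} {ω : I → V → V → ℝ}
    {S M : I → V → Finset ℕ} (hs : IsSub gr H)
    (hsym : ∀ i v u, u ∈ H i v → ω i v u = ω i u v) (hpos : ∀ i v u, 0 ≤ ω i v u)
    (hH : Loc gr r H) (hω : Loc gr r ω) (hS : Loc gr r S) (hM : Loc gr r M)
    (hc : ∀ i v, (S i v).card = 2 ^ b) (hT : ∀ i v, M i v ⊆ range T)
    (hb : ∀ i v, (M i v).card = b) (hκ : ∀ i v u, u ∈ H i v → (M i v ∩ M i u).card ≤ κ) :
    ∃ x : I → V → ℕ, Loc gr (r + T) x ∧ (∀ i v, x i v ∈ S i v) ∧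
      ∀ i, ∑ v, ∑ u ∈ H i v, (if x i u = x i v then ω i v u else 0) ≤
        (∑ v, ∑ u ∈ H i v, ω i v u) * 2 ^ κ / 2 ^ b := by
  obtain ⟨S', a1, a2, a3, a4⟩ := h5_round hs hsym hpos T hH hω hS hM
    (fun i v => by rw [hc, hb]) hT
  have e : ∀ i v, S' i v = {(S' i v).sum id} := by
    intro i v
    obtain ⟨y, hy⟩ := card_eq_one.1 (a3 i v)
    rw [hy]
    simp
  refine ⟨fun i v => (S' i v).sum id, a1.map (fun _ s => s.sum id), fun i v => a2 i v ?_,
    fun i => le_trans (le_of_eq ?_) ((a4 i).trans ?_)⟩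
  · rw [e i v]
    simp
  · refine sum_congr rfl fun v _ => sum_congr rfl fun u _ => ?_
    unfold h5ov
    obtain ⟨y, hy⟩ := card_eq_one.1 (a3 i v)
    obtain ⟨z, hz⟩ := card_eq_one.1 (a3 i u)
    by_cases h : z = y
    · simp [hy, hz, h]
    · simp [hy, hz, h]
  · unfold h5Phi
    rw [sum_mul, sum_div]
    refine sum_le_sum fun v _ => ?_
    rw [sum_mul, sum_div]
    refine sum_le_sum fun u hu => ?_
    have h1 : (2 : ℝ) ^ (M i v ∩ M i u).card ≤ 2 ^ κ :=
      pow_le_pow_right₀ (by norm_num) (hκ i v u hu)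
    have h2 : h5ov (S i v) (S i u) ≤ 1 / 2 ^ b := by
      unfold h5ov
      have h3 : ((S i v ∩ S i u).card : ℝ) ≤ 2 ^ b := by
        have := card_le_card (inter_subset_left (s₁ := S i v) (s₂ := S i u))
        rw [hc] at this
        exact_mod_cast this
      rw [hc, hc]
      push_cast
      rw [div_le_div_iff₀ (by positivity) (by positivity)]
      nlinarith [show (0 : ℝ) < 2 ^ b by positivity]
    have hp := hpos i v u
    rw [div_eq_mul_one_div]
    exact mul_le_mul (mul_le_mul_of_nonneg_left h1 hp) h2 (h5ov_nonneg _ _) (by positivity)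

end Pool.Agent.P.MP_6f280c_lc
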