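import Pool.Agent.P.MP_6f280c_lc.H7St

namespace Pool.Agent.P.MP_6f280c_lc

open Finset

variable {V I : Type} [Fintype V] [LinearOrder V]

/-- a chosen subset of a given size -/
noncomputable def h7clsSub (S : Finset V) (k : ℕ) : Finset V :=
  if h : k ≤ S.card then (exists_subset_card_eq h).choose else ∅

omit [Fintype V] [LinearOrder V] in
theorem h7clsSub_spec {S : Finset V} {k : ℕ} (h : k ≤ S.card) :
    h7clsSub S k ⊆ S ∧ (h7clsSub S k).card = k := by
  rw [h7clsSub, dif_pos h]
  exact (exists_subset_card_eq h).choose_spec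

/-- the new set of an edge that has arrived -/
noncomputable def h7clsNx (D : ℕ) (A B : Finset V) : Finset V :=
  if D ≤ A.card then h7clsSub A D else if D ≤ B.card then h7clsSub B D else ∅

omit [Fintype V] [LinearOrder V] in
theorem h7clsNx_ne {D : ℕ} {A B : Finset V} (h : h7clsNx D A B ≠ ∅) :
    (h7clsNx D A B).card = D ∧ (h7clsNx D A B ⊆ A ∨ h7clsNx D A B ⊆ B) := by
  unfold h7clsNx at h ⊢
  split_ifs at h ⊢ with h1 h2
  · exact ⟨(h7clsSub_spec h1).2, Or.inl (h7clsSub_spec h1).1⟩
  · exact ⟨(h7clsSub_spec h2).2, Or.inr (h7clsSub_spec h2).1⟩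
  · exact absurd rfl h

omit [Fintype V] [LinearOrder V] in
theorem h7clsNx_eq {D : ℕ} (hD : 0 < D) {A B : Finset V} (h : h7clsNx D A B = ∅) :
    A.card < D ∧ B.card < D := by
  unfold h7clsNx at h
  split_ifs at h with h1 h2
  · have := (h7clsSub_spec h1).2
    rw [h, card_empty] at this
    omega
  · have := (h7clsSub_spec h2).2
    rw [h, card_empty] at this
    omega
  · omega

/-- a chosen element -/
noncomputable def h7clsEl (X : Finset V) (d : V) : V := if h : X.Nonempty then X.min' h else d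

omit [Fintype V] in
theorem h7clsEl_mem {X : Finset V} (h : X ≠ ∅) (d : V) : h7clsEl X d ∈ X := by
  rw [h7clsEl, dif_pos (nonempty_iff_ne_empty.2 h)]
  exact min'_mem _ _

omit [Fintype V] in
theorem h7clsEl_eq {X : Finset V} (h : X ≠ ∅) (d d' : V) : h7clsEl X d = h7clsEl X d' := by
  rw [h7clsEl, h7clsEl, dif_pos (nonempty_iff_ne_empty.2 h), dif_pos (nonempty_iff_ne_empty.2 h)]

/-- the centres seen by a node -/
def h7clsC (Λ : ℕ) (ptr : V → ℕ) (X : V → Finset V) (p : ℕ) : Finset V :=
  (univ.filter fun v => (ptr v % Λ = 0 ∧ (X v).card = 1) ∧ ptr v = p).biUnion X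

theorem h7clsC_mem {Λ : ℕ} {ptr : V → ℕ} {X : V → Finset V} {p : ℕ} {z : V} :
    z ∈ h7clsC Λ ptr X p ↔ ∃ v, ((ptr v % Λ = 0 ∧ (X v).card = 1) ∧ ptr v = p) ∧ z ∈ X v := by
  simp [h7clsC]

theorem cls_st (gr : I → SimpleGraph V) : ClsSt gr := by
  intro r Λ P σ μ c hΛ
  obtain ⟨D, hD⟩ : ∃ D, D = (2 ^ 14) ^ Λ := ⟨_, rfl⟩
  have hD1 : 1 < D := hD ▸ Nat.one_lt_pow hΛ.ne' (by norm_num)
  let arr : I → V → V → Prop := fun i u v => c.ptr i u v % Λ = 0 ∧ (c.X i u v).card = 1
  let C : I → V → ℕ → Finset V := fun i u => h7clsC Λ (c.ptr i u) (c.X i u)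
  let X' : I → V → V → Finset V := fun i u v =>
    if arr i u v then h7clsNx D (C i (min u v) (c.ptr i u v)) (C i (max u v) (c.ptr i u v))
    else c.X i u v
  let lab' : I → V → V → V := fun i u v =>
    if arr i u v then h7clsEl (c.X i u v) u else c.lab i u v
  have hC : Loc gr r C := (c.locP.prod c.locX).map fun _ a => h7clsC Λ a.1 a.2
  have ne : ∀ {i u v}, arr i u v → c.X i u v ≠ ∅ := fun h e => by
    have := h.2
    rw [e, card_empty] at this
    omega
  have sym : ∀ i u v, arr i u v ↔ arr i v u := fun i u v => by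
    simp only [arr, c.symP i u v, c.symX i u v]
  have near : ∀ {i u v}, arr i u v → ∀ z ∈ c.X i u v, Near (gr i) (c.ptr i u v / Λ + 1) u z :=
    fun {i u v} h => by
      rcases c.size i u v (ne h) with h1 | h1
      · have := h1.1
        rw [h.1, h.2, Nat.sub_zero, ← hD] at this
        omega
      · exact h1.2.2
  have pos : ∀ {i u v}, arr i u v → X' i u v =
      h7clsNx D (C i (min u v) (c.ptr i u v)) (C i (max u v) (c.ptr i u v)) := fun h => if_pos h
  have neg : ∀ {i u v}, ¬arr i u v → X' i u v = c.X i u v := fun h => if_neg h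
  have old : ∀ {i u v}, X' i u v ≠ ∅ → c.X i u v ≠ ∅ := fun {i u v} h => by
    by_cases ha : arr i u v
    · exact ne ha
    · rwa [neg ha] at h
  have src : ∀ {i u v}, arr i u v → ∀ z ∈ X' i u v, ∃ w, (w = u ∨ w = v) ∧
      ∃ y, arr i w y ∧ c.ptr i w y = c.ptr i u v ∧ z ∈ c.X i w y := fun {i u v} ha z hz => by
    rw [pos ha] at hz
    rcases (h7clsNx_ne (ne_empty_of_mem hz)).2 with h | h
    · obtain ⟨y, h1, h2⟩ := h7clsC_mem.1 (h hz)
      exact ⟨_, min_choice u v, y, h1.1, h1.2, h2⟩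
    · obtain ⟨y, h1, h2⟩ := h7clsC_mem.1 (h hz)
      exact ⟨_, max_choice u v, y, h1.1, h1.2, h2⟩
  have full : ∀ i u v, X' i u v ≠ ∅ → (X' i u v).card = (2 ^ 14) ^ (Λ - c.ptr i u v % Λ) ∧
      ∀ z ∈ X' i u v, Near (gr i) (c.ptr i u v / Λ + 2) u z := fun i u v h => by
    by_cases ha : arr i u v
    · refine ⟨?_, fun z hz => ?_⟩
      · rw [ha.1, Nat.sub_zero, ← hD, pos ha]
        exact (h7clsNx_ne (pos ha ▸ h)).1
      · obtain ⟨w, hw, y, h1, h2, h3⟩ := src ha z hz
        have h4 := near h1 z h3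
        rw [h2] at h4
        rcases hw with rfl | rfl
        · exact h4.succ
        · exact ((Near.of_adj (c.adj i u w (ne ha))).trans h4).mono (by omega)
    · rw [neg ha] at h ⊢
      exact (c.size i u v h).resolve_right fun h1 => ha ⟨h1.1, h1.2.1⟩
  refine ⟨⟨c.ptr, X', lab', c.locP.mono (by omega), ?_, ?_, c.symP, ?_, ?_,
    fun i u v h => c.adj i u v (old h), fun i u v h => c.lt i u v (old h),
    fun i u v h => Or.inl (full i u v h), ?_, ?_, ?_⟩, full⟩
  · intro i i' u hA
    funext v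
    have e1 := congrFun (c.locP.here hA (by omega)) v
    have e2 := congrFun (c.locX.here hA (by omega)) v
    have e3 : arr i u v ↔ arr i' u v := by simp only [arr, e1, e2]
    by_cases ha : arr i u v
    · have k : ∀ w, w = u ∨ w = v → C i w = C i' w := by
        rintro w (rfl | rfl)
        · exact hC.here hA (by omega)
        · exact hC.adj hA (c.adj i u w (ne ha)) le_rfl
      rw [pos ha, pos (e3.1 ha), k _ (min_choice u v), k _ (max_choice u v), e1]
    · rw [neg ha, neg (mt e3.2 ha), e2]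
  · exact (((c.locP.prod c.locX).prod c.locL).map fun u a v =>
      if a.1.1 v % Λ = 0 ∧ (a.1.2 v).card = 1 then h7clsEl (a.1.2 v) u else a.2 v).mono (by omega)
  · intro i u v
    by_cases ha : arr i u v
    · rw [pos ha, pos ((sym i u v).1 ha), min_comm, max_comm, c.symP i u v]
    · rw [neg ha, neg (mt (sym i u v).2 ha), c.symX i u v]
  · intro i u v hadj h
    by_cases ha : arr i u v
    · change (if arr i u v then _ else _) = if arr i v u then _ else _
      rw [if_pos ha, if_pos ((sym i u v).1 ha), ← c.symX i u v]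
      exact h7clsEl_eq (ne ha) _ _
    · change (if arr i u v then _ else _) = if arr i v u then _ else _
      rw [if_neg ha, if_neg (mt (sym i u v).2 ha)]
      exact c.symL i u v hadj (neg ha ▸ h)
  · intro i u v hadj h
    by_cases ha : arr i u v
    · change Near _ _ _ (if arr i u v then _ else _)
      rw [if_pos ha]
      have := Nat.div_le_div_right (c := Λ) (c.lt i u v (ne ha)).le
      exact (near ha _ (h7clsEl_mem (ne ha) u)).mono (by omega)
    · change Near _ _ _ (if arr i u v then _ else _)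
      rw [if_neg ha]
      exact c.nearL i u v hadj (neg ha ▸ h)
  · intro i u
    have hs : ((nbr gr i u).filter (fun v => X' i u v = ∅)).image (lab' i u) ⊆
        ((nbr gr i u).filter (fun v => c.X i u v = ∅)).image (c.lab i u) ∪
          ((range P).filter fun p => (C i u p).card < D).biUnion (C i u) := by
      intro z hz
      obtain ⟨v, hv, rfl⟩ := mem_image.1 hz
      obtain ⟨h1, h2⟩ := mem_filter.1 hv
      by_cases ha : arr i u v
      · refine mem_union_right _ (mem_biUnion.2 ⟨c.ptr i u v,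
          mem_filter.2 ⟨mem_range.2 (c.lt i u v (ne ha)), ?_⟩, ?_⟩)
        · rw [pos ha] at h2
          have := h7clsNx_eq (by omega) h2
          rcases le_total u v with h | h
          · rw [min_eq_left h] at this; exact this.1
          · rw [max_eq_left h] at this; exact this.2
        · refine h7clsC_mem.2 ⟨v, ⟨ha, rfl⟩, ?_⟩
          change (if arr i u v then _ else _) ∈ _
          rw [if_pos ha]
          exact h7clsEl_mem (ne ha) u
      · exact mem_union_left _ (mem_image.2 ⟨v, mem_filter.2 ⟨h1, neg ha ▸ h2⟩, (if_neg ha).symm⟩)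
    refine (card_le_card hs).trans ((card_union_le _ _).trans (add_le_add (c.mult i u) ?_))
    refine card_biUnion_le.trans ((sum_le_card_nsmul _ _ D fun p hp => (mem_filter.1 hp).2.le).trans ?_)
    rw [smul_eq_mul, ← hD]
    exact Nat.mul_le_mul_right _ ((card_filter_le _ _).trans (card_range P).le)
  · intro i
    obtain ⟨Q, h1, h2⟩ := c.pot i
    refine ⟨Q, fun u v z hz => ?_, le_trans (add_le_add le_rfl ?_) h2⟩
    · by_cases ha : arr i u v
      · obtain ⟨w, -, y, -, h3, h4⟩ := src ha z hz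
        exact h3 ▸ h1 w y h4
      · exact h1 u v (neg ha ▸ hz)
    · refine sum_le_sum fun u _ => sum_le_sum fun v _ => ?_
      by_cases h : X' i u v ≠ ∅
      · rw [if_pos h, if_pos (old h)]
      · rw [if_neg h]
        split_ifs <;> positivity

open Classical in
/-- the initial state -/
noncomputable def h7clsInit (gr : I → SimpleGraph V) (Λ P : ℕ) (hP : 0 < P) : CS gr 1 Λ P 0 0 where
  ptr _ _ _ := 0
  X i u v := if (gr i).Adj u v then {min u v} else ∅
  lab _ u _ := u
  locP _ _ _ _ := rfl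
  locX i i' u hA := funext fun v => by simp only [hA.adj_iff le_rfl v]
  locL _ _ _ _ := rfl
  symP _ _ _ := rfl
  symX i u v := by simp only [(gr i).adj_comm u v, min_comm u v]
  symL i u v h h' := by simp [h] at h'
  adj i u v h := by
    by_contra hc
    exact h (if_neg hc)
  lt _ _ _ _ := hP
  size i u v h := by
    have ha : (gr i).Adj u v := by
      by_contra hc
      exact h (if_neg hc)
    refine Or.inr ⟨Nat.zero_mod _, by simp [ha], fun z hz => ?_⟩
    rw [if_pos ha, mem_singleton] at hz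
    rw [hz, Nat.zero_div]
    rcases min_choice u v with e | e <;> rw [e]
    exacts [Near.refl _ _ _, Near.of_adj ha]
  nearL i u v h h' := by simp [h] at h'
  mult i u := by
    rw [filter_false_of_mem fun v hv => by simp [mem_nbr.1 hv]]
    simp
  pot i := by
    refine ⟨fun p => if p = 0 then univ else ∅, fun u v => subset_univ _, ?_⟩
    rw [sum_eq_single 0 (fun p _ hp => by simp [hp]) (by simp), pow_zero, pow_zero, one_mul, one_mul]
    refine add_le_add (by simp) ?_
    have : ∀ u v, (if (if (gr i).Adj u v then ({min u v} : Finset V) else ∅) ≠ ∅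
        then (1 : ℝ) / 1 else 0) ≤ 1 := fun u v => by split_ifs <;> norm_num
    refine (sum_le_sum fun u _ => sum_le_sum fun v _ => this u v).trans ?_
    simp [sq]

theorem pieces_st (gr : I → SimpleGraph V) (h : AdvSt gr) : PiecesSt gr := by
  intro τ Λ α hτ hΛ hα hM
  obtain ⟨P, hP⟩ : ∃ P, P = α * Λ := ⟨_, rfl⟩
  rw [← hP] at hM ⊢
  have hP0 : 0 < P := hP ▸ Nat.mul_pos hα hΛ
  have hd : P / Λ = α := hP ▸ Nat.mul_div_cancel α hΛ
  generalize hM' : (Fintype.card V : ℝ) + (Fintype.card V : ℝ) ^ 2 = M at hM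
  have hM0 : 0 ≤ M := by rw [← hM']; positivity
  have key : ∀ σ, σ ≤ 2 * P → (2 : ℝ) ^ σ * M < 16 ^ P := fun σ hσ => by
    calc (2 : ℝ) ^ σ * M ≤ 2 ^ (2 * P) * M :=
          mul_le_mul_of_nonneg_right (pow_le_pow_right₀ one_le_two hσ) hM0
      _ < 2 ^ (2 * P) * 4 ^ P := mul_lt_mul_of_pos_left hM (by positivity)
      _ = 16 ^ P := by rw [pow_mul, ← mul_pow]; norm_num
  have ind : ∀ σ, σ ≤ 2 * P → ∃ r μ, r = 2 + σ * ((τ + 1) * (α + 2) + 1) ∧
      μ = (σ + 1) * (P * (2 ^ 14) ^ Λ) ∧ ∃ c : CS gr r Λ P σ μ, c.Full := fun σ => by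
    induction σ with
    | zero => exact fun _ => ⟨_, _, by omega, by omega, cls_st gr _ _ _ _ _ (h7clsInit gr Λ P hP0) hΛ⟩
    | succ σ ih =>
      intro hσ
      obtain ⟨r, μ, e1, e2, c, hc⟩ := ih (by omega)
      obtain ⟨c1⟩ := h τ r Λ P σ μ c hτ hΛ hc (hM' ▸ key _ hσ)
      exact ⟨_, _, by rw [e1, hd]; ring, by rw [e2]; ring, cls_st gr _ _ _ _ _ c1 hΛ⟩
  obtain ⟨r, μ, rfl, rfl, c, -⟩ := ind (2 * P) le_rfl
  have dead : ∀ i u v, c.X i u v = ∅ := fun i u v => by
    by_contra hne
    obtain ⟨Q, -, h2⟩ := c.pot i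
    rw [hM'] at h2
    have t0 : ∀ u v, (0 : ℝ) ≤ if c.X i u v ≠ ∅ then (16 : ℝ) ^ (2 * P) / 16 ^ c.ptr i u v else 0 :=
      fun u v => by split_ifs <;> positivity
    have t1 := (single_le_sum (fun v _ => t0 u v) (mem_univ v)).trans
      (single_le_sum (f := fun u => ∑ v, if c.X i u v ≠ ∅ then
        (16 : ℝ) ^ (2 * P) / 16 ^ c.ptr i u v else 0)
        (fun u _ => sum_nonneg fun v _ => t0 u v) (mem_univ u))
    rw [if_pos hne] at t1
    have t2 : (16 : ℝ) ^ P ≤ 16 ^ (2 * P) / 16 ^ c.ptr i u v := by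
      rw [le_div_iff₀ (by positivity), ← pow_add]
      exact pow_le_pow_right₀ (by norm_num) (by have := c.lt i u v hne; omega)
    have t3 : (0 : ℝ) ≤ ∑ p ∈ range (P + 1), (16 : ℝ) ^ p * ((Q p).card : ℝ) := by positivity
    have t4 := key _ le_rfl
    linarith
  refine ⟨c.lab, c.locL, fun i u v ha => ⟨c.symL i u v ha (dead i u v), ?_⟩, fun i u => ?_⟩
  · exact hd ▸ c.nearL i u v ha (dead i u v)
  · have := c.mult i u
    rwa [filter_true_of_mem fun v _ => dead i u v] at this

end Pool.Agent.P.MP_6f280c_lc
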