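import Pool.Agent.P.MP_6f280c_lc.H5Stage
import Pool.Agent.P.MP_6f280c_lc.Main

namespace Pool.Agent.P.MP_6f280c_lc

open Finset

variable {V I : Type} [Fintype V] [LinearOrder V] {gr : I → SimpleGraph V}

/-- the lists of the colouring with `deg + 1` colours -/
noncomputable def h5L (gr : I → SimpleGraph V) (i : I) (v : V) : Finset ℕ :=
  range ((nbr gr i v).card + 1)

/-- one stage lowers the degree of the uncoloured part -/
theorem h5_deg_stage {r K σ m Lg p n t : ℕ} {χ : I → V → ℕ} {c0 : I → V → Option ℕ}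
    (hr : 1 ≤ r) (hσ : 1 ≤ σ) (hm : m ≤ K * σ) (hn : n + 1 ≤ K) (hp : p.Prime)
    (p1 : (2 * K + 7) * 2 ^ (3 * σ + 2) < p) (hV : Fintype.card V ≤ 2 ^ Lg)
    (ht : Lg + p ^ 2 * (K * σ + σ + 2) < t * σ)
    (hχ : Loc gr r χ) (χ1 : ∀ i v, χ i v < 2 ^ (4 * m + 20))
    (χ2 : ∀ i v u, u ∈ nbr gr i v → χ i u ≠ χ i v)
    (hc : Loc gr r c0) (hpr : h5Prop gr (h5L gr) c0)
    (hdeg : ∀ i v, c0 i v = none →
      ((nbr gr i v).filter (fun u => c0 i u = none)).card + 1 < 2 ^ ((n + 1) * σ)) :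
    ∃ c : I → V → Option ℕ,
      Loc gr (r + (p ^ 2 + 3 + t * (K * σ * 2 ^ (5 * K + 21) + 3))) c ∧ h5Prop gr (h5L gr) c ∧
      ∀ i v, c i v = none →
        ((nbr gr i v).filter (fun u => c i u = none)).card + 1 < 2 ^ (n * σ) := by
  let H : I → V → Finset V := fun i v =>
    if c0 i v = none then (nbr gr i v).filter (fun u => c0 i u = none) else ∅
  have mH : ∀ i v u, u ∈ H i v ↔ c0 i v = none ∧ (gr i).Adj v u ∧ c0 i u = none := by
    intro i v u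
    simp only [H]
    split_ifs with h1
    · simp [h1, mem_nbr]
    · simp [h1]
  have hs : IsSub gr H := fun i v u hu => by
    obtain ⟨a1, a2, a3⟩ := (mH i v u).1 hu
    exact ⟨a2, (mH i u v).2 ⟨a3, a2.symm, a1⟩⟩
  have lH : Loc gr (r + 1) H := by
    intro i i' v hA
    simp only [H]
    rw [← hc.here hA (by omega), ← loc_nbr.here hA (by omega)]
    congr 1
    refine filter_congr fun u hu => ?_
    rw [hc.adj hA (mem_nbr.1 hu) le_rfl]
  have cH : ∀ i v, c0 i v = none → (H i v).card ≤ 2 ^ ((n + 1) * σ) := by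
    intro i v hv
    have := hdeg i v hv
    simp only [H, if_pos hv]
    omega
  have p2 : 2 ^ (3 * σ + 2) ≤ p := le_trans (Nat.le_mul_of_pos_left _ (by omega)) p1.le
  obtain ⟨j, j1, j2, j3⟩ := h5_defect (k := 2 * K + 7) hp lH hs (hχ.mono (by omega))
    (fun i v => (χ1 i v).trans_le (by
      refine le_trans ?_ (Nat.pow_le_pow_left p2 _)
      rw [← pow_mul]
      exact Nat.pow_le_pow_right (by norm_num) (by nlinarith)))
    (fun i v u hu => χ2 i v u (mem_nbr.2 (hs i v u hu).1))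
  have hnσ : (n + 1) * σ ≤ K * σ := Nat.mul_le_mul_right _ hn
  obtain ⟨M, M1, M2, M3⟩ := h5_code (n * σ) (2 ^ (5 * K + 21)) σ (2 ^ (4 * m + 20))
    (by positivity) (by
      rw [← pow_add, ← pow_mul]
      exact Nat.pow_lt_pow_right (by norm_num) (by nlinarith))
  obtain ⟨c, c1, c2, c3, c4⟩ := h5_stage (r := r + 2) (T := K * σ * 2 ^ (5 * K + 21))
    (b := n * σ) (κ := σ) (d := 2 ^ ((n + 1) * σ) / 2 ^ (3 * σ + 2)) (e := K * σ) (P := p ^ 2)
    (σ := σ) (Lg := Lg) (t := t) (L := h5L gr) (M := fun i v => M (χ i v)) (j := j) (c0 := c0)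
    ((loc_nbr.mono (by omega)).map (fun _ s => range (s.card + 1)))
    ((hχ.mono (by omega)).map (fun _ a => M a)) j1 (hc.mono (by omega)) hpr j2
    (fun i v hv => le_trans (card_le_card fun u hu => (mH i v u).2
      ⟨hv, mem_nbr.1 (mem_filter.1 hu).1, (mem_filter.1 hu).2.1⟩)
      ((cH i v hv).trans (Nat.pow_le_pow_right (by norm_num) hnσ)))
    (fun i v hv => by
      have a1 : ((nbr gr i v).filter (fun u => c0 i u = none ∧ j i u = j i v)).card ≤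
          ((H i v).filter (fun u => j i u = j i v)).card := card_le_card fun u hu =>
        mem_filter.2 ⟨(mH i v u).2 ⟨hv, mem_nbr.1 (mem_filter.1 hu).1, (mem_filter.1 hu).2.1⟩,
          (mem_filter.1 hu).2.2⟩
      refine a1.trans ((Nat.le_div_iff_mul_le (by positivity)).2 ?_)
      have a2 := (j3 i v).trans (Nat.mul_le_mul_left _ (cH i v hv))
      have a3 := (Nat.mul_le_mul_right ((H i v).filter (fun u => j i u = j i v)).card p1.le).trans
        a2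
      rw [mul_assoc] at a3
      have a4 := Nat.le_of_mul_le_mul_left a3 (by omega)
      rwa [mul_comm] at a4)
    (fun i v => (M1 _).trans (range_subset_range.2 (Nat.mul_le_mul_right _ (by nlinarith))))
    (fun i v => M2 _)
    (fun i v u ha _ _ _ => M3 _ _ (χ1 i v) (χ1 i u) (χ2 i v u (mem_nbr.2 ha)).symm)
    (by
      have a1 := Nat.div_mul_le_self (2 ^ ((n + 1) * σ)) (2 ^ (3 * σ + 2))
      have a2 : 2 ^ (3 * σ + 2) = 2 ^ (σ + σ + 2) * 2 ^ σ := by ring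
      have a3 : 2 ^ ((n + 1) * σ) = 2 ^ (n * σ) * 2 ^ σ := by ring
      generalize 2 ^ ((n + 1) * σ) / 2 ^ (3 * σ + 2) = d at a1 ⊢
      rw [a2, a3, ← mul_assoc] at a1
      exact Nat.le_of_mul_le_mul_right a1 (by positivity))
    hV ht
  refine ⟨c, c1.mono (by omega), c2, fun i v hv => ?_⟩
  obtain ⟨Y, y1, y2, y3⟩ := c4 i v hv
  have a1 : (Y ∪ (nbr gr i v).filter (fun u => c i u = none)).card ≤ (nbr gr i v).card :=
    card_le_card (union_subset y1 (filter_subset _ _))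
  rw [card_union_of_disjoint (disjoint_left.2 fun u hu hu' => (y2 u hu).1 (mem_filter.1 hu').2)]
    at a1
  simp only [h5L, card_range] at y3
  omega

theorem h5_deg_loc {K σ m Lg p t : ℕ} {id0 : V → ℕ} (hid : Function.Injective id0)
    (hlt : ∀ v, id0 v < 2 ^ Lg) (hσ : 1 ≤ σ) (hm : m + 2 ≤ K * σ) (hp : p.Prime)
    (p1 : (2 * K + 7) * 2 ^ (3 * σ + 2) < p) (hV : Fintype.card V ≤ 2 ^ Lg)
    (ht : Lg + p ^ 2 * (K * σ + σ + 2) < t * σ) (hdeg : ∀ i v, (nbr gr i v).card ≤ 2 ^ m) :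
    ∃ A : I → V → ℕ,
      Loc gr (1 + Lg + K * (p ^ 2 + 3 + t * (K * σ * 2 ^ (5 * K + 21) + 3))) A ∧
      (∀ i v, A i v ≤ (nbr gr i v).card) ∧ ∀ i v u, (gr i).Adj v u → A i v ≠ A i u := by
  obtain ⟨χ, χ0, χ1, χ2⟩ := h5_init (e := m) isSub_nbr hdeg Lg (r := 1)
    (c := fun _ v => id0 v) loc_nbr (fun _ _ _ _ => rfl)
    (fun _ v => (hlt v).trans_le (Nat.pow_le_pow_right (by norm_num) (by omega)))
    (fun i v u hu e => (mem_nbr.1 hu).ne (hid e).symm)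
  have key : ∀ s, s ≤ K → ∃ c : I → V → Option ℕ,
      Loc gr (1 + Lg + s * (p ^ 2 + 3 + t * (K * σ * 2 ^ (5 * K + 21) + 3))) c ∧
      h5Prop gr (h5L gr) c ∧ ∀ i v, c i v = none →
        ((nbr gr i v).filter (fun u => c i u = none)).card + 1 < 2 ^ ((K - s) * σ) := by
    intro s
    induction s with
    | zero =>
      intro _
      refine ⟨fun _ _ => none, fun _ _ _ _ => rfl, ⟨fun _ _ _ _ _ h => by simp at h,
        fun _ _ _ h => by simp at h⟩, fun i v _ => ?_⟩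
      refine lt_of_le_of_lt (Nat.add_le_add_right ((card_filter_le _ _).trans (hdeg i v)) 1) ?_
      have a2 : 2 ^ (m + 2) ≤ 2 ^ ((K - 0) * σ) := Nat.pow_le_pow_right (by norm_num) hm
      have a3 : 0 < 2 ^ m := by positivity
      rw [pow_add] at a2
      omega
    | succ s ih =>
      intro hs
      obtain ⟨c, c1, c2, c3⟩ := ih (by omega)
      rw [show K - s = K - (s + 1) + 1 by omega] at c3
      obtain ⟨c', a1, a2, a3⟩ := h5_deg_stage (n := K - (s + 1)) (by omega) hσ (by omega)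
        (by omega) hp p1 hV ht (χ0.mono (by omega)) χ1 χ2 c1 c2 c3
      exact ⟨c', a1.mono (by rw [add_mul s]; omega), a2, a3⟩
  obtain ⟨c, c1, c2, c3⟩ := key K le_rfl
  have all : ∀ i v, ∃ x, c i v = some x := by
    intro i v
    rcases e : c i v with _ | x
    · have := c3 i v e
      simp at this
    · exact ⟨x, rfl⟩
  refine ⟨fun i v => (c i v).getD 0, c1.map (fun _ a => a.getD 0), fun i v => ?_,
    fun i v u ha e => ?_⟩
  · obtain ⟨x, hx⟩ := all i v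
    have := c2.2 i v x hx
    simp only [h5L, mem_range] at this
    simp only [hx, Option.getD_some]
    omega
  · obtain ⟨x, hx⟩ := all i v
    obtain ⟨y, hy⟩ := all i u
    simp only [hx, hy, Option.getD_some] at e
    exact c2.1 i v u x ha hx (by rw [hy, e])

theorem h5_deg_time (K : ℕ) : ∃ C : ℕ, ∀ σ Lg : ℕ, 1 ≤ σ → ∃ p t : ℕ, p.Prime ∧
    (2 * K + 7) * 2 ^ (3 * σ + 2) < p ∧ Lg + p ^ 2 * (K * σ + σ + 2) < t * σ ∧
    1 + Lg + K * (p ^ 2 + 3 + t * (K * σ * 2 ^ (5 * K + 21) + 3)) ≤ C * (Lg + 2 ^ (7 * σ)) := by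
  obtain ⟨a, ha⟩ : ∃ a, a = 64 * (2 * K + 7) ^ 2 := ⟨_, rfl⟩
  obtain ⟨q, hq⟩ : ∃ q, q = K * 2 ^ (5 * K + 21) + 3 := ⟨_, rfl⟩
  refine ⟨1 + K * (a + 3 + (a * (K + 3) + 1) * q), fun σ Lg hσ => ?_⟩
  obtain ⟨p, hp, p1, p2⟩ := Nat.exists_prime_lt_and_le_two_mul ((2 * K + 7) * 2 ^ (3 * σ + 2))
    (by positivity)
  refine ⟨p, (Lg + p ^ 2 * (K * σ + σ + 2)) / σ + 1, hp, p1, ?_, ?_⟩
  · exact (Nat.lt_mul_div_succ _ hσ).trans_eq (mul_comm _ _)
  have h1 : p ^ 2 ≤ a * 2 ^ (6 * σ) := by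
    refine (Nat.pow_le_pow_left p2 2).trans (le_of_eq ?_)
    rw [ha]
    ring
  have h2 := Nat.div_mul_le_self (Lg + p ^ 2 * (K * σ + σ + 2)) σ
  generalize (Lg + p ^ 2 * (K * σ + σ + 2)) / σ = t at h2 ⊢
  generalize p ^ 2 = P at h1 h2 ⊢
  have h3 : σ ≤ 2 ^ σ := Nat.lt_two_pow_self.le
  have h4 : 2 ^ (7 * σ) = 2 ^ (6 * σ) * 2 ^ σ := by ring
  have h5 : 1 ≤ 2 ^ (6 * σ) := Nat.one_le_two_pow
  generalize 2 ^ (6 * σ) = X at h1 h4 h5
  generalize 2 ^ σ = Y at h3 h4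
  rw [h4]
  have h6 : K * σ * 2 ^ (5 * K + 21) + 3 ≤ σ * q := by rw [hq]; nlinarith
  have h7 : P * σ ≤ a * (X * Y) := by
    rw [← mul_assoc]
    exact Nat.mul_le_mul h1 h3
  have h8 : σ ≤ X * Y := h3.trans (Nat.le_mul_of_pos_left _ h5)
  have h9 : P * (K * σ + σ + 2) ≤ a * (K + 3) * (X * Y) := by
    have : K * σ + σ + 2 ≤ σ * (K + 3) := by nlinarith
    calc P * (K * σ + σ + 2) ≤ P * (σ * (K + 3)) := Nat.mul_le_mul_left _ this
      _ = P * σ * (K + 3) := by ring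
      _ ≤ a * (X * Y) * (K + 3) := Nat.mul_le_mul_right _ h7
      _ = _ := by ring
  have h10 : (t + 1) * σ ≤ (a * (K + 3) + 1) * (Lg + X * Y) := by
    have e1 : (a * (K + 3) + 1) * (Lg + X * Y) =
        a * (K + 3) * Lg + a * (K + 3) * (X * Y) + Lg + X * Y := by ring
    have e2 : (t + 1) * σ = t * σ + σ := by ring
    omega
  have h11 : (t + 1) * (K * σ * 2 ^ (5 * K + 21) + 3) ≤ (a * (K + 3) + 1) * q * (Lg + X * Y) := by
    calc _ ≤ (t + 1) * (σ * q) := Nat.mul_le_mul_left _ h6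
      _ = (t + 1) * σ * q := by ring
      _ ≤ (a * (K + 3) + 1) * (Lg + X * Y) * q := Nat.mul_le_mul_right _ h10
      _ = _ := by ring
  have h12 : P + 3 ≤ (a + 3) * (Lg + X * Y) := by nlinarith
  have h13 := Nat.mul_le_mul_left K (Nat.add_le_add h12 h11)
  nlinarith

theorem h5_ncard {N : ℕ} (gr : I → SimpleGraph (Fin N)) (i : I) (v : Fin N) :
    (nbr gr i v).card = ((gr i).neighborSet v).ncard := by
  rw [← Set.ncard_coe_finset]
  congr 1
  ext u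
  simp [mem_nbr]

theorem h5_pow_bound {K n c : ℕ} {η : ℝ} (hK : 1 ≤ K) (hc : c ≤ K) (hη : (c : ℝ) ≤ η * K)
    (hn : 1 ≤ n) : (2 : ℝ) ^ (c * ((Nat.clog 2 n + 2) / K + 1)) ≤ 8 * 2 ^ c * (n : ℝ) ^ η := by
  have n1 : (1 : ℝ) ≤ n := by exact_mod_cast hn
  have h1 : 2 ^ Nat.clog 2 n ≤ 2 * n := by
    rcases Nat.eq_or_lt_of_le hn with e | e
    · rw [← e]
      simp
    · have h2 : 2 ^ (Nat.clog 2 n).pred < n := Nat.pow_pred_clog_lt_self (by norm_num) e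
      obtain ⟨k, hk⟩ : ∃ k, Nat.clog 2 n = k + 1 :=
        ⟨Nat.clog 2 n - 1, by have := Nat.clog_pos (b := 2) (by norm_num) e; omega⟩
      rw [hk] at h2 ⊢
      simp only [Nat.pred_succ] at h2
      rw [pow_succ]
      omega
  generalize Nat.clog 2 n = m at h1 ⊢
  have h2 := Nat.div_mul_le_self (m + 2) K
  generalize (m + 2) / K = s at h2 ⊢
  have h3 : ((2 : ℝ) ^ (c * s)) ^ K ≤ (8 * (n : ℝ) ^ η) ^ K := by
    have a1 : ((2 : ℝ) ^ (c * s)) ^ K ≤ (2 ^ (m + 2)) ^ c := by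
      rw [← pow_mul, ← pow_mul]
      exact pow_le_pow_right₀ (by norm_num) (by nlinarith)
    have a2 : (2 : ℝ) ^ (m + 2) ≤ 8 * n := by
      have : (2 : ℝ) ^ m ≤ 2 * n := by exact_mod_cast h1
      rw [pow_add]
      linarith
    have a3 : ((2 : ℝ) ^ (m + 2)) ^ c ≤ 8 ^ c * (n : ℝ) ^ c := by
      rw [← mul_pow]
      exact pow_le_pow_left₀ (by positivity) a2 _
    have a4 : (8 : ℝ) ^ c ≤ 8 ^ K := pow_le_pow_right₀ (by norm_num) hc
    have a5 : (n : ℝ) ^ c ≤ ((n : ℝ) ^ η) ^ K := by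
      rw [← Real.rpow_natCast, ← Real.rpow_natCast, ← Real.rpow_mul (by linarith)]
      exact Real.rpow_le_rpow_of_exponent_le n1 hη
    rw [mul_pow]
    exact a1.trans (a3.trans (mul_le_mul a4 a5 (by positivity) (by positivity)))
  have h4 := (pow_le_pow_iff_left₀ (by positivity) (by positivity) (by omega)).1 h3
  rw [mul_add, mul_one, pow_add]
  nlinarith [show (0 : ℝ) < 2 ^ c by positivity]

theorem h5_exists_K (c : ℕ) {η : ℝ} (hη : 0 < η) :
    ∃ K : ℕ, 1 ≤ K ∧ c ≤ K ∧ (c : ℝ) ≤ η * K := by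
  obtain ⟨n, hn⟩ := exists_nat_ge ((c : ℝ) / η)
  refine ⟨n + c + 1, by omega, by omega, ?_⟩
  rw [div_le_iff₀ hη] at hn
  push_cast
  nlinarith [Nat.cast_nonneg (α := ℝ) c]

theorem h5_main_deg : ∀ η : ℝ, 0 < η → ∃ C : ℝ, ∀ N Δ : ℕ, 2 ≤ N → 1 ≤ Δ →
    ∃ (T : ℕ) (A : SimpleGraph (Fin N) → Fin N → ℕ),
      (T : ℝ) ≤ C * (Real.log N + (Δ : ℝ) ^ η) ∧
      (∀ G G' : SimpleGraph (Fin N), (∀ v, (G.neighborSet v).ncard ≤ Δ) →
        (∀ v, (G'.neighborSet v).ncard ≤ Δ) → ∀ v, SameView T G G' v → A G v = A G' v) ∧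
      ∀ G : SimpleGraph (Fin N), (∀ v, (G.neighborSet v).ncard ≤ Δ) →
        (∀ v, A G v ≤ (G.neighborSet v).ncard) ∧ ∀ v u, G.Adj v u → A G v ≠ A G u := by
  classical
  intro η hη
  obtain ⟨K, k1, k2, k3⟩ := h5_exists_K 7 hη
  obtain ⟨C, hC⟩ := h5_deg_time K
  refine ⟨C * 1024, fun N Δ hN hΔ => ?_⟩
  obtain ⟨p, t, hp, p1, ht, hT⟩ := hC ((Nat.clog 2 Δ + 2) / K + 1) (Nat.clog 2 N) (Nat.le_add_left _ _)
  have hL : N ≤ 2 ^ Nat.clog 2 N := Nat.le_pow_clog (by norm_num) _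
  obtain ⟨A, a1, a2, a3⟩ := h5_deg_loc
    (I := {G : SimpleGraph (Fin N) // ∀ v, (G.neighborSet v).ncard ≤ Δ}) (gr := Subtype.val)
    (m := Nat.clog 2 Δ) (id0 := Fin.val) Fin.val_injective (fun v => v.isLt.trans_le hL)
    (Nat.le_add_left _ _) (Nat.lt_mul_div_succ _ k1).le hp p1 (by simpa using hL) ht
    (fun i v => by
      rw [h5_ncard]
      exact (i.2 v).trans (Nat.le_pow_clog (by norm_num) _))
  generalize 1 + Nat.clog 2 N + K * (p ^ 2 + 3 + t * (K * ((Nat.clog 2 Δ + 2) / K + 1) *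
    2 ^ (5 * K + 21) + 3)) = T at hT a1
  refine ⟨T, fun G v => if h : ∀ v, (G.neighborSet v).ncard ≤ Δ then A ⟨G, h⟩ v else 0, ?_,
    fun G G' hG hG' v hv => ?_, fun G hG => ?_⟩
  rotate_left
  · simp only [dif_pos hG, dif_pos hG']
    exact a1 ⟨G, hG⟩ ⟨G', hG'⟩ v (agree_of_sameView hv)
  · simp only [dif_pos hG]
    exact ⟨fun v => (a2 ⟨G, hG⟩ v).trans (h5_ncard _ _ _).le, a3 ⟨G, hG⟩⟩
  · have b1 := h5_pow_bound k1 k2 k3 hΔ
    have b2 := (clog_le hN).2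
    have b3 : (0 : ℝ) ≤ Real.log N := Real.log_natCast_nonneg N
    have b4 : (0 : ℝ) ≤ (Δ : ℝ) ^ η := by positivity
    refine le_trans (Nat.cast_le.2 hT) ?_
    push_cast
    rw [mul_assoc]
    refine mul_le_mul_of_nonneg_left ?_ (Nat.cast_nonneg _)
    norm_num at b1
    linarith

end Pool.Agent.P.MP_6f280c_lc
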