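import Pool.Agent.P.MP_6f280c_lc.H5Deg

namespace Pool.Agent.P.MP_6f280c_lc

open Finset

variable {V I : Type} [Fintype V] [LinearOrder V] {gr : I → SimpleGraph V}

/-- layers: every node has few neighbours in its own or a later layer -/
theorem h5_layers {m σ : ℕ}
    (hs : ∀ i (s : Finset V), ∑ v ∈ s, ((nbr gr i v).filter (fun u => u ∈ s)).card ≤
      2 ^ (m + 1) * s.card) (s : ℕ) :
    ∃ lev : I → V → ℕ, Loc gr (1 + s) lev ∧ (∀ i v, lev i v ≤ s) ∧
      (∀ i v, lev i v < s →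
        ((nbr gr i v).filter (fun u => lev i v ≤ lev i u)).card ≤ 2 ^ (m + 1 + σ)) ∧
      ∀ i, (univ.filter (fun v => lev i v = s)).card * 2 ^ (σ * s) ≤ Fintype.card V := by
  induction s with
  | zero => exact ⟨fun _ _ => 0, fun _ _ _ _ => rfl, fun _ _ => le_rfl,
      fun _ _ h => absurd h (by omega), fun _ => by simp⟩
  | succ s ih =>
    obtain ⟨l, l1, l2, l3, l4⟩ := ih
    let up : I → V → Prop := fun i v =>
      l i v = s ∧ 2 ^ (m + 1 + σ) < ((nbr gr i v).filter (fun u => l i u = s)).card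
    have lup : Loc gr (1 + (s + 1)) up := by
      intro i i' v hA
      simp only [up]
      rw [← l1.here hA (by omega), ← loc_nbr.here hA (by omega)]
      congr 3
      refine filter_congr fun u hu => ?_
      rw [l1.adj hA (mem_nbr.1 hu) (by omega)]
    classical
    refine ⟨fun i v => if up i v then s + 1 else l i v, fun i i' v hA => ?_, fun i v => ?_,
      fun i v hv => ?_, fun i => ?_⟩
    · show (if up i v then s + 1 else l i v) = if up i' v then s + 1 else l i' v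
      exact if_congr (lup.here hA le_rfl).to_iff rfl (l1.here hA (by omega))
    · have := l2 i v
      show (if up i v then s + 1 else l i v) ≤ _
      split_ifs <;> omega
    · have h1 : ¬ up i v := fun h => by simp [h] at hv
      simp only [if_neg h1]
      rcases Nat.lt_or_ge (l i v) s with h2 | h2
      · refine le_trans (card_le_card fun u hu => ?_) (l3 i v h2)
        obtain ⟨a1, a2⟩ := mem_filter.1 hu
        refine mem_filter.2 ⟨a1, ?_⟩
        split_ifs at a2 with a3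
        · have := a3.1
          omega
        · exact a2
      · have h3 : l i v = s := le_antisymm (l2 i v) h2
        have h4 : ((nbr gr i v).filter (fun u => l i u = s)).card ≤ 2 ^ (m + 1 + σ) := by
          by_contra hc
          exact h1 ⟨h3, by omega⟩
        refine le_trans (card_le_card fun u hu => ?_) h4
        obtain ⟨a1, a2⟩ := mem_filter.1 hu
        refine mem_filter.2 ⟨a1, ?_⟩
        split_ifs at a2 with a3
        · exact a3.1
        · have := l2 i u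
          omega
    · set S := univ.filter (fun v => l i v = s) with hS
      set S' := univ.filter (fun v => (if up i v then s + 1 else l i v) = s + 1) with hS'
      have a1 : ∀ v ∈ S', up i v := by
        intro v hv
        have := (mem_filter.1 hv).2
        by_contra hc
        rw [if_neg hc] at this
        have := l2 i v
        omega
      have a2 : S' ⊆ S := fun v hv => mem_filter.2 ⟨mem_univ _, (a1 v hv).1⟩
      have a3 : S'.card * 2 ^ (m + 1 + σ) ≤
          ∑ v ∈ S', ((nbr gr i v).filter (fun u => u ∈ S)).card := by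
        rw [← smul_eq_mul]
        refine card_nsmul_le_sum _ _ _ fun v hv => ?_
        refine (a1 v hv).2.le.trans (le_of_eq ?_)
        congr 1
        exact filter_congr fun u _ => by simp [hS]
      have a4 := a3.trans ((sum_le_sum_of_subset a2).trans (hs i S))
      have a5 : S'.card * 2 ^ σ ≤ S.card := by
        rw [pow_add, mul_comm (2 ^ (m + 1)), ← mul_assoc, mul_comm (2 ^ (m + 1))] at a4
        exact Nat.le_of_mul_le_mul_right a4 (by positivity)
      refine le_trans ?_ (l4 i)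
      rw [mul_add, mul_one, pow_add, mul_comm (2 ^ (σ * s)), ← mul_assoc]
      exact Nat.mul_le_mul_right _ a5

theorem h5_arb_loc {K σ m Lg P t : ℕ} {id0 : V → ℕ} (hid : Function.Injective id0)
    (hlt : ∀ v, id0 v < 2 ^ Lg) (hm : m ≤ K * σ) (hV : Fintype.card V ≤ 2 ^ Lg)
    (hP : Lg < σ * P) (ht : Lg + (P + 1) * (m + 1 + σ + σ + 2) < t * σ)
    (hs : ∀ i (s : Finset V), ∑ v ∈ s, ((nbr gr i v).filter (fun u => u ∈ s)).card ≤
      2 ^ (m + 1) * s.card) :
    ∃ A : I → V → ℕ,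
      Loc gr (4 + 2 * P + Lg + t * ((m + 3 * σ + 3) * 2 ^ (5 * K + 28) + 3)) A ∧
      (∀ i v, A i v < 2 ^ (m + 3 * σ + 4)) ∧ ∀ i v u, (gr i).Adj v u → A i v ≠ A i u := by
  obtain ⟨l, l1, l2, l3, l4⟩ := h5_layers (σ := σ) hs P
  have l5 : ∀ i v, l i v < P := by
    intro i v
    by_contra hc
    have a1 : 1 ≤ (univ.filter (fun v => l i v = P)).card :=
      card_pos.2 ⟨v, mem_filter.2 ⟨mem_univ _, le_antisymm (l2 i v) (by omega)⟩⟩
    have a2 := (Nat.mul_le_mul_right _ a1).trans ((l4 i).trans hV)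
    have a3 : 2 ^ Lg < 2 ^ (σ * P) := Nat.pow_lt_pow_right (by norm_num) hP
    omega
  have l6 : ∀ i v (Y : Finset V), (∀ u ∈ Y, u ∈ nbr gr i v ∧ P - l i u ≤ P - l i v) →
      Y.card ≤ 2 ^ (m + 1 + σ) := by
    intro i v Y hY
    refine le_trans (card_le_card fun u hu => mem_filter.2 ⟨(hY u hu).1, ?_⟩) (l3 i v (l5 i v))
    have := (hY u hu).2
    have := l5 i u
    have := l5 i v
    omega
  let H : I → V → Finset V := fun i v => (nbr gr i v).filter (fun u => l i u = l i v)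
  have hH : IsSub gr H := fun i v u hu => by
    obtain ⟨a1, a2⟩ := mem_filter.1 hu
    exact ⟨mem_nbr.1 a1, mem_filter.2 ⟨mem_nbr.2 (mem_nbr.1 a1).symm, a2.symm⟩⟩
  have lH : Loc gr (2 + P) H := by
    intro i i' v hA
    simp only [H]
    rw [← l1.here hA (by omega), ← loc_nbr.here hA (by omega)]
    refine filter_congr fun u hu => ?_
    rw [l1.adj hA (mem_nbr.1 hu) (by omega)]
  obtain ⟨χ, χ0, χ1, χ2⟩ := h5_init (e := m + 1 + σ) hH
    (fun i v => l6 i v _ fun u hu => ⟨(mem_filter.1 hu).1, by rw [(mem_filter.1 hu).2]⟩) Lg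
    (c := fun _ v => id0 v) lH (fun _ _ _ _ => rfl)
    (fun _ v => (hlt v).trans_le (Nat.pow_le_pow_right (by norm_num) (by omega)))
    (fun i v u hu e => (hH i v u hu).1.ne (hid e).symm)
  obtain ⟨M, M1, M2, M3⟩ := h5_code (m + 3 * σ + 3) (2 ^ (5 * K + 28)) σ
    (2 ^ (4 * (m + 1 + σ) + 20)) (by positivity) (by
      rw [← pow_add, ← pow_mul]
      exact Nat.pow_lt_pow_right (by norm_num) (by nlinarith))
  obtain ⟨c, c1, c2, -, c4⟩ := h5_stage (r := 2 + P + Lg)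
    (T := (m + 3 * σ + 3) * 2 ^ (5 * K + 28)) (b := m + 3 * σ + 3) (κ := σ)
    (d := 2 ^ (m + 1 + σ)) (e := m + 1 + σ) (P := P + 1) (σ := σ) (Lg := Lg) (t := t)
    (L := fun _ _ => range (2 ^ (m + 3 * σ + 3) + 2 ^ (m + 1 + σ))) (M := fun i v => M (χ i v))
    (j := fun i v => P - l i v) (c0 := fun _ _ => none) (gr := gr)
    (fun _ _ _ _ => rfl) (χ0.map (fun _ a => M a))
    ((l1.mono (by omega)).map (fun _ a => P - a)) (fun _ _ _ _ => rfl)
    ⟨fun _ _ _ _ _ h => by simp at h, fun _ _ _ h => by simp at h⟩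
    (fun i v => by omega)
    (fun i v _ => l6 i v _ fun u hu => ⟨(mem_filter.1 hu).1, (mem_filter.1 hu).2.2.le⟩)
    (fun i v _ => l6 i v _ fun u hu => ⟨(mem_filter.1 hu).1, (mem_filter.1 hu).2.2.le⟩)
    (fun i v => M1 _) (fun i v => M2 _)
    (fun i v u ha _ _ e => M3 _ _ (χ1 i v) (χ1 i u) (χ2 i v u (mem_filter.2 ⟨mem_nbr.2 ha, by
      have := l5 i u
      have := l5 i v
      omega⟩)).symm)
    (le_of_eq (by ring)) hV ht
  have all : ∀ i v, ∃ x, c i v = some x := by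
    intro i v
    rcases e : c i v with _ | x
    · obtain ⟨Y, y1, y2, y3⟩ := c4 i v e
      have := l6 i v Y fun u hu => ⟨y1 hu, (y2 u hu).2.resolve_left (by simp)⟩
      rw [card_range] at y3
      omega
    · exact ⟨x, rfl⟩
  refine ⟨fun i v => (c i v).getD 0, (c1.map (fun _ a => a.getD 0)).mono (by omega),
    fun i v => ?_, fun i v u ha e => ?_⟩
  · obtain ⟨x, hx⟩ := all i v
    have a1 := c2.2 i v x hx
    simp only [mem_range] at a1
    simp only [hx, Option.getD_some]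
    have a2 : 2 ^ (m + 1 + σ) ≤ 2 ^ (m + 3 * σ + 3) := Nat.pow_le_pow_right (by norm_num) (by omega)
    rw [show m + 3 * σ + 4 = m + 3 * σ + 3 + 1 by ring, pow_succ]
    omega
  · obtain ⟨x, hx⟩ := all i v
    obtain ⟨y, hy⟩ := all i u
    simp only [hx, hy, Option.getD_some] at e
    exact c2.1 i v u x ha hx (by rw [hy, e])

theorem h5_arb_time (K : ℕ) : ∃ C : ℕ, ∀ σ m Lg : ℕ, 1 ≤ σ → m ≤ K * σ → ∃ P t : ℕ,
    Lg < σ * P ∧ Lg + (P + 1) * (m + 1 + σ + σ + 2) < t * σ ∧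
    4 + 2 * P + Lg + t * ((m + 3 * σ + 3) * 2 ^ (5 * K + 28) + 3) ≤ C * (Lg + σ) := by
  obtain ⟨q, hq⟩ : ∃ q, q = (K + 6) * 2 ^ (5 * K + 28) + 3 := ⟨_, rfl⟩
  refine ⟨9 + (2 * K + 12) * q, fun σ m Lg hσ hm => ?_⟩
  refine ⟨Lg / σ + 1, (Lg + (Lg / σ + 1 + 1) * (m + 1 + σ + σ + 2)) / σ + 1,
    Nat.lt_mul_div_succ _ hσ, (Nat.lt_mul_div_succ _ hσ).trans_eq (mul_comm _ _), ?_⟩
  have h1 := Nat.div_mul_le_self Lg σ
  have h2 := Nat.div_mul_le_self (Lg + (Lg / σ + 1 + 1) * (m + 1 + σ + σ + 2)) σ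
  generalize (Lg + (Lg / σ + 1 + 1) * (m + 1 + σ + σ + 2)) / σ = t at h2 ⊢
  generalize Lg / σ = P at h1 h2 ⊢
  have h3 : (m + 3 * σ + 3) * 2 ^ (5 * K + 28) + 3 ≤ σ * q := by
    rw [hq]
    have : m + 3 * σ + 3 ≤ σ * (K + 6) := by nlinarith
    have := Nat.mul_le_mul_right (2 ^ (5 * K + 28)) this
    nlinarith
  have h4 : (P + 1 + 1) * (m + 1 + σ + σ + 2) ≤ (K + 5) * (Lg + 2 * σ) := by
    have a1 : m + 1 + σ + σ + 2 ≤ σ * (K + 5) := by nlinarith
    calc _ ≤ (P + 1 + 1) * (σ * (K + 5)) := Nat.mul_le_mul_left _ a1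
      _ = (K + 5) * (P * σ + 2 * σ) := by ring
      _ ≤ _ := Nat.mul_le_mul_left _ (by omega)
  have h5 : (t + 1) * σ ≤ (2 * K + 12) * (Lg + σ) := by nlinarith
  have h6 : (t + 1) * ((m + 3 * σ + 3) * 2 ^ (5 * K + 28) + 3) ≤ (2 * K + 12) * q * (Lg + σ) := by
    calc _ ≤ (t + 1) * (σ * q) := Nat.mul_le_mul_left _ h3
      _ = (t + 1) * σ * q := by ring
      _ ≤ (2 * K + 12) * (Lg + σ) * q := Nat.mul_le_mul_right _ h5
      _ = _ := by ring
  have h7 : P ≤ Lg := le_trans (Nat.le_mul_of_pos_right _ hσ) h1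
  rw [add_mul 9]
  omega

theorem h5_sparse_sum {N a : ℕ} (gr : I → SimpleGraph (Fin N)) (i : I)
    (h : ∀ s : Set (Fin N), ((gr i).induce s).edgeSet.ncard ≤ a * s.ncard) (s : Finset (Fin N)) :
    ∑ v ∈ s, ((nbr gr i v).filter (fun u => u ∈ s)).card ≤ 2 * a * s.card := by
  classical
  have h1 := h (s : Set (Fin N))
  have h2 := SimpleGraph.sum_degrees_eq_twice_card_edges ((gr i).induce (s : Set (Fin N)))
  rw [Set.ncard_coe_finset, ← SimpleGraph.coe_edgeFinset, Set.ncard_coe_finset] at h1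
  have h3 : ∑ v ∈ s, ((nbr gr i v).filter (fun u => u ∈ s)).card =
      ∑ v : (s : Set (Fin N)), ((gr i).induce (s : Set (Fin N))).degree v := by
    rw [← sum_coe_sort]
    refine Fintype.sum_equiv (Equiv.refl _) _ _ fun v => ?_
    rw [← SimpleGraph.card_neighborFinset_eq_degree]
    symm
    refine card_bij (fun u _ => u.1) (fun u hu => ?_) (fun u _ u' _ e => Subtype.ext e)
      (fun u hu => ?_)
    · exact mem_filter.2 ⟨mem_nbr.2 (by simpa using hu), u.2⟩
    · exact ⟨⟨u, (mem_filter.1 hu).2⟩, by simpa using mem_nbr.1 (mem_filter.1 hu).1, rfl⟩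
  rw [h3, h2, mul_assoc]
  exact Nat.mul_le_mul_left _ h1

theorem h5_main_arb : ∀ ε : ℝ, 0 < ε → ∃ C : ℝ, ∀ N a : ℕ, 2 ≤ N → 1 ≤ a →
    ∃ (T : ℕ) (A : SimpleGraph (Fin N) → Fin N → ℕ),
      (T : ℝ) ≤ C * Real.log N ∧
      (∀ G G' : SimpleGraph (Fin N),
        (∀ s : Set (Fin N), (G.induce s).edgeSet.ncard ≤ a * s.ncard) →
        (∀ s : Set (Fin N), (G'.induce s).edgeSet.ncard ≤ a * s.ncard) →
        ∀ v, SameView T G G' v → A G v = A G' v) ∧
      ∀ G : SimpleGraph (Fin N), (∀ s : Set (Fin N), (G.induce s).edgeSet.ncard ≤ a * s.ncard) →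
        (∀ v, (A G v : ℝ) < C * (a : ℝ) ^ (1 + ε)) ∧ ∀ v u, G.Adj v u → A G v ≠ A G u := by
  classical
  intro ε hε
  obtain ⟨K, k1, k2, k3⟩ := h5_exists_K 3 hε
  obtain ⟨C, hC⟩ := h5_arb_time K
  refine ⟨C * 15 + 2048, fun N a hN ha => ?_⟩
  have a1' : (1 : ℝ) ≤ a := by exact_mod_cast ha
  have b3 : (0 : ℝ) ≤ Real.log N := Real.log_natCast_nonneg N
  have b4 : (1 : ℝ) ≤ (a : ℝ) ^ ε := Real.one_le_rpow a1' hε.le
  have b5 : (a : ℝ) ^ (1 + ε) = a * (a : ℝ) ^ ε := by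
    rw [Real.rpow_add (by linarith), Real.rpow_one]
  have b6 : (0 : ℝ) ≤ C := Nat.cast_nonneg _
  rcases Nat.lt_or_ge a N with hlt | hge
  swap
  · refine ⟨0, fun _ v => v.val, by simp; positivity, fun _ _ _ _ _ _ => rfl, fun G _ =>
      ⟨fun v => ?_, fun v u h e => h.ne (Fin.ext e)⟩⟩
    have : ((v.val : ℕ) : ℝ) < a := by exact_mod_cast v.isLt.trans_le hge
    rw [b5]
    nlinarith [mul_nonneg b6 (show (0 : ℝ) ≤ a * (a : ℝ) ^ ε by positivity)]
  have hm : Nat.clog 2 a ≤ K * ((Nat.clog 2 a + 2) / K + 1) :=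
    le_trans (by omega) (Nat.lt_mul_div_succ (Nat.clog 2 a + 2) k1).le
  obtain ⟨P, t, hP, ht, hT⟩ := hC ((Nat.clog 2 a + 2) / K + 1) (Nat.clog 2 a) (Nat.clog 2 N)
    (Nat.le_add_left _ _) hm
  have hL : N ≤ 2 ^ Nat.clog 2 N := Nat.le_pow_clog (by norm_num) _
  obtain ⟨A, a1, a2, a3⟩ := h5_arb_loc
    (I := {G : SimpleGraph (Fin N) // ∀ s : Set (Fin N), (G.induce s).edgeSet.ncard ≤ a * s.ncard})
    (gr := Subtype.val) (id0 := Fin.val) Fin.val_injective (fun v => v.isLt.trans_le hL) hm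
    (by simpa using hL) hP ht
    (fun i s => (h5_sparse_sum _ i i.2 s).trans (Nat.mul_le_mul_right _ (by
      have : a ≤ 2 ^ Nat.clog 2 a := Nat.le_pow_clog (by norm_num) _
      rw [pow_succ]
      omega)))
  generalize 4 + 2 * P + Nat.clog 2 N + t * ((Nat.clog 2 a + 3 * ((Nat.clog 2 a + 2) / K + 1) + 3)
    * 2 ^ (5 * K + 28) + 3) = T at hT a1
  refine ⟨T, fun G v => if h : ∀ s : Set (Fin N), (G.induce s).edgeSet.ncard ≤ a * s.ncard then
    A ⟨G, h⟩ v else 0, ?_, fun G G' hG hG' v hv => ?_, fun G hG => ?_⟩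
  · obtain ⟨b1, b2⟩ := clog_le hN
    have c1 : Nat.clog 2 a ≤ Nat.clog 2 N := Nat.clog_mono_right _ hlt.le
    have c2 : (Nat.clog 2 a + 2) / K ≤ Nat.clog 2 a + 2 := Nat.div_le_self _ _
    have c3 : T ≤ C * (5 * Nat.clog 2 N) := hT.trans (Nat.mul_le_mul_left _ (by omega))
    have c4 : (T : ℝ) ≤ C * (5 * Nat.clog 2 N) := by exact_mod_cast c3
    nlinarith [mul_le_mul_of_nonneg_left b2 b6]
  · simp only [dif_pos hG, dif_pos hG']
    exact a1 ⟨G, hG⟩ ⟨G', hG'⟩ v (agree_of_sameView hv)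
  · simp only [dif_pos hG]
    refine ⟨fun v => ?_, a3 ⟨G, hG⟩⟩
    have c1 := h5_pow_bound k1 k2 k3 ha
    have c2 : (A ⟨G, hG⟩ v : ℝ) < 2 ^ (Nat.clog 2 a + 3 * ((Nat.clog 2 a + 2) / K + 1) + 4) := by
      exact_mod_cast a2 ⟨G, hG⟩ v
    have c3 : 2 ^ Nat.clog 2 a ≤ 2 * a := by
      rcases Nat.eq_or_lt_of_le ha with e | e
      · rw [← e]
        simp
      · have h2 : 2 ^ (Nat.clog 2 a).pred < a := Nat.pow_pred_clog_lt_self (by norm_num) e
        obtain ⟨k, hk⟩ : ∃ k, Nat.clog 2 a = k + 1 :=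
          ⟨Nat.clog 2 a - 1, by have := Nat.clog_pos (b := 2) (by norm_num) e; omega⟩
        rw [hk] at h2 ⊢
        simp only [Nat.pred_succ] at h2
        rw [pow_succ]
        omega
    have c4 : (2 : ℝ) ^ Nat.clog 2 a ≤ 2 * a := by exact_mod_cast c3
    rw [pow_add, pow_add] at c2
    have c5 := mul_le_mul c4 c1 (by positivity) (by positivity)
    rw [b5]
    nlinarith [mul_nonneg b6 (show (0 : ℝ) ≤ a * (a : ℝ) ^ ε by positivity)]

end Pool.Agent.P.MP_6f280c_lc
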