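import Pool.Agent.P.MP_6f280c_lc.H5Att

namespace Pool.Agent.P.MP_6f280c_lc

open Finset

variable {V I : Type} [Fintype V] [LinearOrder V] {gr : I → SimpleGraph V}

theorem h5_words (b q κ : ℕ) (hq : 0 < q) : ∀ m : ℕ, m * 2 ^ b < q ^ (κ + 1) →
    ∃ f : ℕ → Fin b → Fin q, ∀ a a', a < m → a' < m → a ≠ a' →
      (univ.filter (fun l => f a l = f a' l)).card ≤ κ := by
  intro m
  induction m with
  | zero => exact fun _ => ⟨fun _ _ => ⟨0, hq⟩, fun a _ h => absurd h (by omega)⟩
  | succ m ih =>
    intro hm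
    have hm' : m * 2 ^ b < q ^ (κ + 1) := lt_of_le_of_lt (Nat.mul_le_mul_right _ (by omega)) hm
    obtain ⟨f, hf⟩ := ih hm'
    let piece : ℕ → Finset (Fin b) → Finset (Fin b → Fin q) := fun a T =>
      Fintype.piFinset (fun l => if l ∈ T then {f a l} else univ)
    have p1 : ∀ a T, T.card = κ + 1 → (piece a T).card * q ^ (κ + 1) = q ^ b := by
      intro a T hT
      simp only [piece, Fintype.card_piFinset]
      have e : q ^ (κ + 1) = ∏ l : Fin b, (if l ∈ T then q else 1) := by
        rw [prod_ite, prod_const, prod_const_one, mul_one, filter_mem_eq_inter, univ_inter, hT]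
      rw [e, ← prod_mul_distrib]
      rw [show q ^ b = ∏ _l : Fin b, q by simp]
      refine prod_congr rfl fun l _ => ?_
      split_ifs <;> simp
    let bad : Finset (Fin b → Fin q) :=
      (range m).biUnion (fun a => (powersetCard (κ + 1) univ).biUnion (piece a))
    have p2 : bad.card * q ^ (κ + 1) ≤ m * 2 ^ b * q ^ b := by
      have h1 : bad.card ≤ ∑ a ∈ range m, ∑ T ∈ powersetCard (κ + 1) univ, (piece a T).card :=
        card_biUnion_le.trans (sum_le_sum fun a _ => card_biUnion_le)
      refine (Nat.mul_le_mul_right _ h1).trans ?_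
      rw [sum_mul]
      refine (sum_le_card_nsmul _ _ (2 ^ b * q ^ b) fun a _ => ?_).trans (by simp [mul_assoc])
      rw [sum_mul, sum_congr rfl (fun T hT => p1 a T (mem_powersetCard.1 hT).2), sum_const,
        smul_eq_mul]
      refine Nat.mul_le_mul_right _ ?_
      have := card_le_card (powersetCard_mono (n := κ + 1) (Subset.refl (univ : Finset (Fin b))))
      have h2 : (powersetCard (κ + 1) (univ : Finset (Fin b))).card ≤
          (powerset (univ : Finset (Fin b))).card :=
        card_le_card fun T hT => mem_powerset.2 (mem_powersetCard.1 hT).1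
      simpa using h2
    have p3 : bad.card < (univ : Finset (Fin b → Fin q)).card := by
      have h1 : (univ : Finset (Fin b → Fin q)).card = q ^ b := by simp
      rw [h1]
      have h2 : m * 2 ^ b * q ^ b < q ^ (κ + 1) * q ^ b :=
        Nat.mul_lt_mul_of_pos_right hm' (by positivity)
      have h3 : bad.card * q ^ (κ + 1) < q ^ b * q ^ (κ + 1) := by
        rw [mul_comm (q ^ b)]
        omega
      exact Nat.lt_of_mul_lt_mul_right h3
    obtain ⟨y, _, hy⟩ := exists_mem_notMem_of_card_lt_card p3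
    have p4 : ∀ a < m, (univ.filter (fun l => f a l = y l)).card ≤ κ := by
      intro a ha
      by_contra hc
      obtain ⟨T, hT, hc'⟩ := exists_subset_card_eq (s := univ.filter (fun l => f a l = y l))
        (n := κ + 1) (by omega)
      refine hy (mem_biUnion.2 ⟨a, mem_range.2 ha, mem_biUnion.2 ⟨T,
        mem_powersetCard.2 ⟨subset_univ _, hc'⟩, Fintype.mem_piFinset.2 fun l => ?_⟩⟩)
      split_ifs with h
      · exact mem_singleton.2 (mem_filter.1 (hT h)).2.symm
      · exact mem_univ _
    refine ⟨fun a => if a = m then y else f a, fun a a' ha ha' hne => ?_⟩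
    by_cases h1 : a = m <;> by_cases h2 : a' = m
    · omega
    · simp only [if_pos h1, if_neg h2]
      have := p4 a' (by omega)
      simpa only [eq_comm] using this
    · simp only [if_neg h1, if_pos h2]
      exact p4 a (by omega)
    · simp only [if_neg h1, if_neg h2]
      exact hf a a' (by omega) (by omega) hne

/-- schedules with few common times -/
theorem h5_code (b q κ m : ℕ) (hq : 0 < q) (hm : m * 2 ^ b < q ^ (κ + 1)) :
    ∃ M : ℕ → Finset ℕ, (∀ a, M a ⊆ range (b * q)) ∧ (∀ a, (M a).card = b) ∧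
      ∀ a a', a < m → a' < m → a ≠ a' → (M a ∩ M a').card ≤ κ := by
  obtain ⟨f, hf⟩ := h5_words b q κ hq m hm
  have enc : ∀ (l l' : Fin b) (x x' : Fin q), l.val * q + x.val = l'.val * q + x'.val →
      l = l' ∧ x = x' := by
    intro l l' x x' e
    have h1 : (l.val * q + x.val) % q = x.val := by rw [Nat.mul_add_mod_of_lt x.isLt]
    have h2 : (l'.val * q + x'.val) % q = x'.val := by rw [Nat.mul_add_mod_of_lt x'.isLt]
    have h3 : x.val = x'.val := by rw [← h1, e, h2]
    rw [h3] at e
    exact ⟨Fin.ext (Nat.eq_of_mul_eq_mul_right hq (Nat.add_right_cancel e)), Fin.ext h3⟩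
  refine ⟨fun a => univ.image (fun l : Fin b => l.val * q + (f a l).val), fun a x hx => ?_,
    fun a => ?_, fun a a' ha ha' hne => le_trans ?_ (hf a a' ha ha' hne)⟩
  · obtain ⟨l, _, rfl⟩ := mem_image.1 hx
    have h1 := l.isLt
    have h2 := (f a l).isLt
    rw [mem_range]
    nlinarith
  · rw [card_image_of_injective _ (fun l l' e => (enc _ _ _ _ e).1)]
    simp
  · refine le_trans (card_le_card (t := (univ.filter (fun l => f a l = f a' l)).image
      (fun l : Fin b => l.val * q + (f a l).val)) fun x hx => ?_) card_image_le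
    obtain ⟨l, _, h1⟩ := mem_image.1 (mem_inter.1 hx).1
    obtain ⟨l', _, h2⟩ := mem_image.1 (mem_inter.1 hx).2
    obtain ⟨e1, e2⟩ := enc _ _ _ _ (h1.trans h2.symm)
    subst e1
    exact mem_image.2 ⟨l, mem_filter.2 ⟨mem_univ _, e2⟩, h1⟩

omit [Fintype V] [LinearOrder V] in
/-- one round of defective colouring -/
theorem h5_defect {r p k : ℕ} {H : I → V → Finset V} {c : I → V → ℕ} (hp : p.Prime)
    (hH : Loc gr r H) (hs : IsSub gr H) (hc : Loc gr r c) (hlt : ∀ i v, c i v < p ^ (k + 1))
    (hpr : ∀ i v u, u ∈ H i v → c i u ≠ c i v) :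
    ∃ c' : I → V → ℕ, Loc gr (r + 1) c' ∧ (∀ i v, c' i v < p ^ 2) ∧
      ∀ i v, p * ((H i v).filter (fun u => c' i u = c' i v)).card ≤ k * (H i v).card := by
  obtain ⟨f, f1, f2⟩ := code_st p k hp
  let A : I → V → ℕ → ℕ := fun i v x =>
    ((H i v).filter (fun u => f (c i u) x = f (c i v) x)).card
  have a1 : ∀ i v, ∃ x, x < p ∧ p * A i v x ≤ k * (H i v).card := by
    intro i v
    have h1 : ∑ x ∈ range p, A i v x ≤ k * (H i v).card := by
      simp only [A, card_filter]
      rw [sum_comm, mul_comm]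
      refine (sum_le_card_nsmul _ _ k fun u hu => ?_).trans (by simp)
      rw [← card_filter]
      exact f2 _ _ (hlt i u) (hlt i v) (hpr i v u hu)
    by_contra hc'
    push Not at hc'
    have h2 : ∑ _x ∈ range p, k * (H i v).card < ∑ x ∈ range p, p * A i v x :=
      sum_lt_sum_of_nonempty (nonempty_range_iff.2 hp.pos.ne') fun x hx => hc' x (mem_range.1 hx)
    rw [sum_const, card_range, smul_eq_mul, ← mul_sum] at h2
    exact absurd (Nat.lt_of_mul_lt_mul_left h2) (not_lt.2 h1)
  let X : (ℕ → ℕ) → ℕ → ℕ := fun B n => Classical.epsilon (fun x => x < p ∧ p * B x ≤ n)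
  have a2 : ∀ i v, X (A i v) (k * (H i v).card) < p ∧
      p * A i v (X (A i v) (k * (H i v).card)) ≤ k * (H i v).card := fun i v =>
    Classical.epsilon_spec (a1 i v)
  have lA : Loc gr (r + 1) A := by
    intro i i' v hA
    funext x
    simp only [A]
    rw [← hH.here hA (by omega), ← hc.here hA (by omega)]
    congr 1
    refine filter_congr fun u hu => ?_
    rw [hc.adj hA (hs i v u hu).1 le_rfl]
  refine ⟨fun i v => X (A i v) (k * (H i v).card) * p + f (c i v) (X (A i v) (k * (H i v).card)),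
    ?_, fun i v => ?_, fun i v => le_trans (Nat.mul_le_mul_left _ (card_le_card ?_)) (a2 i v).2⟩
  · intro i i' v hA
    show _ * p + _ = _ * p + _
    rw [← hH.here hA (by omega), ← hc.here hA (by omega), ← lA.here hA le_rfl]
  · have h1 := (a2 i v).1
    have h2 := f1 (c i v) (X (A i v) (k * (H i v).card))
    nlinarith
  · intro u hu
    obtain ⟨h1, h2⟩ := mem_filter.1 hu
    refine mem_filter.2 ⟨h1, ?_⟩
    have b1 := f1 (c i v) (X (A i v) (k * (H i v).card))
    have b2 := f1 (c i u) (X (A i u) (k * (H i u).card))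
    have e1 := congrArg (· % p) h2
    simp only [Nat.mul_add_mod_of_lt b1, Nat.mul_add_mod_of_lt b2] at e1
    beta_reduce at h2
    rw [e1] at h2
    have e2 := Nat.eq_of_mul_eq_mul_right hp.pos (Nat.add_right_cancel h2)
    rw [← e1, e2]

theorem h5_sq_le (y : ℕ) : 4 * (2 * y + 21) ^ 2 ≤ 2 ^ (y + 20) := by
  induction y with
  | zero => norm_num
  | succ y ih =>
    rw [show y + 1 + 20 = y + 20 + 1 by ring, pow_succ 2]
    have : 4 * (2 * y + 21) ^ 2 * 2 =
        4 * (2 * (y + 1) + 21) ^ 2 + (16 * y ^ 2 + 304 * y + 1412) := by ring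
    omega

omit [Fintype V] [LinearOrder V] in
/-- a proper colouring with polynomially many colours -/
theorem h5_init {e : ℕ} {H : I → V → Finset V} (hs : IsSub gr H)
    (hd : ∀ i v, (H i v).card ≤ 2 ^ e) (t : ℕ) :
    ∀ {r : ℕ} {c : I → V → ℕ}, Loc gr r H → Loc gr r c → (∀ i v, c i v < 2 ^ (t + (4 * e + 20))) →
      (∀ i v u, u ∈ H i v → c i u ≠ c i v) →
      ∃ c' : I → V → ℕ, Loc gr (r + t) c' ∧ (∀ i v, c' i v < 2 ^ (4 * e + 20)) ∧
        ∀ i v u, u ∈ H i v → c' i u ≠ c' i v := by
  induction t with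
  | zero => exact fun _ hc h1 h2 => ⟨_, hc, by simpa using h1, h2⟩
  | succ t ih =>
    intro r c hH hc h1 h2
    obtain ⟨p, hp, p1, p2⟩ := Nat.exists_prime_lt_and_le_two_mul ((t + 1 + (4 * e + 20)) * 2 ^ e)
      (by positivity)
    obtain ⟨c', a1, a2, a3⟩ := h5_defect (k := t + 1 + (4 * e + 20)) hp hH hs hc
      (fun i v => (h1 i v).trans_le ((Nat.pow_le_pow_right (by norm_num) (by omega)).trans
        (Nat.pow_le_pow_left hp.two_le _))) h2
    obtain ⟨c'', b1, b2, b3⟩ := ih (r := r + 1) (c := c') (hH.mono (by omega)) a1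
      (fun i v => (a2 i v).trans_le (by
        have h3 := h5_sq_le (t + 2 * e)
        have h4 : p ^ 2 ≤ (2 * ((2 * (t + 2 * e) + 21) * 2 ^ e)) ^ 2 :=
          Nat.pow_le_pow_left (p2.trans (Nat.mul_le_mul_left _ (Nat.mul_le_mul_right _
            (by omega)))) 2
        have h5 : 2 ^ (t + (4 * e + 20)) = 2 ^ (t + 2 * e + 20) * (2 ^ e) ^ 2 := by ring
        rw [h5]
        refine h4.trans ?_
        rw [mul_pow, mul_pow, ← mul_assoc]
        exact Nat.mul_le_mul_right _ (by simpa using h3)))
      (fun i v u hu e' => by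
        have h3 := a3 i v
        have h4 : 1 ≤ ((H i v).filter (fun u => c' i u = c' i v)).card :=
          card_pos.2 ⟨u, mem_filter.2 ⟨hu, e'⟩⟩
        have h5 := Nat.mul_le_mul_left (t + 1 + (4 * e + 20)) (hd i v)
        nlinarith)
    exact ⟨c'', b1.mono (by omega), b2, b3⟩

end Pool.Agent.P.MP_6f280c_lc
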