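import Pool.Agent.P.MP_6f280c_lc.H5Code

namespace Pool.Agent.P.MP_6f280c_lc

open Finset

variable {V I : Type} [Fintype V] [LinearOrder V] {gr : I → SimpleGraph V}

/-- weights that dominate the weights of the later neighbours -/
theorem h5_weights {r P D : ℕ} {j : I → V → ℕ} {c0 : I → V → Option ℕ} {z : ℝ} (hz : 0 ≤ z)
    (hj : Loc gr r j) (hc : Loc gr r c0) (hP : ∀ i v, j i v < P)
    (hD : ∀ i v, c0 i v = none →
      ((nbr gr i v).filter (fun u => c0 i u = none ∧ j i u < j i v)).card ≤ D) :
    ∃ w : I → V → ℝ, Loc gr (r + P + 1) w ∧ (∀ i v, 1 ≤ w i v) ∧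
      (∀ i u, c0 i u = none →
        z * ∑ v ∈ (nbr gr i u).filter (fun v => c0 i v = none ∧ j i u < j i v), w i v ≤ w i u) ∧
      ∀ i, ∑ v, w i v ≤ Fintype.card V * (1 + z * D) ^ P := by
  let up : I → V → Finset V := fun i u =>
    if c0 i u = none then (nbr gr i u).filter (fun v => c0 i v = none ∧ j i u < j i v) else ∅
  have up1 : ∀ i u v, v ∈ up i u → (gr i).Adj u v := by
    intro i u v h
    simp only [up] at h
    split_ifs at h
    · exact mem_nbr.1 (mem_filter.1 h).1
    · simp at h
  have lup : Loc gr (r + 1) up := by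
    intro i i' u hA
    simp only [up]
    rw [← hc.here hA (by omega), ← hj.here hA (by omega), ← loc_nbr.here hA (by omega)]
    congr 1
    refine filter_congr fun v hv => ?_
    rw [hc.adj hA (mem_nbr.1 hv) le_rfl, hj.adj hA (mem_nbr.1 hv) le_rfl]
  let W : ℕ → I → V → ℝ := fun s => Nat.rec (fun _ _ => 1)
    (fun _ W i u => 1 + z * ∑ v ∈ up i u, W i v) s
  have W0 : ∀ i u, W 0 i u = 1 := fun _ _ => rfl
  have Ws : ∀ s i u, W (s + 1) i u = 1 + z * ∑ v ∈ up i u, W s i v := fun _ _ _ => rfl
  have w1 : ∀ s i u, 1 ≤ W s i u := by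
    intro s
    induction s with
    | zero => exact fun _ _ => le_rfl
    | succ s ih =>
      intro i u
      rw [Ws]
      have : 0 ≤ ∑ v ∈ up i u, W s i v := sum_nonneg fun v _ => by linarith [ih i v]
      nlinarith
  have w2 : ∀ s i u, W s i u ≤ W (s + 1) i u := by
    intro s
    induction s with
    | zero => exact fun i u => w1 1 i u
    | succ s ih =>
      intro i u
      rw [Ws, Ws (s + 1)]
      have : ∑ v ∈ up i u, W s i v ≤ ∑ v ∈ up i u, W (s + 1) i v := sum_le_sum fun v _ => ih i v
      nlinarith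
  have w3 : ∀ s s' i u, s ≤ s' → W s i u ≤ W s' i u := fun s s' i u h =>
    monotone_nat_of_le_succ (f := fun s => W s i u) (fun s => w2 s i u) h
  have w4 : ∀ s, Loc gr (r + s + 1) (W s) := by
    intro s
    induction s with
    | zero => exact fun _ _ _ _ => rfl
    | succ s ih =>
      intro i i' u hA
      rw [Ws, Ws, ← lup.here hA (by omega)]
      congr 2
      exact sum_congr rfl fun v hv => ih.adj hA (up1 i u v hv) (by omega)
  have w5 : ∀ s i, ∑ v, W s i v ≤ Fintype.card V * (1 + z * D) ^ s := by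
    intro s i
    induction s with
    | zero => simp [W0]
    | succ s ih =>
      simp only [Ws]
      rw [sum_add_distrib, ← mul_sum]
      have e : ∑ u, ∑ v ∈ up i u, W s i v =
          ∑ v, ∑ _u ∈ univ.filter (fun u => v ∈ up i u), W s i v := by
        apply Finset.sum_comm'
        intro u v
        simp
      have h1 : ∑ u, ∑ v ∈ up i u, W s i v ≤ D * ∑ v, W s i v := by
        rw [e, mul_sum]
        refine sum_le_sum fun v _ => ?_
        rw [sum_const, nsmul_eq_mul]
        refine mul_le_mul_of_nonneg_right ?_ (by linarith [w1 s i v])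
        have h2 : (univ.filter (fun u => v ∈ up i u)).card ≤ D := by
          by_cases hv : c0 i v = none
          · refine le_trans (card_le_card fun u hu => ?_) (hD i v hv)
            have h3 := (mem_filter.1 hu).2
            have h4 := up1 i u v h3
            simp only [up] at h3
            split_ifs at h3 with h5
            · exact mem_filter.2 ⟨mem_nbr.2 h4.symm, h5, (mem_filter.1 h3).2.2⟩
            · simp at h3
          · rw [filter_eq_empty_iff.2]
            · simp
            · intro u _ h3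
              simp only [up] at h3
              split_ifs at h3
              · exact hv (mem_filter.1 h3).2.1
              · simp at h3
        exact_mod_cast h2
      have h2 : (1 : ℝ) ≤ (1 + z * D) ^ s := one_le_pow₀ (by nlinarith [Nat.cast_nonneg (α := ℝ) D])
      have h3 : (0 : ℝ) ≤ Fintype.card V := Nat.cast_nonneg _
      have h4 : (0 : ℝ) ≤ z * D := by positivity
      rw [sum_const, card_univ, nsmul_eq_mul, mul_one, pow_succ]
      nlinarith [mul_le_mul_of_nonneg_left h1 hz, mul_le_mul_of_nonneg_left ih h4,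
        mul_le_mul_of_nonneg_left h2 h3]
  refine ⟨fun i v => W (P - j i v) i v, ?_, fun i v => w1 _ i v, fun i u hu => ?_, fun i => ?_⟩
  · intro i i' v hA
    show W _ i v = W _ i' v
    rw [← hj.here hA (by omega)]
    exact (w4 _).here hA (by omega)
  · obtain ⟨s, hs⟩ : ∃ s, P - j i u = s + 1 := ⟨P - j i u - 1, by have := hP i u; omega⟩
    show _ ≤ W (P - j i u) i u
    rw [hs, Ws]
    simp only [up, if_pos hu]
    have : ∑ v ∈ (nbr gr i u).filter (fun v => c0 i v = none ∧ j i u < j i v), W (P - j i v) i v ≤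
        ∑ v ∈ (nbr gr i u).filter (fun v => c0 i v = none ∧ j i u < j i v), W s i v :=
      sum_le_sum fun v hv => w3 _ _ i v (by have := (mem_filter.1 hv).2.2; omega)
    nlinarith
  · exact (sum_le_sum fun v _ => w3 _ _ i v (Nat.sub_le _ _)).trans (w5 P i)

/-- the node is coloured or deferred -/
def h5res (c : V → Option ℕ) (df : V → Bool) (v : V) : Prop := c v ≠ none ∨ df v = true

/-- it is the turn of the node -/
def h5act (N : V → Finset V) (j : V → ℕ) (c : V → Option ℕ) (df : V → Bool) (v : V) : Prop :=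
  ¬ h5res c df v ∧ ∀ u ∈ N v, j u < j v → h5res c df u

/-- a proper colouring of some nodes from the lists -/
def h5Prop (gr : I → SimpleGraph V) (L : I → V → Finset ℕ) (c : I → V → Option ℕ) : Prop :=
  (∀ i v u x, (gr i).Adj v u → c i v = some x → c i u ≠ some x) ∧
    ∀ i v x, c i v = some x → x ∈ L i v

/-- the reason for deferring a node -/
def h5Wit (gr : I → SimpleGraph V) (L : I → V → Finset ℕ) (j : I → V → ℕ)
    (c0 c : I → V → Option ℕ) (b : ℕ) (i : I) (v : V) : Prop :=
  ∃ Y, Y ⊆ nbr gr i v ∧ (∀ u ∈ Y, c i u ≠ none ∧ (c0 i u ≠ none ∨ j i u ≤ j i v)) ∧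
    (L i v).card < 2 ^ b + Y.card

open Classical in
/-- invariant of a stage -/
structure h5Inv (gr : I → SimpleGraph V) (L : I → V → Finset ℕ) (j : I → V → ℕ)
    (c0 : I → V → Option ℕ) (w : I → V → ℝ) (b r : ℕ) (B : ℝ)
    (c : I → V → Option ℕ) (df : I → V → Bool) : Prop where
  lc : Loc gr r c
  ld : Loc gr r df
  pr : h5Prop gr L c
  ex : ∀ i v, c0 i v ≠ none → c i v ≠ none
  ord : ∀ i v u, c i v ≠ none → c0 i v = none → u ∈ nbr gr i v → j i u < j i v →
    h5res (c i) (df i) u
  wit : ∀ i v, df i v = true → h5Wit gr L j c0 c b i v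
  pot : ∀ i, ∑ v ∈ univ.filter (h5act (nbr gr i) (j i) (c i) (df i)), w i v ≤ B

open Classical in
/-- a subset of a given size -/
noncomputable def h5sub (S : Finset ℕ) (n : ℕ) : Finset ℕ :=
  if h : ∃ Y, Y ⊆ S ∧ Y.card = n then h.choose else range n

theorem h5sub_card (S : Finset ℕ) (n : ℕ) : (h5sub S n).card = n := by
  unfold h5sub
  split_ifs with h
  · exact h.choose_spec.2
  · simp

theorem h5sub_subset {S : Finset ℕ} {n : ℕ} (h : n ≤ S.card) : h5sub S n ⊆ S := by
  have hex : ∃ Y, Y ⊆ S ∧ Y.card = n := exists_subset_card_eq h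
  unfold h5sub
  rw [dif_pos hex]
  exact hex.choose_spec.1

theorem h5_macro {r T b κ d : ℕ} {L M : I → V → Finset ℕ} {j : I → V → ℕ}
    {c0 c : I → V → Option ℕ} {df : I → V → Bool} {w : I → V → ℝ} {B z : ℝ} (hz : 0 < z)
    (hr : 1 ≤ r) (hL : Loc gr r L) (hM : Loc gr r M) (hj : Loc gr r j) (hw : Loc gr r w)
    (w1 : ∀ i v, 1 ≤ w i v)
    (w2 : ∀ i u, c0 i u = none →
      z * ∑ v ∈ (nbr gr i u).filter (fun v => c0 i v = none ∧ j i u < j i v), w i v ≤ w i u)
    (hd : ∀ i v, c0 i v = none →
      ((nbr gr i v).filter (fun u => c0 i u = none ∧ j i u = j i v)).card ≤ d)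
    (hT : ∀ i v, M i v ⊆ range T) (hb : ∀ i v, (M i v).card = b)
    (hκ : ∀ i v u, (gr i).Adj v u → c0 i v = none → c0 i u = none → j i u = j i v →
      (M i v ∩ M i u).card ≤ κ)
    (hδ : z * (2 * d * 2 ^ κ) ≤ 2 ^ b)
    (h : h5Inv gr L j c0 w b r B c df) :
    ∃ c' df', h5Inv gr L j c0 w b (r + (T + 3)) (2 / z * B) c' df' := by
  classical
  let act : I → V → Prop := fun i => h5act (nbr gr i) (j i) (c i) (df i)
  let col : I → V → Finset V := fun i v => (nbr gr i v).filter (fun u => c i u ≠ none)
  let free : I → V → Finset ℕ := fun i v => L i v \ (col i v).biUnion (fun u => (c i u).toFinset)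
  let tr : I → V → Prop := fun i v => act i v ∧ 2 ^ b ≤ (free i v).card
  let H : I → V → Finset V := fun i v => if tr i v then (nbr gr i v).filter (tr i) else ∅
  let S : I → V → Finset ℕ := fun i v => h5sub (free i v) (2 ^ b)
  let ω : I → V → V → ℝ := fun i v u => if u ∈ nbr gr i v then w i v + w i u else 0
  have lact : Loc gr (r + 1) act := by
    intro i i' v hA
    simp only [act, h5act, h5res]
    rw [← h.lc.here hA (by omega), ← h.ld.here hA (by omega), ← hj.here hA (by omega),
      ← loc_nbr.here hA (by omega)]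
    congr 1
    refine propext (forall₂_congr fun u hu => ?_)
    rw [h.lc.adj hA (mem_nbr.1 hu) le_rfl, h.ld.adj hA (mem_nbr.1 hu) le_rfl,
      hj.adj hA (mem_nbr.1 hu) le_rfl]
  have lfree : Loc gr (r + 1) free := by
    intro i i' v hA
    have e : col i v = col i' v := by
      simp only [col]
      rw [← loc_nbr.here hA (by omega)]
      refine filter_congr fun u hu => ?_
      rw [h.lc.adj hA (mem_nbr.1 hu) le_rfl]
    simp only [free]
    rw [← hL.here hA (by omega), ← e]
    congr 1
    refine biUnion_congr rfl fun u hu => ?_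
    rw [h.lc.adj hA (mem_nbr.1 (mem_filter.1 hu).1) le_rfl]
  have ltr : Loc gr (r + 1) tr := by
    intro i i' v hA
    simp only [tr]
    rw [lact i i' v hA, lfree i i' v hA]
  have lH : Loc gr (r + 2) H := by
    intro i i' v hA
    refine if_congr (iff_of_eq (ltr.here hA (by omega))) ?_ rfl
    rw [← loc_nbr.here hA (by omega)]
    refine filter_congr fun u hu => ?_
    rw [ltr.adj hA (mem_nbr.1 hu) le_rfl]
  have lω : Loc gr (r + 1) ω := by
    intro i i' v hA
    funext u
    simp only [ω]
    rw [← hw.here hA (by omega), ← loc_nbr.here hA (by omega)]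
    by_cases hu : u ∈ nbr gr i v
    · rw [if_pos hu, if_pos hu, hw.adj hA (mem_nbr.1 hu) le_rfl]
    · rw [if_neg hu, if_neg hu]
  have mH : ∀ i v u, u ∈ H i v ↔ tr i v ∧ (gr i).Adj v u ∧ tr i u := by
    intro i v u
    simp only [H]
    split_ifs with h1
    · simp [h1, mem_nbr]
    · simp [h1]
  have hs : IsSub gr H := fun i v u hu => by
    obtain ⟨a1, a2, a3⟩ := (mH i v u).1 hu
    exact ⟨a2, (mH i u v).2 ⟨a3, a2.symm, a1⟩⟩
  have an : ∀ i v, act i v → c i v = none ∧ c0 i v = none := by
    intro i v hv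
    have h1 : c i v = none := by
      by_contra hc
      exact hv.1 (Or.inl hc)
    exact ⟨h1, by by_contra hc; exact h.ex i v hc h1⟩
  have same : ∀ i v u, u ∈ H i v → c0 i v = none ∧ c0 i u = none ∧ j i u = j i v := by
    intro i v u hu
    obtain ⟨a1, a2, a3⟩ := (mH i v u).1 hu
    refine ⟨(an i v a1.1).2, (an i u a3.1).2, ?_⟩
    rcases lt_trichotomy (j i u) (j i v) with e | e | e
    · exact absurd (a1.1.2 u (mem_nbr.2 a2) e) a3.1.1
    · exact e
    · exact absurd (a3.1.2 v (mem_nbr.2 a2.symm) e) a1.1.1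
  have ωe : ∀ i v u, u ∈ H i v → ω i v u = w i v + w i u := fun i v u hu =>
    if_pos (mem_nbr.2 (hs i v u hu).1)
  have ωp : ∀ i v u, 0 ≤ ω i v u := by
    intro i v u
    simp only [ω]
    split_ifs
    · linarith [w1 i v, w1 i u]
    · exact le_rfl
  obtain ⟨x, x1, x2, x3⟩ := h5_attempt (r := r + 2) (T := T) (b := b) (κ := κ) (S := S) (M := M)
    hs (fun i v u hu => by rw [ωe i v u hu, ωe i u v (hs i v u hu).2, add_comm]) ωp lH
    (lω.mono (by omega)) ((lfree.mono (by omega)).map (fun _ s => h5sub s (2 ^ b)))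
    (hM.mono (by omega)) (fun i v => h5sub_card _ _) hT hb
    (fun i v u hu => hκ i v u (hs i v u hu).1 (same i v u hu).1 (same i v u hu).2.1
      (same i v u hu).2.2)
  let suc : I → V → Prop := fun i v => tr i v ∧ ∀ u ∈ H i v, x i u ≠ x i v
  have lsuc : Loc gr (r + (T + 3)) suc := by
    intro i i' v hA
    simp only [suc]
    rw [← ltr.here hA (by omega), ← lH.here hA (by omega), ← x1.here hA (by omega)]
    congr 1
    refine propext (forall₂_congr fun u hu => ?_)
    rw [x1.adj hA (hs i v u hu).1 (by omega)]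
  let c' : I → V → Option ℕ := fun i v => if suc i v then some (x i v) else c i v
  let df' : I → V → Bool := fun i v => if act i v ∧ ¬ tr i v then true else df i v
  have xf : ∀ i v, tr i v → x i v ∈ free i v := fun i v hv => h5sub_subset hv.2 (x2 i v)
  have cm : ∀ i v, c i v ≠ none → c' i v ≠ none := by
    intro i v hv
    simp only [c']
    split_ifs
    · simp
    · exact hv
  have rm : ∀ i v, h5res (c i) (df i) v → h5res (c' i) (df' i) v := by
    intro i v hv
    rcases hv with hv | hv
    · exact Or.inl (cm i v hv)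
    · right
      simp only [df']
      split_ifs
      · rfl
      · exact hv
  have nf : ∀ i v u y, tr i v → (gr i).Adj v u → c i u = some y → x i v ≠ y := by
    intro i v u y hv ha hu e
    refine (mem_sdiff.1 (xf i v hv)).2 (mem_biUnion.2 ⟨u, mem_filter.2 ⟨mem_nbr.2 ha, ?_⟩, ?_⟩)
    · rw [hu]; simp
    · rw [hu, e]; simp
  refine ⟨c', df', ?_, ?_, ⟨?_, ?_⟩, fun i v hv => cm i v (h.ex i v hv), ?_, ?_, ?_⟩
  · intro i i' v hA
    exact if_congr (iff_of_eq (lsuc.here hA le_rfl)) (by rw [x1.here hA (by omega)])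
      (h.lc.here hA (by omega))
  · intro i i' v hA
    exact if_congr (by rw [lact.here hA (by omega), ltr.here hA (by omega)]) rfl
      (h.ld.here hA (by omega))
  · intro i v u y ha hv hu
    simp only [c'] at hv hu
    split_ifs at hv hu with h1 h2 h2
    · exact h1.2 u ((mH i v u).2 ⟨h1.1, ha, h2.1⟩)
        ((Option.some.inj hu).trans (Option.some.inj hv).symm)
    · exact nf i v u y h1.1 ha hu (Option.some.inj hv)
    · exact nf i u v y h2.1 ha.symm hv (Option.some.inj hu)
    · exact h.pr.1 i v u y ha hv hu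
  · intro i v y hv
    simp only [c'] at hv
    split_ifs at hv with h1
    · rw [← Option.some.inj hv]
      exact (mem_sdiff.1 (xf i v h1.1)).1
    · exact h.pr.2 i v y hv
  · intro i v u hv h0 hu hlt
    refine rm i u ?_
    simp only [c'] at hv
    split_ifs at hv with h1
    · exact h1.1.1.2 u hu hlt
    · exact h.ord i v u hv h0 hu hlt
  · intro i v hv
    simp only [df'] at hv
    split_ifs at hv with h1
    · refine ⟨col i v, filter_subset _ _, fun u hu => ?_, ?_⟩
      · obtain ⟨a1, a2⟩ := mem_filter.1 hu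
        refine ⟨cm i u a2, ?_⟩
        by_contra hc
        push Not at hc
        exact h1.1.1 (h.ord i u v a2 hc.1 (mem_nbr.2 (mem_nbr.1 a1).symm) hc.2)
      · have a1 : (free i v).card < 2 ^ b := by
          by_contra hc
          exact h1.2 ⟨h1.1, not_lt.1 hc⟩
        have a2 : ((col i v).biUnion (fun u => (c i u).toFinset)).card ≤ (col i v).card := by
          refine card_biUnion_le.trans ?_
          refine (sum_le_card_nsmul _ _ 1 fun u _ => ?_).trans (by simp)
          cases c i u <;> simp
        have a3 := le_card_sdiff ((col i v).biUnion (fun u => (c i u).toFinset)) (L i v)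
        simp only [free] at a1
        omega
    · obtain ⟨Y, a1, a2, a3⟩ := h.wit i v hv
      exact ⟨Y, a1, fun u hu => ⟨cm i u (a2 u hu).1, (a2 u hu).2⟩, a3⟩
  · intro i
    have hB := h.pot i
    set A := univ.filter (h5act (nbr gr i) (j i) (c i) (df i)) with hA
    have wp : ∀ v, 0 ≤ w i v := fun v => by linarith [w1 i v]
    let up : V → Finset V := fun u =>
      (nbr gr i u).filter (fun v => c0 i v = none ∧ j i u < j i v)
    have k1 : ∀ v ∈ univ.filter (h5act (nbr gr i) (j i) (c' i) (df' i)),
        w i v ≤ ∑ u ∈ H i v, (if x i u = x i v then ω i v u else 0) +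
          ∑ u ∈ A, (if v ∈ up u then w i v else 0) := by
      intro v hv
      have a0 := (mem_filter.1 hv).2
      have p1 : 0 ≤ ∑ u ∈ H i v, (if x i u = x i v then ω i v u else 0) :=
        sum_nonneg fun u _ => by split_ifs; exacts [ωp i v u, le_rfl]
      have p2 : 0 ≤ ∑ u ∈ A, (if v ∈ up u then w i v else 0) :=
        sum_nonneg fun u _ => by split_ifs; exacts [wp v, le_rfl]
      by_cases h1 : act i v
      · have h2 : tr i v := by
          by_contra hc
          refine a0.1 (Or.inr ?_)
          simp only [df']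
          rw [if_pos ⟨h1, hc⟩]
        have h3 : ¬ suc i v := by
          intro hc
          refine a0.1 (Or.inl ?_)
          simp only [c']
          rw [if_pos hc]
          simp
        obtain ⟨u, hu, e⟩ : ∃ u ∈ H i v, x i u = x i v := by
          by_contra hc
          push Not at hc
          exact h3 ⟨h2, hc⟩
        have := single_le_sum (f := fun u => if x i u = x i v then ω i v u else 0)
          (fun u _ => by split_ifs; exacts [ωp i v u, le_rfl]) hu
        simp only [if_pos e, ωe i v u hu] at this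
        linarith [wp u]
      · have h2 : ¬ h5res (c i) (df i) v := fun hc => a0.1 (rm i v hc)
        obtain ⟨u, hu, hlt, h3⟩ : ∃ u ∈ nbr gr i v, j i u < j i v ∧ ¬ h5res (c i) (df i) u := by
          by_contra hc
          push Not at hc
          exact h1 ⟨h2, hc⟩
        have h4 : act i u := by
          by_contra hc
          refine h3 ?_
          rcases a0.2 u hu hlt with e | e
          · simp only [c'] at e
            rw [if_neg (fun h5 => hc h5.1.1)] at e
            exact Or.inl e
          · simp only [df'] at e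
            rw [if_neg (fun h5 => hc h5.1)] at e
            exact Or.inr e
        have h5 : v ∈ up u := by
          refine mem_filter.2 ⟨mem_nbr.2 (mem_nbr.1 hu).symm, ?_, hlt⟩
          by_contra hc
          exact h2 (Or.inl (h.ex i v hc))
        have := single_le_sum (f := fun u => if v ∈ up u then w i v else 0) (s := A)
          (fun u _ => by split_ifs; exacts [wp v, le_rfl])
          (mem_filter.2 ⟨mem_univ u, h4⟩)
        simp only [if_pos h5] at this
        linarith
    have k2 : ∑ v ∈ univ.filter (h5act (nbr gr i) (j i) (c' i) (df' i)), w i v ≤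
        ∑ v, ∑ u ∈ H i v, (if x i u = x i v then ω i v u else 0) +
          ∑ v, ∑ u ∈ A, (if v ∈ up u then w i v else 0) := by
      rw [← sum_add_distrib]
      refine (sum_le_sum k1).trans (sum_le_sum_of_subset_of_nonneg (filter_subset _ _)
        fun v _ _ => add_nonneg (sum_nonneg fun u _ => ?_) (sum_nonneg fun u _ => ?_))
      · split_ifs; exacts [ωp i v u, le_rfl]
      · split_ifs; exacts [wp v, le_rfl]
    have k3 : z * ∑ v, ∑ u ∈ A, (if v ∈ up u then w i v else 0) ≤ ∑ u ∈ A, w i u := by
      rw [sum_comm, mul_sum]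
      refine sum_le_sum fun u hu => ?_
      rw [← sum_filter, filter_mem_eq_inter, univ_inter]
      exact w2 i u (an i u (mem_filter.1 hu).2).2
    have k4 : ∑ v, ∑ u ∈ H i v, ω i v u ≤ 2 * d * ∑ u ∈ A, w i u := by
      have e1 : ∑ v, ∑ u ∈ H i v, ω i v u = 2 * ∑ v, ∑ _u ∈ H i v, w i v := by
        rw [sum_congr rfl fun v _ => sum_congr rfl fun u hu => ωe i v u hu]
        simp only [sum_add_distrib]
        rw [h5_swap (fun v u hu => (hs i v u hu).2) (fun _ u => w i u)]
        ring
      rw [e1, mul_assoc]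
      refine mul_le_mul_of_nonneg_left ?_ (by norm_num)
      rw [hA, sum_filter, mul_sum]
      refine sum_le_sum fun v _ => ?_
      rw [sum_const, nsmul_eq_mul]
      by_cases h1 : tr i v
      · rw [if_pos h1.1]
        refine mul_le_mul_of_nonneg_right ?_ (wp v)
        have : (H i v).card ≤ d := le_trans (card_le_card fun u hu => mem_filter.2
          ⟨mem_nbr.2 (hs i v u hu).1, (same i v u hu).2⟩) (hd i v (an i v h1.1).2)
        exact_mod_cast this
      · have : H i v = ∅ := if_neg h1
        rw [this]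
        have := wp v
        split_ifs <;> simp
        positivity
    have k5 := x3 i
    have p0 : 0 ≤ ∑ u ∈ A, w i u := sum_nonneg fun u _ => wp u
    have k6 : z * ((∑ v, ∑ u ∈ H i v, ω i v u) * 2 ^ κ / 2 ^ b) ≤ ∑ u ∈ A, w i u := by
      rw [← mul_div_assoc, div_le_iff₀ (by positivity)]
      have a1 := mul_le_mul_of_nonneg_left (mul_le_mul_of_nonneg_right k4
        (show (0 : ℝ) ≤ 2 ^ κ by positivity)) hz.le
      have a2 := mul_le_mul_of_nonneg_left hδ p0
      nlinarith
    rw [div_mul_eq_mul_div, le_div_iff₀ hz]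
    nlinarith [mul_le_mul_of_nonneg_left k2 hz.le, mul_le_mul_of_nonneg_left k5 hz.le]

/-- one stage: the classes are served in a pipeline -/
theorem h5_stage {r T b κ d e P σ Lg t : ℕ} {L M : I → V → Finset ℕ} {j : I → V → ℕ}
    {c0 : I → V → Option ℕ} (hL : Loc gr r L) (hM : Loc gr r M) (hj : Loc gr r j)
    (hc : Loc gr r c0) (hpr : h5Prop gr L c0) (hP : ∀ i v, j i v < P)
    (hD : ∀ i v, c0 i v = none →
      ((nbr gr i v).filter (fun u => c0 i u = none ∧ j i u < j i v)).card ≤ 2 ^ e)
    (hd : ∀ i v, c0 i v = none →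
      ((nbr gr i v).filter (fun u => c0 i u = none ∧ j i u = j i v)).card ≤ d)
    (hT : ∀ i v, M i v ⊆ range T) (hb : ∀ i v, (M i v).card = b)
    (hκ : ∀ i v u, (gr i).Adj v u → c0 i v = none → c0 i u = none → j i u = j i v →
      (M i v ∩ M i u).card ≤ κ)
    (hδ : d * 2 ^ (κ + σ + 2) ≤ 2 ^ b) (hV : Fintype.card V ≤ 2 ^ Lg)
    (ht : Lg + P * (e + σ + 2) < t * σ) :
    ∃ c : I → V → Option ℕ, Loc gr (r + P + 1 + t * (T + 3)) c ∧ h5Prop gr L c ∧
      (∀ i v, c0 i v ≠ none → c i v ≠ none) ∧
      ∀ i v, c i v = none → h5Wit gr L j c0 c b i v := by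
  classical
  obtain ⟨w, w0, w1, w2, w3⟩ := h5_weights (z := 2 ^ (σ + 1)) (by positivity) hj hc hP hD
  have key : ∀ s : ℕ, ∃ c df, h5Inv gr L j c0 w b (r + P + 1 + s * (T + 3))
      ((2 / 2 ^ (σ + 1)) ^ s * 2 ^ (Lg + P * (e + σ + 2))) c df := by
    intro s
    induction s with
    | zero =>
      refine ⟨c0, fun _ _ => false, hc.mono (by omega), fun _ _ _ _ => rfl, hpr, fun _ _ h => h,
        fun _ _ _ h1 h2 => absurd h2 h1, fun _ _ h => by simp at h, fun i => ?_⟩
      refine (sum_le_sum_of_subset_of_nonneg (filter_subset _ _)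
        fun v _ _ => by linarith [w1 i v]).trans ((w3 i).trans ?_)
      rw [pow_zero, one_mul, pow_add _ Lg, mul_comm P, pow_mul]
      have h1 : (Fintype.card V : ℝ) ≤ 2 ^ Lg := by exact_mod_cast hV
      refine mul_le_mul h1 (pow_le_pow_left₀ (by positivity) ?_ _) (by positivity) (by positivity)
      push_cast
      have h2 : (1 : ℝ) ≤ 2 ^ (σ + 1) * 2 ^ e := by
        rw [← pow_add]
        exact one_le_pow₀ (by norm_num)
      have h3 : (2 : ℝ) ^ (e + σ + 2) = 2 * (2 ^ (σ + 1) * 2 ^ e) := by ring
      linarith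
    | succ s ih =>
      obtain ⟨c, df, h⟩ := ih
      obtain ⟨c', df', h'⟩ := h5_macro (z := 2 ^ (σ + 1)) (by positivity) (by omega)
        (hL.mono (by omega)) (hM.mono (by omega)) (hj.mono (by omega)) (w0.mono (by omega)) w1 w2
        hd hT hb hκ (by
          have h1 : (d : ℝ) * 2 ^ (κ + σ + 2) ≤ 2 ^ b := by exact_mod_cast hδ
          have h2 : (2 : ℝ) ^ (σ + 1) * (2 * d * 2 ^ κ) = d * 2 ^ (κ + σ + 2) := by ring
          linarith) h
      refine ⟨c', df', ?_⟩
      rw [pow_succ', mul_assoc, add_mul, one_mul, ← add_assoc]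
      exact h'
  obtain ⟨c, df, h⟩ := key t
  refine ⟨c, h.lc, h.pr, h.ex, fun i v hv => h.wit i v ?_⟩
  have small : ((2 : ℝ) / 2 ^ (σ + 1)) ^ t * 2 ^ (Lg + P * (e + σ + 2)) < 1 := by
    have e1 : (2 : ℝ) / 2 ^ (σ + 1) = 1 / 2 ^ σ := by
      rw [pow_succ]
      field_simp
    rw [e1, one_div_pow, ← pow_mul, one_div_mul_eq_div, div_lt_one (by positivity)]
    exact pow_lt_pow_right₀ (by norm_num) (by rw [mul_comm σ]; exact ht)
  have noact : ∀ u, ¬ h5act (nbr gr i) (j i) (c i) (df i) u := by
    intro u hu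
    have := single_le_sum (f := w i)
      (s := univ.filter (h5act (nbr gr i) (j i) (c i) (df i)))
      (fun v _ => by linarith [w1 i v]) (mem_filter.2 ⟨mem_univ u, hu⟩)
    linarith [h.pot i, w1 i u]
  have all : ∀ n u, j i u < n → h5res (c i) (df i) u := by
    intro n
    induction n with
    | zero => exact fun u h => absurd h (by omega)
    | succ n ih =>
      intro u hu
      by_contra hc'
      exact noact u ⟨hc', fun u' _ hlt => ih u' (by omega)⟩
  rcases all P v (hP i v) with e1 | e1
  · exact absurd hv e1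
  · exact e1

end Pool.Agent.P.MP_6f280c_lc
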