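import Pool.Agent.P.MP_6f280c_lc.H7St

namespace Pool.Agent.P.MP_6f280c_lc

open Finset Polynomial

variable {V I : Type} [Fintype V] [LinearOrder V]

theorem h7def_digits (p : ℕ) (hp : 0 < p) : ∀ (n a b : ℕ), a < p ^ n → b < p ^ n →
    (∀ i < n, a / p ^ i % p = b / p ^ i % p) → a = b := by
  intro n
  induction n with
  | zero => intro a b ha hb _; simp at ha hb; omega
  | succ n ih =>
    intro a b ha hb h
    have h0 := h 0 (by omega)
    simp only [pow_zero, Nat.div_one] at h0
    have h1 : a / p = b / p := by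
      refine ih _ _ ?_ ?_ fun i hi => ?_
      · rw [Nat.div_lt_iff_lt_mul hp, ← pow_succ]; exact ha
      · rw [Nat.div_lt_iff_lt_mul hp, ← pow_succ]; exact hb
      · have := h (i + 1) (by omega)
        rwa [pow_succ', ← Nat.div_div_eq_div_mul, ← Nat.div_div_eq_div_mul] at this
    rw [← Nat.div_add_mod a p, ← Nat.div_add_mod b p, h0, h1]

/-- the polynomial whose coefficients are the digits -/
noncomputable def h7defP (p k a : ℕ) : (ZMod p)[X] :=
  ∑ i ∈ range (k + 1), monomial i ((a / p ^ i % p : ℕ) : ZMod p)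

theorem h7defP_coeff (p k a i : ℕ) (hi : i < k + 1) :
    (h7defP p k a).coeff i = ((a / p ^ i % p : ℕ) : ZMod p) := by
  unfold h7defP
  rw [finsetSum_coeff, Finset.sum_eq_single i]
  · simp
  · intro j _ hj
    rw [coeff_monomial, if_neg hj]
  · intro h
    exact absurd (mem_range.2 hi) h

theorem h7defP_deg (p k a : ℕ) : (h7defP p k a).natDegree ≤ k := by
  unfold h7defP
  refine natDegree_sum_le_of_forall_le _ _ fun i hi => ?_
  exact (natDegree_monomial_le _).trans (by have := mem_range.1 hi; omega)

theorem code_st : CodeSt := by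
  intro p k hp
  haveI := Fact.mk hp
  have hinj : ∀ x y : ℕ, x < p → y < p → (x : ZMod p) = (y : ZMod p) → x = y := by
    intro x y hx hy h
    have := congrArg ZMod.val h
    rwa [ZMod.val_natCast_of_lt hx, ZMod.val_natCast_of_lt hy] at this
  refine ⟨fun a x => (eval (x : ZMod p) (h7defP p k a)).val, fun a x => ZMod.val_lt _, ?_⟩
  intro a b ha hb hab
  have hne : h7defP p k a - h7defP p k b ≠ 0 := by
    intro h
    refine hab (h7def_digits p hp.pos (k + 1) a b ha hb fun i hi => ?_)
    have := congrArg (fun q => coeff q i) (sub_eq_zero.1 h)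
    simp only [h7defP_coeff p k _ i hi] at this
    exact hinj _ _ (Nat.mod_lt _ hp.pos) (Nat.mod_lt _ hp.pos) this
  have hdeg : (h7defP p k a - h7defP p k b).natDegree ≤ k :=
    (natDegree_sub_le _ _).trans (max_le (h7defP_deg p k a) (h7defP_deg p k b))
  classical
  calc _ ≤ (h7defP p k a - h7defP p k b).roots.toFinset.card := by
        refine card_le_card_of_injOn (fun x : ℕ => (x : ZMod p)) (fun x hx => ?_) ?_
        · have hx' := (mem_filter.1 (mem_coe.1 hx)).2
          have := ZMod.val_injective p hx'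
          simp only [mem_coe, Multiset.mem_toFinset]
          rw [mem_roots hne, IsRoot, eval_sub, this, sub_self]
        · intro x hx y hy h
          exact hinj x y (mem_range.1 (mem_filter.1 (mem_coe.1 hx)).1)
            (mem_range.1 (mem_filter.1 (mem_coe.1 hy)).1) h
    _ ≤ _ := (Multiset.toFinset_card_le _).trans ((card_roots' _).trans hdeg)

/-- weight of the new conflicts of `z` at the evaluation point `x` -/
def h7defA (f : ℕ → ℕ → ℕ) (X : V → V → Finset V) (c : V → ℕ) (z : V) (x : ℕ) : ℕ :=
  ∑ u, ∑ v, if z ∈ X u v then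
    ((X u v).filter (fun z' => c z' ≠ c z ∧ f (c z) x = f (c z') x)).card else 0

theorem h7defA_loc (gr : I → SimpleGraph V) (f : ℕ → ℕ → ℕ) {r R : ℕ}
    {X : I → V → V → Finset V} {c : I → V → ℕ} (hX : Loc gr r X)
    (hn : ∀ i u v z, z ∈ X i u v → Near (gr i) R u z) (hc : Loc gr r c) :
    Loc gr (r + 2 * R) (fun i z => h7defA f (X i) (c i) z) := by
  intro i i' z hA
  funext x
  show h7defA f (X i) (c i) z x = h7defA f (X i') (c i') z x
  unfold h7defA
  refine sum_congr rfl fun u _ => sum_congr rfl fun v _ => ?_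
  have e0 : c i z = c i' z := hc.here hA (by omega)
  by_cases h1 : z ∈ X i u v
  · have hzu : Near (gr i) R z u := (hn i u v z h1).symm
    have e1 : X i u = X i' u := hX.far hA hzu (by omega)
    rw [← e1, if_pos h1, if_pos h1]
    congr 1
    refine filter_congr fun z' hz' => ?_
    have e2 : c i z' = c i' z' := hc.far hA (hzu.trans (hn i u v z' hz')) (by omega)
    rw [e0, e2]
  · by_cases h2 : z ∈ X i' u v
    · have e1 : X i u = X i' u := hX.far' hA (hn i' u v z h2).symm (by omega)
      exact absurd (e1 ▸ h2) h1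
    · rw [if_neg h1, if_neg h2]

theorem h7defA_sum (p k : ℕ) (f : ℕ → ℕ → ℕ)
    (hf : ∀ a b, a < p ^ (k + 1) → b < p ^ (k + 1) → a ≠ b →
      ((range p).filter (fun x => f a x = f b x)).card ≤ k)
    (X : V → V → Finset V) (c : V → ℕ) (hc : ∀ z, c z < p ^ (k + 1)) (z : V) :
    ∑ x ∈ range p, h7defA f X c z x ≤ k * ∑ u, ∑ v, if z ∈ X u v then (X u v).card else 0 := by
  unfold h7defA
  rw [sum_comm, mul_sum]
  refine sum_le_sum fun u _ => ?_
  rw [sum_comm, mul_sum]
  refine sum_le_sum fun v _ => ?_
  by_cases h1 : z ∈ X u v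
  · simp only [if_pos h1, card_filter]
    rw [sum_comm, mul_comm, ← smul_eq_mul, ← sum_const]
    refine sum_le_sum fun z' _ => ?_
    by_cases h2 : c z' = c z
    · simp [h2]
    · have := hf (c z) (c z') (hc z) (hc z') (Ne.symm h2)
      rw [card_filter] at this
      refine le_trans (le_of_eq (sum_congr rfl fun x _ => ?_)) this
      simp [h2]
  · simp [h1]

theorem h7def_pairs (Y : Finset V) (c : V → ℕ) :
    ((Y ×ˢ Y).filter (fun a => c a.1 = c a.2)).card =
      ∑ z ∈ Y, (Y.filter (fun z' => c z = c z')).card := by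
  simp only [card_filter]
  rw [sum_product]

theorem defect_st (gr : I → SimpleGraph V) : DefectSt gr := by
  intro r R p k X c hp hX hn hc hlt
  obtain ⟨f, hf1, hf2⟩ := code_st p k hp
  have hsel : ∀ g : ℕ → ℕ, ∃ x, x < p ∧ p * g x ≤ ∑ y ∈ range p, g y := by
    intro g
    obtain ⟨x, hx, hm⟩ := exists_min_image (range p) g ⟨0, mem_range.2 hp.pos⟩
    refine ⟨x, mem_range.1 hx, ?_⟩
    have := card_nsmul_le_sum (range p) g (g x) hm
    simpa using this
  choose sel hs1 hs2 using hsel
  have hA := h7defA_loc gr f hX hn hc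
  refine ⟨fun i z => sel (h7defA f (X i) (c i) z) * p + f (c i z) (sel (h7defA f (X i) (c i) z)),
    ?_, fun i z => ?_, fun i => ?_⟩
  · exact (hA.prod (hc.mono (by omega))).map (fun _ a => sel a.1 * p + f a.2 (sel a.1))
  · have h1 := hs1 (h7defA f (X i) (c i) z)
    have h2 := hf1 (c i z) (sel (h7defA f (X i) (c i) z))
    have h3 : (sel (h7defA f (X i) (c i) z) + 1) * p ≤ p * p := Nat.mul_le_mul_right _ h1
    show _ < p ^ 2
    nlinarith
  · set s : V → ℕ := fun z => sel (h7defA f (X i) (c i) z) with hs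
    have key : monoPairs (X i) (fun z => s z * p + f (c i z) (s z)) ≤
        monoPairs (X i) (c i) + ∑ z, h7defA f (X i) (c i) z (s z) := by
      unfold monoPairs h7defA
      rw [sum_comm (s := (univ : Finset V)) (f := fun z u => ∑ v, if z ∈ X i u v then
        ((X i u v).filter (fun z' => c i z' ≠ c i z ∧
          f (c i z) (s z) = f (c i z') (s z))).card else 0), ← sum_add_distrib]
      refine sum_le_sum fun u _ => ?_
      rw [sum_comm (s := (univ : Finset V)) (f := fun z v => if z ∈ X i u v then
        ((X i u v).filter (fun z' => c i z' ≠ c i z ∧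
          f (c i z) (s z) = f (c i z') (s z))).card else 0), ← sum_add_distrib]
      refine sum_le_sum fun v _ => ?_
      rw [h7def_pairs (X i u v) (fun z => s z * p + f (c i z) (s z)), h7def_pairs,
        sum_ite_mem, univ_inter, ← sum_add_distrib]
      refine sum_le_sum fun z _ => ?_
      refine le_trans (card_le_card ?_) (card_union_le _ _)
      intro z' hz'
      obtain ⟨hz1, hz2⟩ := mem_filter.1 hz'
      by_cases h : c i z = c i z'
      · exact mem_union_left _ (mem_filter.2 ⟨hz1, h⟩)
      · refine mem_union_right _ (mem_filter.2 ⟨hz1, Ne.symm h, ?_⟩)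
        have a1 := hf1 (c i z) (s z)
        have a2 := hf1 (c i z') (s z')
        have e1 : (s z * p + f (c i z) (s z)) / p = (s z' * p + f (c i z') (s z')) / p := by
          rw [hz2]
        rw [mul_comm (s z), mul_comm (s z'), Nat.mul_add_div hp.pos, Nat.mul_add_div hp.pos,
          Nat.div_eq_of_lt a1, Nat.div_eq_of_lt a2, add_zero, add_zero] at e1
        rw [← e1] at hz2
        omega
    have key2 : p * ∑ z, h7defA f (X i) (c i) z (s z) ≤ k * ∑ u, ∑ v, (X i u v).card ^ 2 := by
      rw [mul_sum]
      refine le_trans (sum_le_sum fun z _ => (hs2 _).trans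
        (h7defA_sum p k f hf2 (X i) (c i) (hlt i) z)) (le_of_eq ?_)
      rw [← mul_sum, sum_comm]
      congr 1
      refine sum_congr rfl fun u _ => ?_
      rw [sum_comm]
      refine sum_congr rfl fun v _ => ?_
      rw [sum_ite_mem, univ_inter, sum_const, smul_eq_mul, sq]
    calc _ ≤ p * (monoPairs (X i) (c i) + ∑ z, h7defA f (X i) (c i) z (s z)) :=
          Nat.mul_le_mul_left _ key
      _ ≤ _ := by rw [mul_add]; exact Nat.add_le_add_left key2 _

end Pool.Agent.P.MP_6f280c_lc
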