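import Pool.Agent.P.MP_6f280c_lc.Phase

namespace Pool.Agent.P.MP_6f280c_lc

open Finset

variable {V I : Type} {gr : I → SimpleGraph V}

theorem Agree.symm {r : ℕ} {G G' : SimpleGraph V} {v : V} (h : Agree r G G' v) :
    Agree r G' G v := by
  induction r generalizing v with
  | zero => trivial
  | succ r ih => exact ⟨fun u => (h.1 u).symm, fun u hu => ih (h.2 u ((h.1 u).2 hu))⟩

theorem Near.symm {G : SimpleGraph V} {k : ℕ} {v u : V} (h : Near G k v u) : Near G k u v := by
  induction k generalizing v with
  | zero => exact Eq.symm h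
  | succ k ih =>
    rcases h with h | ⟨w, hw, h⟩
    · exact Or.inl h.symm
    · exact (ih h).trans (Near.of_adj hw.symm)

theorem Loc.far' {r R k : ℕ} {α : Type} {f : I → V → α} (hf : Loc gr r f) {i i' : I} {v u : V}
    (hA : Agree R (gr i) (gr i') v) (hn : Near (gr i') k v u) (h : r + k ≤ R) : f i u = f i' u :=
  (hf.far hA.symm hn h).symm

theorem Loc.prod {r : ℕ} {α β : Type} {f : I → V → α} {g : I → V → β} (hf : Loc gr r f)
    (hg : Loc gr r g) : Loc gr r (fun i v => (f i v, g i v)) := fun i i' v hA => by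
  show (f i v, g i v) = (f i' v, g i' v)
  rw [hf i i' v hA, hg i i' v hA]

theorem Loc.const {r : ℕ} {α : Type} (F : V → α) : Loc gr r (fun _ v => F v) :=
  fun _ _ _ _ => rfl

/-- a node collects data from all nodes that mention it -/
theorem Loc.gather {r k : ℕ} {α β : Type} {f : I → V → α} (hf : Loc gr r f)
    (φ : V → V → α → β) (d : β) (h : ∀ i z u, φ z u (f i u) ≠ d → Near (gr i) k z u) :
    Loc gr (r + k) (fun i z u => φ z u (f i u)) := by
  intro i i' z hA
  funext u
  show φ z u (f i u) = φ z u (f i' u)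
  by_cases h1 : φ z u (f i u) = d
  · by_cases h2 : φ z u (f i' u) = d
    · rw [h1, h2]
    · rw [hf.far' hA (h i' z u h2) le_rfl]
  · rw [hf.far hA (h i z u h1) le_rfl]

/-- a node collects data from a set of nearby nodes that it knows -/
theorem Loc.fetch {r k : ℕ} {α : Type} {f : I → V → α} (hf : Loc gr r f)
    {P : I → V → V → Prop} [∀ i u z, Decidable (P i u z)] (hP : Loc gr (r + k) P)
    (h : ∀ i u z, P i u z → Near (gr i) k u z) (d : α) :
    Loc gr (r + k) (fun i u z => if P i u z then f i z else d) := by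
  intro i i' u hA
  funext z
  have e : P i u z = P i' u z := congrFun (hP i i' u hA) z
  show (if P i u z then f i z else d) = (if P i' u z then f i' z else d)
  by_cases h1 : P i u z
  · rw [if_pos h1, if_pos (e ▸ h1), hf.far hA (h i u z h1) le_rfl]
  · rw [if_neg h1, if_neg (e ▸ h1)]

end Pool.Agent.P.MP_6f280c_lc
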