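import Pool.Agent.P.MP_6f280c_lc.H7St

namespace Pool.Agent.P.MP_6f280c_lc

open Finset

variable {V I : Type} [Fintype V] [LinearOrder V]

theorem h7ph_geom (m : ℕ) : 7 * ∑ k ∈ range m, 8 ^ k + 1 = 8 ^ m := by
  induction m with
  | zero => simp
  | succ m ih => rw [sum_range_succ, pow_succ]; omega

open Classical in
theorem h7ph_lost (a : ℕ → Prop) (N : ℕ) (ha : ∀ k, a k → k < N) :
    7 * ∑ k ∈ range N, (if a k then (if ∀ k', k < k' → ¬ a k' then 0 else 8 ^ k) else 0) ≤
      ∑ k ∈ range N, (if a k then 8 ^ k else 0) := by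
  rcases ((range N).filter a).eq_empty_or_nonempty with h | h
  · rw [filter_eq_empty_iff] at h
    rw [sum_eq_zero fun k hk => if_neg (h hk)]
    exact Nat.zero_le _
  · obtain ⟨m, hm, hmax⟩ := exists_max_image _ id h
    rw [mem_filter] at hm
    have h1 : 8 ^ m ≤ ∑ k ∈ range N, (if a k then 8 ^ k else 0) := by
      have := single_le_sum (f := fun k => if a k then 8 ^ k else 0)
        (fun _ _ => Nat.zero_le _) hm.1
      simpa [hm.2] using this
    have h2 : ∑ k ∈ range N, (if a k then (if ∀ k', k < k' → ¬ a k' then 0 else 8 ^ k) else 0) ≤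
        ∑ k ∈ range N, (if k < m then 8 ^ k else 0) := by
      refine sum_le_sum fun k _ => ?_
      by_cases c1 : k < m
      · rw [if_pos c1]
        split_ifs <;> simp
      · have c2 : ∀ k', k < k' → ¬ a k' := fun k' hk' hak => by
          have := hmax k' (mem_filter.2 ⟨mem_range.2 (ha k' hak), hak⟩)
          simp only [id] at this
          omega
        rw [if_pos c2]
        simp
    have h3 : ∑ k ∈ range N, (if k < m then 8 ^ k else 0) ≤ ∑ k ∈ range m, 8 ^ k := by
      rw [← sum_filter]
      exact sum_le_sum_of_subset fun k hk => mem_range.2 (mem_filter.1 hk).2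
    have h4 := h7ph_geom m
    omega

/-- no matching of a higher class touches the node -/
def h7phKeep (q : ℕ → V → Option V) (v : V) (k : ℕ) : Prop := ∀ k', k < k' → q k' v = none

/-- the pairs that survive -/
def h7phQ (q : ℕ → V → Option V) (v u : V) : Prop :=
  ∃ k, q k v = some u ∧ h7phKeep q v k ∧ h7phKeep q u k

omit [Fintype V] [LinearOrder V] in
theorem h7ph_uniq {q : ℕ → V → Option V} {v u u' : V} {k k' : ℕ} (h : q k v = some u)
    (hk : h7phKeep q v k) (h' : q k' v = some u') (hk' : h7phKeep q v k') : k = k' ∧ u = u' := by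
  have e : k = k' := by
    rcases lt_trichotomy k k' with c | c | c
    · rw [hk k' c] at h'; exact absurd h' (by simp)
    · exact c
    · rw [hk' k c] at h; exact absurd h (by simp)
  subst e
  rw [h] at h'
  exact ⟨rfl, Option.some.inj h'⟩

theorem h7ph_one (o : Option V) (c : ℕ) :
    ∑ u, (if o = some u then c else 0) = if o ≠ none then c else 0 := by
  rcases o with _ | w
  · simp
  · simp

theorem h7ph_swap {q : V → Option V} (hq : ∀ v u, q v = some u → q u = some v) (φ : V → V → ℕ) :
    ∑ v, ∑ u, (if q v = some u then φ u v else 0) = ∑ v, ∑ u, (if q v = some u then φ v u else 0) := by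
  rw [sum_comm]
  refine sum_congr rfl fun v _ => sum_congr rfl fun u _ => ?_
  exact if_congr ⟨hq u v, hq v u⟩ rfl rfl

open Classical in
theorem h7ph_count (q : ℕ → V → Option V) (dg : V → ℕ) (N : ℕ)
    (hq : ∀ k v u, q k v = some u → q k u = some v)
    (hd : ∀ k v u, q k v = some u → 8 ^ k ≤ dg v + dg u) (hN : ∀ k v, q k v ≠ none → k < N) :
    5 * ∑ k ∈ range N, 8 ^ k * (univ.filter (fun v => q k v ≠ none)).card ≤
      14 * ∑ v, (if ∃ u, h7phQ q v u then dg v else 0) := by
  have hW : ∑ k ∈ range N, 8 ^ k * (univ.filter (fun v => q k v ≠ none)).card =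
      ∑ k ∈ range N, ∑ v, (if q k v ≠ none then 8 ^ k else 0) := by
    refine sum_congr rfl fun k _ => ?_
    rw [← sum_filter, sum_const, smul_eq_mul, mul_comm]
  rw [hW]
  have h1 : ∀ k, ∑ v, (if q k v ≠ none then 8 ^ k else 0) ≤
      2 * ∑ v, ∑ u, (if q k v = some u then
        (if h7phKeep q v k ∧ h7phKeep q u k then dg v else 0) else 0) +
      2 * ∑ v, (if q k v ≠ none then (if h7phKeep q v k then 0 else 8 ^ k) else 0) := by
    intro k
    have e1 := h7ph_swap (hq k) (fun v u => if h7phKeep q v k ∧ h7phKeep q u k then dg v else 0)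
    have e2 := h7ph_swap (hq k) (fun v _ => if h7phKeep q v k then 0 else 8 ^ k)
    have e3 : ∑ v, ∑ u, (if q k v = some u then (if h7phKeep q v k then 0 else 8 ^ k) else 0) =
        ∑ v, (if q k v ≠ none then (if h7phKeep q v k then 0 else 8 ^ k) else 0) :=
      sum_congr rfl fun v _ => h7ph_one _ _
    have e4 : ∑ v, ∑ u, (if q k v = some u then 8 ^ k else 0) =
        ∑ v, (if q k v ≠ none then 8 ^ k else 0) := sum_congr rfl fun v _ => h7ph_one _ _
    have e5 : ∑ v, ∑ u, (if q k v = some u then 8 ^ k else 0) ≤
        ∑ v, ∑ u, ((if q k v = some u then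
          (if h7phKeep q v k ∧ h7phKeep q u k then dg v else 0) else 0) +
        (if q k v = some u then (if h7phKeep q u k ∧ h7phKeep q v k then dg u else 0) else 0) +
        (if q k v = some u then (if h7phKeep q v k then 0 else 8 ^ k) else 0) +
        (if q k v = some u then (if h7phKeep q u k then 0 else 8 ^ k) else 0)) := by
      refine sum_le_sum fun v _ => sum_le_sum fun u _ => ?_
      by_cases c : q k v = some u
      · have := hd k v u c
        by_cases c1 : h7phKeep q v k <;> by_cases c2 : h7phKeep q u k <;> simp [c, c1, c2, this]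
      · simp [c]
    simp only [sum_add_distrib] at e5
    omega
  have h2 : 7 * ∑ k ∈ range N,
      ∑ v, (if q k v ≠ none then (if h7phKeep q v k then 0 else 8 ^ k) else 0) ≤
      ∑ k ∈ range N, ∑ v, (if q k v ≠ none then 8 ^ k else 0) := by
    rw [sum_comm, sum_comm (s := range N), mul_sum]
    refine sum_le_sum fun v _ => ?_
    have h := h7ph_lost (fun k => q k v ≠ none) N (fun k hk => hN k v hk)
    refine le_trans (le_of_eq ?_) (h.trans (le_of_eq ?_))
    · congr 1
      refine sum_congr rfl fun k _ => ?_
      have e : h7phKeep q v k ↔ ∀ k', k < k' → ¬ q k' v ≠ none := by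
        simp [h7phKeep]
      by_cases c : q k v ≠ none
      · rw [if_pos c, if_pos c]
        exact if_congr e rfl rfl
      · rw [if_neg c, if_neg c]
    · exact sum_congr rfl fun k _ => by congr
  have h3 : ∑ k ∈ range N, ∑ v, ∑ u, (if q k v = some u then
        (if h7phKeep q v k ∧ h7phKeep q u k then dg v else 0) else 0) ≤
      ∑ v, (if ∃ u, h7phQ q v u then dg v else 0) := by
    rw [sum_comm]
    refine sum_le_sum fun v _ => ?_
    by_cases c : ∃ u, h7phQ q v u
    · rw [if_pos c]
      obtain ⟨u0, k0, a1, a2, -⟩ := c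
      have h4 : ∑ k ∈ range N, ∑ u, (if q k v = some u then
          (if h7phKeep q v k ∧ h7phKeep q u k then dg v else 0) else 0) ≤
          ∑ k ∈ range N, ∑ u, (if u = u0 then (if k = k0 then dg v else 0) else 0) := by
        refine sum_le_sum fun k _ => sum_le_sum fun u _ => ?_
        by_cases c1 : q k v = some u
        · by_cases c2 : h7phKeep q v k ∧ h7phKeep q u k
          · obtain ⟨e1, e2⟩ := h7ph_uniq c1 c2.1 a1 a2
            rw [if_pos c1, if_pos c2, if_pos e1, if_pos e2]
          · rw [if_pos c1, if_neg c2]; exact Nat.zero_le _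
        · rw [if_neg c1]; exact Nat.zero_le _
      refine h4.trans ?_
      simp only [sum_ite_eq', mem_univ, if_true]
      split_ifs <;> simp
    · rw [if_neg c]
      refine le_of_eq (sum_eq_zero fun k _ => sum_eq_zero fun u _ => ?_)
      by_cases c1 : q k v = some u
      · rw [if_pos c1, if_neg fun c2 => c ⟨u, k, c1, c2.1, c2.2⟩]
      · rw [if_neg c1]
  have h4 := sum_le_sum fun k (_ : k ∈ range N) => h1 k
  rw [sum_add_distrib, ← mul_sum, ← mul_sum] at h4
  omega

omit [LinearOrder V] in
theorem h7ph_mem {gr : I → SimpleGraph V} {p : I → V → Option V} {i : I} {v u : V} :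
    u ∈ freeN gr p i v ↔ (gr i).Adj v u ∧ p i v = none ∧ p i u = none := by
  simp [freeN]

theorem phase_st (gr : I → SimpleGraph V) : PhaseSt gr := by
  classical
  intro r0 w r p hM hr hp hm
  have hF : Loc gr (r + 1) (freeN gr p) := by
    intro i i' v hA
    ext u
    rw [h7ph_mem, h7ph_mem, ← hA.adj_iff (by omega), ← hp.here hA (by omega)]
    refine and_congr_right fun h => ?_
    rw [hp.adj hA h le_rfl]
  let cls : I → V → V → ℕ := fun i v u =>
    Nat.log 8 (max (freeN gr p i v).card (freeN gr p i u).card)
  let Hk : ℕ → I → V → Finset V := fun k i v => (freeN gr p i v).filter (fun u => cls i v u = k)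
  have hmem : ∀ k i v u, u ∈ Hk k i v ↔ u ∈ freeN gr p i v ∧ cls i v u = k := fun k i v u =>
    mem_filter
  have hH : ∀ k, Loc gr (r + 2) (Hk k) := by
    intro k i i' v hA
    ext u
    rw [hmem, hmem, ← hF.here hA (by omega)]
    refine and_congr_right fun h => ?_
    simp only [cls]
    rw [hF.here hA (by omega), hF.adj hA (h7ph_mem.1 h).1 le_rfl]
  have hs : ∀ k, IsSub gr (Hk k) := by
    intro k i v u h
    rw [hmem, h7ph_mem] at h
    refine ⟨h.1.1, (hmem k i u v).2 ⟨h7ph_mem.2 ⟨h.1.1.symm, h.1.2.2, h.1.2.1⟩, ?_⟩⟩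
    rw [← h.2]
    simp only [cls]
    rw [max_comm]
  have hd : ∀ k i v, (Hk k i v).card ≤ 8 ^ (k + 1) := by
    intro k i v
    rcases (Hk k i v).eq_empty_or_nonempty with h | ⟨u, h⟩
    · simp [h]
    · rw [hmem] at h
      have h1 : (Hk k i v).card ≤ (freeN gr p i v).card := card_filter_le _ _
      have h2 := Nat.lt_pow_succ_log_self (b := 8) (by norm_num)
        (max (freeN gr p i v).card (freeN gr p i u).card)
      have h3 : Nat.log 8 (max (freeN gr p i v).card (freeN gr p i u).card) = k := h.2
      rw [h3] at h2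
      have h4 := le_max_left (freeN gr p i v).card (freeN gr p i u).card
      exact h1.trans (h4.trans h2.le)
  have hcls : ∀ i v u, cls i v u < Fintype.card V + 1 := by
    intro i v u
    have h1 := Nat.log_le_self 8 (max (freeN gr p i v).card (freeN gr p i u).card)
    have h2 : max (freeN gr p i v).card (freeN gr p i u).card ≤ Fintype.card V :=
      max_le (card_le_univ _) (card_le_univ _)
    exact Nat.lt_succ_of_le (h1.trans h2)
  choose pk k1 k2 k3 using fun k => hM (r + 2) k (Hk k) (by omega) (hH k) (hs k) (hd k)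
  let Q : I → V → V → Prop := fun i => h7phQ (fun k => pk k i)
  have hQfree : ∀ i v u, Q i v u → (gr i).Adj v u ∧ p i v = none ∧ p i u = none := by
    rintro i v u ⟨k, h, -⟩
    exact h7ph_mem.1 ((hmem k i v u).1 (k2 k i v u h).1).1
  have hQsymm : ∀ i v u, Q i v u → Q i u v := by
    rintro i v u ⟨k, h, h1, h2⟩
    exact ⟨k, (k2 k i v u h).2, h2, h1⟩
  have hQuniq : ∀ i v u u', Q i v u → Q i v u' → u = u' := by
    rintro i v u u' ⟨k, h, h1, -⟩ ⟨k', h', h1', -⟩
    exact (h7ph_uniq (q := fun k => pk k i) h h1 h' h1').2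
  have hQ : Loc gr (r + (w + 3)) Q := by
    have key : ∀ i i' v, Agree (r + (w + 3)) (gr i) (gr i') v → ∀ u, Q i v u → Q i' v u := by
      intro i i' v hA u h
      have hadj := (hQfree i v u h).1
      obtain ⟨k, h0, h1, h2⟩ := h
      refine ⟨k, ?_, fun k' hk' => ?_, fun k' hk' => ?_⟩
      · exact ((k1 k).here hA (by omega)).symm.trans h0
      · exact ((k1 k').here hA (by omega)).symm.trans (h1 k' hk')
      · exact ((k1 k').adj hA hadj (by omega)).symm.trans (h2 k' hk')
    intro i i' v hA
    funext u
    exact propext ⟨key i i' v hA u, key i' i v hA.symm u⟩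
  refine ⟨fun i v => if p i v = none then pick (Q i v) else p i v, ?_, ?_, fun i => ?_⟩
  · intro i i' v hA
    show (if p i v = none then pick (Q i v) else p i v) =
      (if p i' v = none then pick (Q i' v) else p i' v)
    rw [hp.here hA (by omega), hQ i i' v hA]
  · intro i v u h
    simp only at h ⊢
    by_cases c : p i v = none
    · rw [if_pos c] at h
      have h1 := pick_spec h
      refine ⟨(hQfree i v u h1).1, ?_⟩
      rw [if_pos (hQfree i v u h1).2.2]
      exact pick_eq (hQsymm i v u h1) fun x hx => hQuniq i u x v hx (hQsymm i v u h1)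
    · rw [if_neg c] at h
      refine ⟨(hm i v u h).1, ?_⟩
      rw [(hm i v u h).2, if_neg (by simp)]
  · have hc := h7ph_count (fun k => pk k i) (fun v => (freeN gr p i v).card) (Fintype.card V + 1)
      (fun k v u h => (k2 k i v u h).2)
      (fun k v u h => by
        have h1 := (hmem k i v u).1 (k2 k i v u h).1
        have h2 : 0 < (freeN gr p i v).card := card_pos.2 ⟨u, h1.1⟩
        have h3 := Nat.pow_log_le_self 8
          (x := max (freeN gr p i v).card (freeN gr p i u).card) (by omega)
        have h4 : Nat.log 8 (max (freeN gr p i v).card (freeN gr p i u).card) = k := h1.2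
        rw [h4] at h3
        omega)
      (fun k v h => by
        obtain ⟨u, hu⟩ := Option.ne_none_iff_exists'.1 h
        have h1 := (hmem k i v u).1 (k2 k i v u hu).1
        rw [← h1.2]
        exact hcls i v u)
    have h1 : ∑ v, (freeN gr p i v).card =
        ∑ k ∈ range (Fintype.card V + 1), ∑ v, (Hk k i v).card := by
      rw [sum_comm]
      exact sum_congr rfl fun v _ =>
        card_eq_sum_card_fiberwise (f := cls i v) fun u _ => mem_coe.2 (mem_range.2 (hcls i v u))
    have h2 : ∑ k ∈ range (Fintype.card V + 1), ∑ v, (Hk k i v).card ≤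
        49152 * ∑ k ∈ range (Fintype.card V + 1),
          8 ^ k * (univ.filter (fun v => pk k i v ≠ none)).card := by
      rw [mul_sum]
      refine sum_le_sum fun k _ => (k3 k i).trans (le_of_eq ?_)
      ring
    have h3 : ∑ v, (freeN gr (fun i v => if p i v = none then pick (Q i v) else p i v) i v).card +
        ∑ v, (if ∃ u, Q i v u then (freeN gr p i v).card else 0) ≤
        ∑ v, (freeN gr p i v).card := by
      rw [← sum_add_distrib]
      refine sum_le_sum fun v _ => ?_
      have hfree : ∀ x, (if p i x = none then pick (Q i x) else p i x) = none → p i x = none := by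
        intro x hx
        by_contra c
        rw [if_neg c] at hx
        exact c hx
      by_cases c : ∃ u, Q i v u
      · rw [if_pos c]
        obtain ⟨u, hu⟩ := c
        have e : freeN gr (fun i v => if p i v = none then pick (Q i v) else p i v) i v = ∅ := by
          refine eq_empty_of_forall_notMem fun x hx => ?_
          have h4 := (h7ph_mem.1 hx).2.1
          rw [if_pos (hQfree i v u hu).2.1] at h4
          exact pick_ne_none hu h4
        rw [e]
        simp
      · rw [if_neg c, add_zero]
        refine card_le_card fun x hx => ?_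
        rw [h7ph_mem] at hx ⊢
        exact ⟨hx.1, hfree v hx.2.1, hfree x hx.2.2⟩
    have h4 : ∑ v, (if ∃ u, Q i v u then (freeN gr p i v).card else 0) =
        ∑ v, (if ∃ u, h7phQ (fun k => pk k i) v u then (freeN gr p i v).card else 0) := rfl
    norm_num
    omega

end Pool.Agent.P.MP_6f280c_lc
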