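import Pool.Agent.P.MP_6f280c_lc.H7St

namespace Pool.Agent.P.MP_6f280c_lc

open Finset

variable {V I : Type} [Fintype V] [LinearOrder V]

/-- number of pairs with a given first entry -/
def h7sp_deg (F : Finset (V × V)) (v : V) : ℕ := (F.filter (fun a => a.1 = v)).card

theorem h7sp_sum_deg (F : Finset (V × V)) : ∑ v, h7sp_deg F v = F.card :=
  (card_eq_sum_card_fiberwise (f := fun a : V × V => a.1) (s := F) (t := univ)
    (fun _ _ => mem_coe.2 (mem_univ _))).symm

omit [Fintype V] in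
theorem h7sp_deg_insert (F : Finset (V × V)) (a : V × V) (x : V) :
    h7sp_deg (insert a F) x ≤ h7sp_deg F x + if a.1 = x then 1 else 0 := by
  unfold h7sp_deg
  rw [filter_insert]
  split_ifs with h
  · exact card_insert_le _ _
  · exact le_rfl

/-- a symmetric set of pairs has a large symmetric subset with small degrees -/
theorem h7sp_pure (F : Finset (V × V)) (m : ℕ) (hm : 0 < m)
    (hs : ∀ a b, (a, b) ∈ F → (b, a) ∈ F) (hi : ∀ a, (a, a) ∉ F) :
    ∃ F' : Finset (V × V), F' ⊆ F ∧ (∀ a b, (a, b) ∈ F' → (b, a) ∈ F') ∧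
      (∀ v, h7sp_deg F' v ≤ h7sp_deg F v / m + 1) ∧ F.card ≤ (2 * m + 1) * F'.card := by
  classical
  let S : Finset (Finset (V × V)) := F.powerset.filter (fun G =>
    (∀ a b, (a, b) ∈ G → (b, a) ∈ G) ∧ ∀ v, h7sp_deg G v ≤ h7sp_deg F v / m + 1)
  have hne : S.Nonempty := by
    refine ⟨∅, mem_filter.2 ⟨empty_mem_powerset _, fun a b h => absurd h (notMem_empty _),
      fun v => ?_⟩⟩
    simp [h7sp_deg]
  obtain ⟨G, hG, hmax⟩ := exists_max_image S card hne
  obtain ⟨hG1, hG2, hG3⟩ := mem_filter.1 hG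
  rw [mem_powerset] at hG1
  refine ⟨G, hG1, hG2, hG3, ?_⟩
  let sat : V → Prop := fun w => h7sp_deg F w / m + 1 ≤ h7sp_deg G w
  have key : ∀ v u, (v, u) ∈ F → (v, u) ∉ G → sat v ∨ sat u := by
    intro v u h1 h2
    by_contra hc
    rw [not_or] at hc
    obtain ⟨c1, c2⟩ := hc
    have hvu : v ≠ u := fun e => hi v (by rw [← e] at h1; exact h1)
    have hmem : insert (v, u) (insert (u, v) G) ∈ S := by
      refine mem_filter.2 ⟨mem_powerset.2 ?_, ?_, fun x => ?_⟩
      · exact insert_subset h1 (insert_subset (hs _ _ h1) hG1)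
      · intro a b h
        simp only [mem_insert, Prod.mk.injEq] at h ⊢
        rcases h with ⟨e1, e2⟩ | ⟨e1, e2⟩ | h
        · exact Or.inr (Or.inl ⟨e2, e1⟩)
        · exact Or.inl ⟨e2, e1⟩
        · exact Or.inr (Or.inr (hG2 _ _ h))
      · have a1 := h7sp_deg_insert (insert (u, v) G) (v, u) x
        have a2 := h7sp_deg_insert G (u, v) x
        have a3 := hG3 x
        simp only [sat, not_le] at c1 c2
        by_cases e1 : v = x
        · have e2 : ¬ u = x := fun e => hvu (e1.trans e.symm)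
          simp only [e1, e2, if_true, if_false] at a1 a2
          rw [e1] at c1
          simp only [e1]
          omega
        · by_cases e2 : u = x
          · simp only [e1, e2, if_true, if_false] at a1 a2
            rw [e2] at c2
            simp only [e2]
            omega
          · simp only [e1, e2, if_false] at a1 a2
            omega
    have h3 := hmax _ hmem
    have h4 : G ⊂ insert (v, u) (insert (u, v) G) := by
      refine ⟨(subset_insert _ _).trans (subset_insert _ _), fun h => h2 (h (mem_insert_self _ _))⟩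
    exact absurd (card_lt_card h4) (not_lt.2 h3)
  have c1 : (F.filter (fun a => sat a.1)).card ≤ m * G.card := by
    rw [← h7sp_sum_deg (F.filter (fun a => sat a.1)), ← h7sp_sum_deg G, mul_sum]
    refine sum_le_sum fun w _ => ?_
    by_cases hw : sat w
    · have e1 : h7sp_deg (F.filter (fun a => sat a.1)) w ≤ h7sp_deg F w :=
        card_le_card (filter_subset_filter _ (filter_subset _ _))
      have e2 : h7sp_deg F w < m * (h7sp_deg F w / m + 1) := Nat.lt_mul_div_succ _ hm
      have e3 : m * (h7sp_deg F w / m + 1) ≤ m * h7sp_deg G w := Nat.mul_le_mul_left _ hw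
      omega
    · have e1 : h7sp_deg (F.filter (fun a => sat a.1)) w = 0 := by
        unfold h7sp_deg
        rw [card_eq_zero, filter_eq_empty_iff]
        intro a ha e
        exact hw (e ▸ (mem_filter.1 ha).2)
      omega
  have c2 : (F.filter (fun a => sat a.2)).card ≤ (F.filter (fun a => sat a.1)).card := by
    refine card_le_card_of_injOn Prod.swap ?_ (fun a _ b _ e => Prod.swap_injective e)
    intro a ha
    obtain ⟨h1, h2⟩ := mem_filter.1 (mem_coe.1 ha)
    exact mem_coe.2 (mem_filter.2 ⟨hs _ _ h1, h2⟩)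
  have c3 : F ⊆ G ∪ (F.filter (fun a => sat a.1) ∪ F.filter (fun a => sat a.2)) := by
    intro a ha
    by_cases h : a ∈ G
    · exact mem_union_left _ h
    · refine mem_union_right _ ?_
      rcases key a.1 a.2 ha h with h | h
      · exact mem_union_left _ (mem_filter.2 ⟨ha, h⟩)
      · exact mem_union_right _ (mem_filter.2 ⟨ha, h⟩)
  have c4 := card_le_card c3
  have c5 := card_union_le G (F.filter (fun a => sat a.1) ∪ F.filter (fun a => sat a.2))
  have c6 := card_union_le (F.filter (fun a => sat a.1)) (F.filter (fun a => sat a.2))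
  have c7 : (2 * m + 1) * G.card = G.card + m * G.card + m * G.card := by ring
  omega

theorem h7sp_choice (m : ℕ) (hm : 0 < m) : ∃ sp : Finset (V × V) → Finset (V × V),
    ∀ F : Finset (V × V), (∀ a b, (a, b) ∈ F → (b, a) ∈ F) → (∀ a, (a, a) ∉ F) →
      sp F ⊆ F ∧ (∀ a b, (a, b) ∈ sp F → (b, a) ∈ sp F) ∧
      (∀ v, h7sp_deg (sp F) v ≤ h7sp_deg F v / m + 1) ∧ F.card ≤ (2 * m + 1) * (sp F).card := by
  have : ∀ F : Finset (V × V), ∃ F' : Finset (V × V),
      (∀ a b, (a, b) ∈ F → (b, a) ∈ F) → (∀ a, (a, a) ∉ F) →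
      F' ⊆ F ∧ (∀ a b, (a, b) ∈ F' → (b, a) ∈ F') ∧
      (∀ v, h7sp_deg F' v ≤ h7sp_deg F v / m + 1) ∧ F.card ≤ (2 * m + 1) * F'.card := by
    intro F
    by_cases h : (∀ a b, (a, b) ∈ F → (b, a) ∈ F) ∧ ∀ a, (a, a) ∉ F
    · obtain ⟨F', hF⟩ := h7sp_pure F m hm h.1 h.2
      exact ⟨F', fun _ _ => hF⟩
    · exact ⟨∅, fun h1 h2 => absurd ⟨h1, h2⟩ h⟩
  choose sp hsp using this
  exact ⟨sp, hsp⟩

theorem h7sp_sum_card (G : V → Finset V) :
    ∑ v, (G v).card = (univ.filter (fun a : V × V => a.2 ∈ G a.1)).card := by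
  rw [← h7sp_sum_deg]
  refine sum_congr rfl fun v _ => ?_
  unfold h7sp_deg
  refine card_bij (fun u _ => (v, u)) ?_ ?_ ?_
  · intro u hu
    simpa using hu
  · intro u _ u' _ e
    exact (Prod.mk.inj e).2
  · rintro ⟨a, b⟩ h
    simp only [mem_filter, mem_univ, true_and] at h
    obtain ⟨h1, h2⟩ := h
    subst h2
    exact ⟨b, h1, rfl⟩

theorem sparse_st (gr : I → SimpleGraph V) : SparseSt gr := by
  intro r R d m lab H hP hH hs hm
  obtain ⟨l1, l2, l3⟩ := hP
  obtain ⟨sp, hsp⟩ := h7sp_choice (V := V) m hm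
  let Fz : I → V → Finset (V × V) := fun i z =>
    univ.filter (fun a => a.2 ∈ H i a.1 ∧ lab i a.1 a.2 = z)
  have mF : ∀ i z u v, (u, v) ∈ Fz i z ↔ v ∈ H i u ∧ lab i u v = z := by
    intro i z u v
    simp [Fz]
  have locF : Loc gr (r + R) Fz := by
    intro i i' z hA
    ext ⟨u, v⟩
    rw [mF, mF]
    constructor
    · rintro ⟨h1, h2⟩
      have hn : Near (gr i) R z u := (h2 ▸ (l2 i u v (hs i u v h1).1).2).symm
      rw [← hH.far hA hn le_rfl, ← l1.far hA hn le_rfl]
      exact ⟨h1, h2⟩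
    · rintro ⟨h1, h2⟩
      have hn : Near (gr i') R z u := (h2 ▸ (l2 i' u v (hs i' u v h1).1).2).symm
      rw [hH.far' hA hn le_rfl, l1.far' hA hn le_rfl]
      exact ⟨h1, h2⟩
  have hF : ∀ i z, sp (Fz i z) ⊆ Fz i z ∧ (∀ a b, (a, b) ∈ sp (Fz i z) → (b, a) ∈ sp (Fz i z)) ∧
      (∀ v, h7sp_deg (sp (Fz i z)) v ≤ h7sp_deg (Fz i z) v / m + 1) ∧
      (Fz i z).card ≤ (2 * m + 1) * (sp (Fz i z)).card := by
    intro i z
    refine hsp _ (fun a b h => ?_) (fun a h => ?_)
    · rw [mF] at h ⊢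
      exact ⟨(hs i a b h.1).2, (l2 i a b (hs i a b h.1).1).1 ▸ h.2⟩
    · rw [mF] at h
      exact (hs i a a h.1).1.ne rfl
  let H' : I → V → Finset V := fun i u =>
    (H i u).filter (fun v => (u, v) ∈ sp (Fz i (lab i u v)))
  have mH : ∀ i u v, v ∈ H' i u ↔ v ∈ H i u ∧ (u, v) ∈ sp (Fz i (lab i u v)) := by
    intro i u v
    simp [H']
  refine ⟨H', ?_, ?_, fun i v => filter_subset _ _, ?_, ?_⟩
  · intro i i' u hA
    have e1 : H i u = H i' u := hH.here hA (by omega)
    have e2 : lab i u = lab i' u := l1.here hA (by omega)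
    ext v
    rw [mH, mH, ← e1, ← e2]
    refine and_congr_right fun h => ?_
    rw [locF.far hA (l2 i u v (hs i u v h).1).2 (by omega)]
  · intro i v u h
    rw [mH] at h
    refine ⟨(hs i v u h.1).1, (mH i u v).2 ⟨(hs i v u h.1).2, ?_⟩⟩
    rw [← (l2 i v u (hs i v u h.1).1).1]
    exact (hF i _).2.1 _ _ h.2
  · intro i u
    let L := (nbr gr i u).image (lab i u)
    have a1 : (H' i u).card = ∑ z ∈ L, ((H' i u).filter (fun v => lab i u v = z)).card :=
      card_eq_sum_card_fiberwise fun v hv => mem_coe.2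
        (mem_image_of_mem _ (mem_nbr.2 (hs i u v ((mH i u v).1 (mem_coe.1 hv)).1).1))
    have a2 : (H i u).card = ∑ z ∈ L, ((H i u).filter (fun v => lab i u v = z)).card :=
      card_eq_sum_card_fiberwise fun v hv => mem_coe.2
        (mem_image_of_mem _ (mem_nbr.2 (hs i u v (mem_coe.1 hv)).1))
    have a3 : ∀ z, ((H' i u).filter (fun v => lab i u v = z)).card ≤ h7sp_deg (sp (Fz i z)) u := by
      intro z
      refine card_le_card_of_injOn (fun v => (u, v)) ?_ (fun a _ b _ e => (Prod.mk.inj e).2)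
      intro v hv
      obtain ⟨h1, h2⟩ := mem_filter.1 (mem_coe.1 hv)
      refine mem_coe.2 (mem_filter.2 ⟨?_, rfl⟩)
      rw [← h2]
      exact ((mH i u v).1 h1).2
    have a4 : ∀ z, h7sp_deg (Fz i z) u ≤ ((H i u).filter (fun v => lab i u v = z)).card := by
      intro z
      refine card_le_card_of_injOn (fun a => a.2) ?_ ?_
      · rintro ⟨a, b⟩ h
        obtain ⟨h1, h2⟩ := mem_filter.1 (mem_coe.1 h)
        have h3 : a = u := h2
        subst h3
        exact mem_coe.2 (mem_filter.2 ((mF i z a b).1 h1))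
      · rintro ⟨a, b⟩ h ⟨a', b'⟩ h' e
        have h3 : a = u := (mem_filter.1 (mem_coe.1 h)).2
        have h4 : a' = u := (mem_filter.1 (mem_coe.1 h')).2
        exact Prod.ext (h3.trans h4.symm) e
    have a5 : ∑ z ∈ L, ((H i u).filter (fun v => lab i u v = z)).card / m ≤ (H i u).card / m := by
      rw [Nat.le_div_iff_mul_le hm, a2, sum_mul]
      exact sum_le_sum fun z _ => Nat.div_mul_le_self _ _
    have a6 : (H' i u).card ≤
        ∑ z ∈ L, (((H i u).filter (fun v => lab i u v = z)).card / m + 1) := by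
      rw [a1]
      refine sum_le_sum fun z _ => (a3 z).trans (((hF i z).2.2.1 u).trans ?_)
      exact Nat.add_le_add_right (Nat.div_le_div_right (a4 z)) 1
    rw [sum_add_distrib, sum_const, smul_eq_mul, mul_one] at a6
    have a7 : L.card ≤ d := l3 i u
    omega
  · intro i
    rw [h7sp_sum_card, h7sp_sum_card,
      card_eq_sum_card_fiberwise (f := fun a : V × V => lab i a.1 a.2) (t := univ)
        (fun _ _ => mem_coe.2 (mem_univ _)),
      card_eq_sum_card_fiberwise (f := fun a : V × V => lab i a.1 a.2) (t := univ)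
        (s := univ.filter (fun a : V × V => a.2 ∈ H' i a.1))
        (fun _ _ => mem_coe.2 (mem_univ _)), mul_sum]
    refine sum_le_sum fun z _ => ?_
    have b1 : (univ.filter (fun a : V × V => a.2 ∈ H i a.1)).filter
        (fun a => lab i a.1 a.2 = z) = Fz i z := by
      ext ⟨a, b⟩
      simp [Fz]
    have b2 : sp (Fz i z) ⊆ (univ.filter (fun a : V × V => a.2 ∈ H' i a.1)).filter
        (fun a => lab i a.1 a.2 = z) := by
      rintro ⟨a, b⟩ h
      obtain ⟨h1, h2⟩ := (mF i z a b).1 ((hF i z).1 h)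
      refine mem_filter.2 ⟨mem_filter.2 ⟨mem_univ _, (mH i a b).2 ⟨h1, ?_⟩⟩, h2⟩
      rw [h2]
      exact h
    rw [b1]
    exact (hF i z).2.2.2.trans (Nat.mul_le_mul_left _ (card_le_card b2))

end Pool.Agent.P.MP_6f280c_lc
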