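import Pool.Agent.P.MP_6f280c_lc.H7Time
import Pool.Agent.P.MP_6f280c_lc.H7Adv
import Pool.Agent.P.MP_6f280c_lc.H7Cls
import Pool.Agent.P.MP_6f280c_lc.H7Phase
import Pool.Agent.P.MP_6f280c_lc.H7Sparse
import Pool.Agent.P.MP_6f280c_lc.H7Defect
import Pool.Agent.P.MP_6f280c_lc.H7Class

namespace Pool.Agent.P.MP_6f280c_lc

theorem main85 : ∃ C : ℝ, ∀ N : ℕ, 16 ≤ N →
    ∃ (T : ℕ) (A : SimpleGraph (Fin N) → Fin N → Option (Fin N)),
      (T : ℝ) ≤ C * Real.log N ^ (8 / 5 : ℝ) * Real.log (Real.log N) ^ 2 ∧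
      (∀ (G G' : SimpleGraph (Fin N)) (v : Fin N), SameView T G G' v → A G v = A G' v) ∧
      ∀ G : SimpleGraph (Fin N), IsMaximalMatching G (A G) := by
  refine ⟨10 ^ 20, fun N hN => ?_⟩
  obtain ⟨L, s, k, h1, h2, h3, h4, h5, h6, h7⟩ := h7t_time hN
  obtain ⟨p, p1, p2⟩ := h7t_loc (I := SimpleGraph (Fin N)) id (defect_st _) (class_st _)
    (pieces_st _ (adv_st _)) (sparse_st _) (phase_st _) h1 h2 h3 h4 h5 h6
  exact ⟨_, p, h7, fun G G' v hv => p1 G G' v (agree_of_sameView hv), p2⟩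

end Pool.Agent.P.MP_6f280c_lc
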