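import Pool.Agent.P.MP_6f280c_lc.H7St

namespace Pool.Agent.P.MP_6f280c_lc

open Finset

variable {V I : Type} [Fintype V] [LinearOrder V] {gr : I → SimpleGraph V}

omit [Fintype V] in
theorem h7r_recolor {r d t b : ℕ} {H : I → V → Finset V} {c : I → V → V → ℕ} (hH : Loc gr r H)
    (hs : IsSub gr H) (hd : ∀ i v, (H i v).card ≤ d) (hc : Loc gr r c)
    (h : IsCol H c (2 ^ b)) (hb : 1 ≤ b) (hbt : 2 * b ≤ 2 ^ (3 + t)) :
    ∃ c', Loc gr (r + t + 3) c' ∧ IsCol H c' (d * d * 8) := by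
  obtain ⟨k, k1, k2, k3⟩ := exists_cls hH hs hd
  have h0 : PathCol H k c (2 ^ b) := by
    refine ⟨fun i v u h1 => (h.1 i v u h1).2, fun i v u w h1 h2 h3 h4 _ e => ?_⟩
    rw [(h.1 i v u h1).1] at e
    exact (h3.trans h4).ne (h.2 i u v w (hs i v u h1).2 h2 e)
  obtain ⟨f0, g1, g2⟩ := cv_step (hH.mono (Nat.le_succ r)) hs k1 (hc.mono (Nat.le_succ r)) k3 hb h0
  have g3 : PathCol H k f0 (2 ^ (3 + t)) :=
    ⟨fun i v u h1 => (g2.1 i v u h1).trans_le hbt, g2.2⟩
  obtain ⟨f, f1, f2⟩ := cv_iter hs k3 t (hH.mono (by omega)) (k1.mono (by omega)) g1 g3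
  refine ⟨fun i v u => if u ∈ H i v then k i v u * 8 + (if v < u then f i v u else f i u v) else 0,
    ?_, ?_, ?_⟩
  · intro i i' v hA
    funext u
    show (if u ∈ H i v then _ else _) = (if u ∈ H i' v then _ else _)
    rw [← hH.here hA (by omega), ← k1.here hA (by omega), ← f1.here hA (by omega)]
    by_cases h1 : u ∈ H i v
    · rw [if_pos h1, if_pos h1, ← f1.adj hA (hs i v u h1).1 (by omega)]
    · rw [if_neg h1, if_neg h1]
  · intro i v u h1
    have hv := (hs i v u h1).2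
    have a1 := f2.1 i v u h1
    have a2 := f2.1 i u v hv
    have a3 := k2 i v u h1
    simp only [if_pos h1, if_pos hv]
    rcases lt_trichotomy v u with e | e | e
    · rw [if_pos e, if_neg (not_lt.2 e.le)]
      omega
    · exact absurd e (hs i v u h1).1.ne
    · rw [if_pos e, if_neg (not_lt.2 e.le)]
      omega
  · intro i v u u' h1 h2 e
    simp only [if_pos h1, if_pos h2] at e
    have hv := (hs i v u h1).2
    have hv' := (hs i v u' h2).2
    have a1 := f2.1 i v u h1
    have a2 := f2.1 i u v hv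
    have a3 := f2.1 i v u' h2
    have a4 := f2.1 i u' v hv'
    by_cases c1 : v < u <;> by_cases c2 : v < u'
    · rw [if_pos c1, if_pos c2] at e
      exact k3 i v u u' h1 h2 ⟨fun _ => c2, fun _ => c1⟩ (by omega)
    · rw [if_pos c1, if_neg c2] at e
      have hlt : u' < v := lt_of_le_of_ne (not_lt.1 c2) (hs i v u' h2).1.ne'
      have := f2.2 i u' v u hv' h1 hlt c1 (by rw [← (k2 i v u' h2).1]; omega)
      omega
    · rw [if_neg c1, if_pos c2] at e
      have hlt : u < v := lt_of_le_of_ne (not_lt.1 c1) (hs i v u h1).1.ne'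
      have := f2.2 i u v u' hv h2 hlt c2 (by rw [← (k2 i v u h1).1]; omega)
      omega
    · rw [if_neg c1, if_neg c2] at e
      exact k3 i v u u' h1 h2 ⟨fun h => absurd h c1, fun h => absurd h c2⟩ (by omega)

omit [Fintype V] in
theorem h7r_greedy {r K0 : ℕ} {H : I → V → Finset V} {c : I → V → V → ℕ}
    (hH : Loc gr r H) (hs : IsSub gr H) (hc : Loc gr r c) (h : IsCol H c K0) (K : ℕ) :
    ∃ p' : I → V → Option V, Loc gr (r + K) p' ∧
      (∀ i v u, p' i v = some u → u ∈ H i v ∧ p' i u = some v) ∧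
      ∀ i v u, u ∈ H i v → c i v u < K → p' i v ≠ none ∨ p' i u ≠ none := by
  induction K with
  | zero =>
    exact ⟨fun _ _ => none, fun _ _ _ _ => rfl, fun _ _ _ h => absurd h (by simp),
      fun _ _ _ _ h => absurd h (by omega)⟩
  | succ K ih =>
    obtain ⟨q, a1, a2, a4⟩ := ih
    set q' : I → V → Option V := fun i v => if q i v = none then
      pick (fun u => u ∈ H i v ∧ c i v u = K ∧ q i u = none) else q i v with hq'
    have ext : ∀ i v u, q i v = some u → q' i v = some u := by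
      intro i v u e
      simp only [hq']
      rw [if_neg (by rw [e]; simp), e]
    have ext' : ∀ i v, q i v ≠ none → q' i v ≠ none := by
      intro i v e
      simp only [hq']
      rwa [if_neg e]
    refine ⟨q', ?_, ?_, ?_⟩
    · intro i i' v hA
      simp only [hq']
      rw [← hH.here hA (by omega), ← hc.here hA (by omega), ← a1.here hA (by omega)]
      congr 2
      funext u
      by_cases h1 : u ∈ H i v
      · rw [a1.adj hA (hs i v u h1).1 (by omega)]
      · simp only [h1, false_and]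
    · intro i v u e
      by_cases h1 : q i v = none
      · simp only [hq'] at e
        rw [if_pos h1] at e
        obtain ⟨b1, b2, b3⟩ := pick_spec e
        refine ⟨b1, ?_⟩
        simp only [hq']
        rw [if_pos b3]
        refine pick_eq ⟨(hs i v u b1).2, by rw [← (h.1 i v u b1).1, b2], h1⟩ fun w hw => ?_
        exact h.2 i u w v hw.1 (hs i v u b1).2 (by rw [hw.2.1, ← (h.1 i v u b1).1, b2])
      · simp only [hq'] at e
        rw [if_neg h1] at e
        exact ⟨(a2 i v u e).1, ext i u v (a2 i v u e).2⟩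
    · intro i v u h1 h2
      by_cases c1 : q i v = none
      · by_cases c2 : q i u = none
        · rcases Nat.lt_succ_iff_lt_or_eq.1 h2 with h3 | h3
          · rcases a4 i v u h1 h3 with e | e
            · exact absurd c1 e
            · exact absurd c2 e
          · left
            simp only [hq']
            rw [if_pos c1]
            exact pick_ne_none (u := u) ⟨h1, h3, c2⟩
        · exact Or.inr (ext' i u c2)
      · exact Or.inl (ext' i v c1)

theorem round_st (gr : I → SimpleGraph V) : RoundSt gr := by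
  classical
  intro T m t r b ε H0 c hS hε hm hH0 hs0 hdeg hc hcol hb hbt
  have hq : (0 : ℝ) < 1 / 2 ^ (m + 8) := by positivity
  have hq1 : (2 : ℝ) ^ m * (1 / 2 ^ (m + 8)) = 1 / 256 := by
    rw [pow_add]
    field_simp
    norm_num
  let x : I → V → V → ℝ := fun i v u => if u ∈ H0 i v then 1 / 2 ^ (m + 8) else 0
  have a1 : Loc gr r x := hH0.map (fun _ s u => if u ∈ s then (1 : ℝ) / 2 ^ (m + 8) else 0)
  have a2 : ∀ i v u, x i v u = x i u v := by
    intro i v u
    by_cases h : u ∈ H0 i v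
    · simp only [x, if_pos h, if_pos (hs0 i v u h).2]
    · have h' : ¬ v ∈ H0 i u := fun h' => h (hs0 i u v h').2
      simp only [x, if_neg h, if_neg h']
  have a3 : ∀ i v u, x i v u ≠ 0 → u ∈ H0 i v := by
    intro i v u h
    by_contra hc
    exact h (if_neg hc)
  have a4 : Gran (1 / 2 ^ (m + 8)) x := by
    intro i v u
    by_cases h : u ∈ H0 i v
    · exact Or.inr ⟨0, by simp only [x, if_pos h]; ring⟩
    · exact Or.inl (if_neg h)
  have a6 : ∀ i v, ∑ u, x i v u = ((H0 i v).card : ℝ) * (1 / 2 ^ (m + 8)) := by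
    intro i v
    simp only [x]
    rw [Finset.sum_ite_mem, Finset.univ_inter, Finset.sum_const, nsmul_eq_mul]
  have a5 : ∀ i v, ∑ u, x i v u ≤ 1 / 16 := by
    intro i v
    have h1 : ((H0 i v).card : ℝ) ≤ 2 ^ m := by exact_mod_cast hdeg i v
    have h2 := mul_le_mul_of_nonneg_right h1 hq.le
    rw [a6]
    linarith
  obtain ⟨z, b1, b2, b3, b4, b5⟩ := round_all hS hε (by norm_num) 1 2 (by norm_num) m a1 a2
    (fun i v u h => (hs0 i v u (a3 i v u h)).1) hq a4
  rw [hq1] at b4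
  have hxn := a4.nonneg hq
  have hzn := b4.nonneg (by norm_num)
  have hz : ∀ i v u, z i v u ≠ 0 → u ∈ H0 i v := fun i v u h => a3 i v u (b3 i v u h)
  let H : I → V → Finset V := fun i v =>
    univ.filter (fun u => z i v u ≠ 0 ∧ ∑ w, z i v w ≤ 1 ∧ ∑ w, z i u w ≤ 1)
  have hmem : ∀ i v u, u ∈ H i v ↔ z i v u ≠ 0 ∧ ∑ w, z i v w ≤ 1 ∧ ∑ w, z i u w ≤ 1 := by
    simp [H]
  have hH : Loc gr (r + m * T + 1) H := by
    intro i i' v hA
    ext u
    rw [hmem, hmem, ← b1.here hA (by omega)]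
    by_cases h : z i v u = 0
    · simp [h]
    · rw [← b1.adj hA (hs0 i v u (hz i v u h)).1 le_rfl]
  have hs : IsSub gr H := by
    intro i v u h
    rw [hmem] at h
    refine ⟨(hs0 i v u (hz i v u h.1)).1, (hmem i u v).2 ⟨?_, h.2.2, h.2.1⟩⟩
    rw [← b2]
    exact h.1
  have hd : ∀ i v, (H i v).card ≤ 256 := by
    intro i v
    rcases (H i v).eq_empty_or_nonempty with h | ⟨u0, h⟩
    · simp [h]
    · have h1 : ∑ u ∈ H i v, (1 / 256 : ℝ) ≤ ∑ u ∈ H i v, z i v u :=
        Finset.sum_le_sum fun u hu => by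
          rcases b4 i v u with e | ⟨k, e⟩
          · exact absurd e ((hmem i v u).1 hu).1
          · rw [e]
            have : (1 : ℝ) ≤ 2 ^ k := one_le_pow₀ (by norm_num)
            linarith
      have h2 : ∑ u ∈ H i v, z i v u ≤ ∑ u, z i v u :=
        Finset.sum_le_sum_of_subset_of_nonneg (Finset.subset_univ _) (fun u _ _ => hzn i v u)
      have h3 := ((hmem i v u0).1 h).2.1
      rw [Finset.sum_const, nsmul_eq_mul] at h1
      have h4 : ((H i v).card : ℝ) ≤ 256 := by linarith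
      exact_mod_cast h4
  have hcol' : IsCol H c (2 ^ b) :=
    ⟨fun i v u h => hcol.1 i v u (mem_nbr.2 (hs i v u h).1), fun i v u u' h h' =>
      hcol.2 i v u u' (mem_nbr.2 (hs i v u h).1) (mem_nbr.2 (hs i v u' h').1)⟩
  obtain ⟨c', c1, c2⟩ := h7r_recolor hH hs hd (hc.mono (by omega)) hcol' hb hbt
  obtain ⟨p', d1, d2, d4⟩ := h7r_greedy (hH.mono (by omega)) hs c1 c2 (256 * 256 * 8)
  refine ⟨p', d1.mono (by omega), fun i v u e =>
    ⟨hz i v u ((hmem i v u).1 (d2 i v u e).1).1, (d2 i v u e).2⟩, fun i => ?_⟩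
  have y0 : ∀ v, 0 ≤ ∑ w, x i v w := fun v => Finset.sum_nonneg fun w _ => hxn i v w
  have z0 : ∀ v, 0 ≤ ∑ w, z i v w := fun v => Finset.sum_nonneg fun w _ => hzn i v w
  have e2 : ∑ v, (∑ w, x i v w) ^ 2 ≤ 1 / 16 * ∑ v, ∑ w, x i v w := by
    rw [Finset.mul_sum]
    exact Finset.sum_le_sum fun v _ => by nlinarith [y0 v, a5 i v]
  have e3 := one_add_pow_le hε hm
  have e4 : 0 ≤ ∑ v, ∑ w, x i v w := Finset.sum_nonneg fun v _ => y0 v
  have e5 : 0 ≤ ∑ v, (∑ w, x i v w) ^ 2 := Finset.sum_nonneg fun v _ => sq_nonneg _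
  have e6 : 1 / 2 * ∑ v, ∑ w, x i v w ≤ ∑ v, ∑ w, z i v w - 2 * ∑ v, (∑ w, z i v w) ^ 2 := by
    have f1 := b5 i
    have f2 : ((2 : ℝ) ^ m - 1) * (1 / 2 ^ (m + 8)) ≤ 1 / 256 := by
      rw [sub_mul, hq1]
      linarith
    have f3 : (0 : ℝ) ≤ (2 ^ m - 1) * (1 / 2 ^ (m + 8)) := by
      have : (1 : ℝ) ≤ 2 ^ m := one_le_pow₀ (by norm_num)
      have : (0 : ℝ) ≤ 2 ^ m - 1 := by linarith
      positivity
    have f4 : (1 + ε) ^ m * ((2 ^ m - 1) * (1 / 2 ^ (m + 8))) ≤ 2 * (1 / 256) :=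
      mul_le_mul e3 f2 f3 (by norm_num)
    have f5 := mul_le_mul_of_nonneg_right f4 e4
    have f6 := mul_le_mul_of_nonneg_right e3 e5
    nlinarith
  let A : V → ℝ := fun v => if 1 < ∑ w, z i v w ∨ p' i v ≠ none then 1 else 0
  have e7 : ∑ v, ∑ u, z i v u ≤ ∑ v, ∑ u, (A v * z i v u + A u * z i u v) := by
    refine Finset.sum_le_sum fun v _ => Finset.sum_le_sum fun u _ => ?_
    have A0 : ∀ w, 0 ≤ A w := fun w => by
      simp only [A]
      split_ifs <;> norm_num
    rw [← b2 i v u]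
    by_cases h : z i v u = 0
    · simp [h]
    · have hA : A v = 1 ∨ A u = 1 := by
        by_cases c1 : 1 < ∑ w, z i v w
        · exact Or.inl (if_pos (Or.inl c1))
        · by_cases c3 : 1 < ∑ w, z i u w
          · exact Or.inr (if_pos (Or.inl c3))
          · have hu : u ∈ H i v := (hmem i v u).2 ⟨h, not_lt.1 c1, not_lt.1 c3⟩
            rcases d4 i v u hu (c2.1 i v u hu).2 with e | e
            · exact Or.inl (if_pos (Or.inr e))
            · exact Or.inr (if_pos (Or.inr e))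
      rcases hA with e | e <;> rw [e] <;> nlinarith [A0 v, A0 u, hzn i v u]
  have e8 : ∑ v, ∑ u, (A v * z i v u + A u * z i u v) = 2 * ∑ v, A v * ∑ u, z i v u := by
    simp only [Finset.sum_add_distrib]
    rw [Finset.sum_comm (f := fun v u => A u * z i u v)]
    simp only [← Finset.mul_sum]
    ring
  have e9 : ∑ v, A v * ∑ u, z i v u ≤
      ((univ.filter (fun v => p' i v ≠ none)).card : ℝ) + ∑ v, (∑ w, z i v w) ^ 2 := by
    have : ((univ.filter (fun v => p' i v ≠ none)).card : ℝ) =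
        ∑ v, if p' i v ≠ none then (1 : ℝ) else 0 := by
      rw [Finset.card_filter]
      push_cast
      rfl
    rw [this, ← Finset.sum_add_distrib]
    refine Finset.sum_le_sum fun v _ => ?_
    simp only [A]
    by_cases c1 : 1 < ∑ w, z i v w
    · rw [if_pos (Or.inl c1)]
      split_ifs <;> nlinarith
    · by_cases c3 : p' i v ≠ none
      · rw [if_pos (Or.inr c3), if_pos c3]
        nlinarith [not_lt.1 c1]
      · rw [if_neg (by tauto), if_neg c3]
        nlinarith
  have e10 : ∑ v, ∑ w, x i v w ≤ 4 * ((univ.filter (fun v => p' i v ≠ none)).card : ℝ) := by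
    linarith
  simp only [a6] at e10
  rw [← Finset.sum_mul] at e10
  have e11 : ∑ v, ((H0 i v).card : ℝ) ≤
      2 ^ (m + 10) * ((univ.filter (fun v => p' i v ≠ none)).card : ℝ) := by
    have h2 : (0 : ℝ) < 2 ^ (m + 8) := by positivity
    rw [mul_one_div, div_le_iff₀ h2] at e10
    have e : (2 : ℝ) ^ (m + 10) = 4 * 2 ^ (m + 8) := by ring
    rw [e]
    linarith
  exact_mod_cast e11

theorem match_of (gr : I → SimpleGraph V) (hSp : SparseSt gr) {r0 R d g T t b : ℕ} {ε : ℝ}
    {lab : I → V → V → V} (hP : Pieces gr r0 R d lab) (hd : d ≤ 2 ^ g) (hS : SplitProp gr T ε 9)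
    (hε : 0 ≤ ε) (hm : ε * (g + 1 : ℕ) ≤ 1 / 2) {c : I → V → V → ℕ} (hc : Loc gr r0 c)
    (hcol : IsCol (nbr gr) c (2 ^ b)) (hb : 1 ≤ b) (hbt : 2 * b ≤ 2 ^ (3 + t)) :
    MatchProp gr r0 (2 * R + ((g + 1) * T + t + 524300)) := by
  intro r k H hr hH hs hdeg
  have e8 : 8 ^ (k + 1) = 2 ^ (3 * k + 3) := by
    rw [show (8 : ℕ) = 2 ^ 3 by norm_num, ← pow_mul]
    ring_nf
  obtain ⟨H', a1, a2, a3, a4, a5⟩ := hSp r R d (2 ^ (3 * k + 3 - g)) lab H
    ⟨hP.1.mono hr, hP.2⟩ hH hs (by positivity)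
  have hmin : min (3 * k + 3) g + 1 ≤ g + 1 := by omega
  have hd' : ∀ i v, (H' i v).card ≤ 2 ^ (min (3 * k + 3) g + 1) := by
    intro i v
    rcases le_total (3 * k + 3) g with h | h
    · rw [min_eq_left h, pow_succ]
      have := (Finset.card_le_card (a3 i v)).trans (hdeg i v)
      omega
    · rw [min_eq_right h, pow_succ]
      have h1 : (H i v).card / 2 ^ (3 * k + 3 - g) ≤ 2 ^ g := by
        apply Nat.div_le_of_le_mul
        rw [← pow_add, Nat.sub_add_cancel h, ← e8]
        exact hdeg i v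
      have := a4 i v
      omega
  obtain ⟨p, b1, b2, b3⟩ := round_st gr T (min (3 * k + 3) g + 1) t (r + 2 * R) b ε H' c hS hε
    (le_trans (mul_le_mul_of_nonneg_left (by exact_mod_cast hmin) hε) hm) a1 a2 hd'
    (hc.mono (by omega)) hcol hb hbt
  refine ⟨p, b1.mono ?_, fun i v u e => ⟨a3 i v (b2 i v u e).1, (b2 i v u e).2⟩, fun i => ?_⟩
  · have := Nat.mul_le_mul_right T hmin
    omega
  · refine (a5 i).trans ((Nat.mul_le_mul_left _ (b3 i)).trans ?_)
    rw [← mul_assoc]
    refine Nat.mul_le_mul_right _ ?_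
    have h1 : 2 ^ (3 * k + 3 - g) * 2 ^ (min (3 * k + 3) g) = 8 ^ (k + 1) := by
      rw [← pow_add, e8]
      congr 1
      omega
    have h2 : 1 ≤ 2 ^ (3 * k + 3 - g) := Nat.one_le_two_pow
    have h3 : 2 ^ (min (3 * k + 3) g + 1 + 10) = 2048 * 2 ^ (min (3 * k + 3) g) := by ring
    rw [h3, ← h1]
    generalize 2 ^ (3 * k + 3 - g) = A at *
    generalize 2 ^ (min (3 * k + 3) g) = B
    nlinarith [Nat.mul_le_mul_right B h2]

end Pool.Agent.P.MP_6f280c_lc
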