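import Pool.Agent.P.MP_6f280c_lc.H7Loc

namespace Pool.Agent.P.MP_6f280c_lc

open Finset

variable {V I : Type} [Fintype V] [LinearOrder V]

/-- a family of functions with few agreements -/
def CodeSt : Prop :=
  ∀ p k : ℕ, p.Prime → ∃ f : ℕ → ℕ → ℕ, (∀ a x, f a x < p) ∧
    ∀ a b, a < p ^ (k + 1) → b < p ^ (k + 1) → a ≠ b →
      ((range p).filter (fun x => f a x = f b x)).card ≤ k

/-- number of ordered pairs of equal colour inside the sets -/
def monoPairs (X : V → V → Finset V) (c : V → ℕ) : ℕ :=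
  ∑ u, ∑ v, ((X u v ×ˢ X u v).filter (fun a => c a.1 = c a.2)).card

/-- one step of weighted defective colouring -/
def DefectSt (gr : I → SimpleGraph V) : Prop :=
  ∀ (r R p k : ℕ) (X : I → V → V → Finset V) (c : I → V → ℕ), p.Prime → Loc gr r X →
    (∀ i u v z, z ∈ X i u v → Near (gr i) R u z) → Loc gr r c → (∀ i z, c i z < p ^ (k + 1)) →
    ∃ c' : I → V → ℕ, Loc gr (r + 2 * R) c' ∧ (∀ i z, c' i z < p ^ 2) ∧
      ∀ i, p * monoPairs (X i) (c' i) ≤
        p * monoPairs (X i) (c i) + k * ∑ u, ∑ v, (X i u v).card ^ 2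

/-- rounding of the value `1 / 16`, one colour class after the other -/
def ClassSt (gr : I → SimpleGraph V) : Prop :=
  ∀ (r R q : ℕ) (X : I → V → V → Finset V) (c : I → V → ℕ) (a b : ℝ), Loc gr r X →
    (∀ i u v z, z ∈ X i u v → Near (gr i) R u z) → Loc gr r c → (∀ i z, c i z < q) →
    0 ≤ a → 0 ≤ b →
    ∃ S : I → V → Bool, Loc gr (r + (2 * q + 1) * R) S ∧
      ∀ (i : I) (U : Finset V), (∀ u v, X i u v ⊆ U) →
        a * ((univ.filter (fun z => S i z = true)).card : ℝ) +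
          b * ∑ u, ∑ v, ((((X i u v).filter (fun z => S i z = true)).card : ℝ) -
            ((X i u v).card : ℝ) / 16) ^ 2 ≤
        a * (U.card : ℝ) / 16 + b * (monoPairs (X i) (c i) : ℝ)

/-- the basic hitting step, in `τ` virtual rounds -/
def HitProp (gr : I → SimpleGraph V) (τ : ℕ) : Prop :=
  ∀ (r R s : ℕ) (X : I → V → V → Finset V) (a b : ℝ), Loc gr r X →
    (∀ i u v z, z ∈ X i u v → Near (gr i) R u z) → 0 < s →
    (∀ i u v, X i u v ≠ ∅ → (X i u v).card = 2 ^ 14 * s) → 0 ≤ a → 0 ≤ b →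
    ∃ S : I → V → Bool, Loc gr (r + τ * R) S ∧
      ∀ (i : I) (U : Finset V), (∀ u v, X i u v ⊆ U) →
        a * ((univ.filter (fun z => S i z = true)).card : ℝ) +
          b * ∑ u, ∑ v, (if X i u v ≠ ∅ ∧
            ((X i u v).filter (fun z => S i z = true)).card < s then (1 : ℝ) else 0) ≤
        (a * (U.card : ℝ) + b * ∑ u, ∑ v, (if X i u v ≠ ∅ then (1 : ℝ) else 0)) / 16

/-- state of the clustering process -/
structure CS (gr : I → SimpleGraph V) (r Λ P σ μ : ℕ) where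
  ptr : I → V → V → ℕ
  X : I → V → V → Finset V
  lab : I → V → V → V
  locP : Loc gr r ptr
  locX : Loc gr r X
  locL : Loc gr r lab
  symP : ∀ i u v, ptr i u v = ptr i v u
  symX : ∀ i u v, X i u v = X i v u
  symL : ∀ i u v, (gr i).Adj u v → X i u v = ∅ → lab i u v = lab i v u
  adj : ∀ i u v, X i u v ≠ ∅ → (gr i).Adj u v
  lt : ∀ i u v, X i u v ≠ ∅ → ptr i u v < P
  size : ∀ i u v, X i u v ≠ ∅ →
    ((X i u v).card = (2 ^ 14) ^ (Λ - ptr i u v % Λ) ∧
      ∀ z ∈ X i u v, Near (gr i) (ptr i u v / Λ + 2) u z) ∨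
    (ptr i u v % Λ = 0 ∧ (X i u v).card = 1 ∧
      ∀ z ∈ X i u v, Near (gr i) (ptr i u v / Λ + 1) u z)
  nearL : ∀ i u v, (gr i).Adj u v → X i u v = ∅ → Near (gr i) (P / Λ + 2) u (lab i u v)
  mult : ∀ i u, (((nbr gr i u).filter (fun v => X i u v = ∅)).image (lab i u)).card ≤ μ
  pot : ∀ i, ∃ Q : ℕ → Finset V, (∀ u v, X i u v ⊆ Q (ptr i u v)) ∧
    ∑ p ∈ range (P + 1), (16 : ℝ) ^ p * ((Q p).card : ℝ) +
      ∑ u, ∑ v, (if X i u v ≠ ∅ then (16 : ℝ) ^ σ / 16 ^ ptr i u v else 0) ≤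
    2 ^ σ * ((Fintype.card V : ℝ) + (Fintype.card V : ℝ) ^ 2)

/-- all living edges carry sets of the full size -/
def CS.Full {gr : I → SimpleGraph V} {r Λ P σ μ : ℕ} (c : CS gr r Λ P σ μ) : Prop :=
  ∀ i u v, c.X i u v ≠ ∅ → (c.X i u v).card = (2 ^ 14) ^ (Λ - c.ptr i u v % Λ) ∧
    ∀ z ∈ c.X i u v, Near (gr i) (c.ptr i u v / Λ + 2) u z

/-- one step of all pointers -/
def AdvSt (gr : I → SimpleGraph V) : Prop :=
  ∀ (τ r Λ P σ μ : ℕ) (c : CS gr r Λ P σ μ), HitProp gr τ → 0 < Λ → c.Full →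
    (2 : ℝ) ^ (σ + 1) * ((Fintype.card V : ℝ) + (Fintype.card V : ℝ) ^ 2) < 16 ^ P →
    Nonempty (CS gr (r + (τ + 1) * (P / Λ + 2)) Λ P (σ + 1) μ)

/-- edges that have reached a centre retire or get a new set -/
def ClsSt (gr : I → SimpleGraph V) : Prop :=
  ∀ (r Λ P σ μ : ℕ) (_ : CS gr r Λ P σ μ), 0 < Λ →
    ∃ c' : CS gr (r + 1) Λ P σ (μ + P * (2 ^ 14) ^ Λ), c'.Full

/-- a labelling of the edges by nearby centres with few labels at every node -/
def Pieces (gr : I → SimpleGraph V) (r R d : ℕ) (lab : I → V → V → V) : Prop :=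
  Loc gr r lab ∧ (∀ i u v, (gr i).Adj u v → lab i u v = lab i v u ∧ Near (gr i) R u (lab i u v)) ∧
    ∀ i u, ((nbr gr i u).image (lab i u)).card ≤ d

/-- the clustering -/
def PiecesSt (gr : I → SimpleGraph V) : Prop :=
  ∀ τ Λ α : ℕ, HitProp gr τ → 0 < Λ → 0 < α →
    (Fintype.card V : ℝ) + (Fintype.card V : ℝ) ^ 2 < 4 ^ (α * Λ) →
    ∃ lab, Pieces gr (2 + 2 * (α * Λ) * ((τ + 1) * (α + 2) + 1)) (α + 2)
      ((2 * (α * Λ) + 1) * (α * Λ * (2 ^ 14) ^ Λ)) lab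

/-- sparsification inside the pieces -/
def SparseSt (gr : I → SimpleGraph V) : Prop :=
  ∀ (r R d m : ℕ) (lab : I → V → V → V) (H : I → V → Finset V), Pieces gr r R d lab →
    Loc gr r H → IsSub gr H → 0 < m →
    ∃ H' : I → V → Finset V, Loc gr (r + 2 * R) H' ∧ IsSub gr H' ∧ (∀ i v, H' i v ⊆ H i v) ∧
      (∀ i v, (H' i v).card ≤ (H i v).card / m + d) ∧
      ∀ i, ∑ v, (H i v).card ≤ (2 * m + 1) * ∑ v, (H' i v).card

/-- a large matching in a graph of maximum degree at most `2 ^ m` -/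
def RoundSt (gr : I → SimpleGraph V) : Prop :=
  ∀ (T m t r b : ℕ) (ε : ℝ) (H : I → V → Finset V) (c : I → V → V → ℕ), SplitProp gr T ε 9 →
    0 ≤ ε → ε * m ≤ 1 / 2 → Loc gr r H → IsSub gr H → (∀ i v, (H i v).card ≤ 2 ^ m) →
    Loc gr r c → IsCol (nbr gr) c (2 ^ b) → 1 ≤ b → 2 * b ≤ 2 ^ (3 + t) →
    ∃ p : I → V → Option V, Loc gr (r + (m * T + t + 524300)) p ∧
      (∀ i v u, p i v = some u → u ∈ H i v ∧ p i u = some v) ∧
      ∀ i, ∑ v, (H i v).card ≤ 2 ^ (m + 10) * (univ.filter (fun v => p i v ≠ none)).card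

open Classical in
/-- the free neighbours of a free node -/
noncomputable def freeN (gr : I → SimpleGraph V) (p : I → V → Option V) (i : I) (v : V) :
    Finset V :=
  univ.filter (fun u => (gr i).Adj v u ∧ p i v = none ∧ p i u = none)

/-- in `w` rounds every subgraph with degrees at most `8 ^ (k + 1)` gets a large matching -/
def MatchProp (gr : I → SimpleGraph V) (r0 w : ℕ) : Prop :=
  ∀ (r k : ℕ) (H : I → V → Finset V), r0 ≤ r → Loc gr r H → IsSub gr H →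
    (∀ i v, (H i v).card ≤ 8 ^ (k + 1)) →
    ∃ p : I → V → Option V, Loc gr (r + w) p ∧
      (∀ i v u, p i v = some u → u ∈ H i v ∧ p i u = some v) ∧
      ∀ i, ∑ v, (H i v).card ≤ 6144 * 8 ^ (k + 1) * (univ.filter (fun v => p i v ≠ none)).card

/-- one phase removes a constant fraction of the free edges -/
def PhaseSt (gr : I → SimpleGraph V) : Prop :=
  ∀ (r0 w r : ℕ) (p : I → V → Option V), MatchProp gr r0 w → r0 ≤ r → Loc gr r p → IsM gr p →
    ∃ p', Loc gr (r + (w + 3)) p' ∧ IsM gr p' ∧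
      ∀ i, 2 ^ 18 * ∑ v, (freeN gr p' i v).card ≤ (2 ^ 18 - 1) * ∑ v, (freeN gr p i v).card

end Pool.Agent.P.MP_6f280c_lc
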