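import Pool.Agent.P.MP_6f280c_lc.H7Hit
import Pool.Agent.P.MP_6f280c_lc.H7Round
import Pool.Agent.P.MP_6f280c_lc.Main

namespace Pool.Agent.P.MP_6f280c_lc

open Finset

theorem h7t_phases {V I : Type} [Fintype V] [LinearOrder V] (gr : I → SimpleGraph V)
    (hPh : PhaseSt gr) {r0 w : ℕ} (hM : MatchProp gr r0 w) (n : ℕ) :
    ∃ p, Loc gr (r0 + n * (w + 3)) p ∧ IsM gr p ∧
      ∀ i, ((∑ v, (freeN gr p i v).card : ℕ) : ℝ) ≤
        (1 - 1 / 2 ^ 18) ^ n * (Fintype.card V : ℝ) ^ 2 := by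
  induction n with
  | zero =>
    refine ⟨fun _ _ => none, fun _ _ _ _ => rfl, fun _ _ _ h => absurd h (by simp), fun i => ?_⟩
    rw [pow_zero, one_mul]
    have : ∑ v, (freeN gr (fun _ _ => none) i v).card ≤ ∑ _v : V, Fintype.card V :=
      Finset.sum_le_sum fun v _ => Finset.card_le_univ _
    rw [Finset.sum_const, Finset.card_univ, smul_eq_mul, ← sq] at this
    exact_mod_cast this
  | succ n ih =>
    obtain ⟨p, a1, a2, a3⟩ := ih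
    obtain ⟨p', b1, b2, b3⟩ := hPh r0 w _ p hM (Nat.le_add_right _ _) a1 a2
    refine ⟨p', b1.mono (le_of_eq (by ring)), b2, fun i => ?_⟩
    have h1 : (2 : ℝ) ^ 18 * ((∑ v, (freeN gr p' i v).card : ℕ) : ℝ) ≤
        (2 ^ 18 - 1) * ((∑ v, (freeN gr p i v).card : ℕ) : ℝ) := by
      have := b3 i
      norm_num at this ⊢
      exact_mod_cast this
    have h2 := a3 i
    rw [pow_succ]
    linarith

theorem h7t_decay (L : ℕ) :
    ((1 : ℝ) - 1 / 2 ^ 18) ^ (2 ^ 18 * (2 * L + 1)) * (2 ^ L) ^ 2 < 1 := by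
  have h1 : ((1 : ℝ) - 1 / 2 ^ 18) ^ (2 ^ 18) ≤ 1 / 2 := by
    have h := Real.add_one_le_exp (-(1 / 2 ^ 18 : ℝ))
    have h2 : ((1 : ℝ) - 1 / 2 ^ 18) ^ (2 ^ 18) ≤ Real.exp (-(1 / 2 ^ 18 : ℝ)) ^ (2 ^ 18) :=
      pow_le_pow_left₀ (by norm_num) (by linarith) _
    rw [← Real.exp_nat_mul] at h2
    have e : ((2 ^ 18 : ℕ) : ℝ) * -(1 / 2 ^ 18) = -1 := by norm_num
    rw [e] at h2
    have h3 : Real.exp (-1) * Real.exp 1 = 1 := by
      rw [← Real.exp_add]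
      norm_num
    have h4 := Real.exp_one_gt_d9
    have h5 := Real.exp_pos (-1)
    exact h2.trans (by nlinarith)
  rw [pow_mul]
  have h2 : (((1 : ℝ) - 1 / 2 ^ 18) ^ (2 ^ 18)) ^ (2 * L + 1) ≤ (1 / 2) ^ (2 * L + 1) :=
    pow_le_pow_left₀ (pow_nonneg (by norm_num) _) h1 _
  have h3 : ((1 : ℝ) / 2) ^ (2 * L + 1) * (2 ^ L) ^ 2 = 1 / 2 := by
    rw [← pow_mul, mul_comm L 2, pow_succ, mul_right_comm, ← mul_pow]
    norm_num
  have h4 := mul_le_mul_of_nonneg_right h2 (show (0 : ℝ) ≤ (2 ^ L) ^ 2 by positivity)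
  exact h4.trans_lt (by rw [h3]; norm_num)

theorem h7t_loc {I : Type} {N : ℕ} (gr : I → SimpleGraph (Fin N)) (hD : DefectSt gr)
    (hC : ClassSt gr) (hP : PiecesSt gr) (hS : SparseSt gr) (hPh : PhaseSt gr) {L s k : ℕ}
    (hL : N ≤ 2 ^ L) (hL1 : 1 ≤ L) (hs : L + 1 ≤ s ^ 5) (hs2 : 2 ≤ s)
    (hk : 2 ^ 32 * L ^ 2 ≤ 2 ^ k) (hk1 : 1 ≤ k) :
    ∃ p, Loc gr (2 ^ 41 * s ^ 8 * k ^ 2) p ∧ ∀ i, IsMaximalMatching (gr i) (p i) := by
  classical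
  obtain ⟨p1, q1, q2, q3⟩ := Nat.exists_prime_lt_and_le_two_mul (2 ^ 15 * L) (by positivity)
  obtain ⟨p2, r1, r2, r3⟩ := Nat.exists_prime_lt_and_le_two_mul (2 ^ 15 * k) (by positivity)
  have hH := hit_of gr hD hC (fun v => v.val) Fin.val_injective (k1 := L) (k2 := k) q1 r1
    (fun v => by
      have h1 : 2 ^ L ≤ p1 ^ L := Nat.pow_le_pow_left q1.two_le L
      have h2 : p1 ^ L ≤ p1 ^ (L + 1) := Nat.pow_le_pow_right q1.pos (by omega)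
      have := v.isLt
      omega)
    (by
      have h1 : 2 ^ k ≤ p2 ^ k := Nat.pow_le_pow_left r1.two_le k
      have h2 : p2 ^ k ≤ p2 ^ (k + 1) := Nat.pow_le_pow_right r1.pos (by omega)
      have h3 : p1 ^ 2 ≤ (2 * (2 ^ 15 * L)) ^ 2 := Nat.pow_le_pow_left q3 2
      have h4 : (2 * (2 ^ 15 * L)) ^ 2 = 2 ^ 32 * L ^ 2 := by ring
      omega) q2.le r2.le
  have e5 : s ^ 3 * s ^ 2 = s ^ 5 := by ring
  have s5 : s ^ 5 ≤ 2 ^ (5 * s) := by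
    rw [mul_comm, pow_mul]
    exact Nat.pow_le_pow_left (Nat.lt_two_pow_self).le 5
  obtain ⟨lab, hlab⟩ := hP (2 * p2 ^ 2 + 5) (s ^ 2) (s ^ 3) hH (by positivity) (by positivity)
    (by
      rw [Fintype.card_fin, e5]
      have h1 : (N : ℝ) ≤ 2 ^ L := by exact_mod_cast hL
      have h2 : (4 : ℝ) ^ (L + 1) ≤ 4 ^ (s ^ 5) := pow_le_pow_right₀ (by norm_num) hs
      have h3 : (4 : ℝ) ^ (L + 1) = 4 * (2 ^ L) ^ 2 := by
        rw [← pow_mul, mul_comm L 2, pow_mul, pow_succ]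
        norm_num
        ring
      have h4 : (1 : ℝ) ≤ 2 ^ L := one_le_pow₀ (by norm_num)
      have h5 : (0 : ℝ) ≤ N := Nat.cast_nonneg N
      nlinarith)
  rw [e5] at hlab
  have hd : (2 * s ^ 5 + 1) * (s ^ 5 * (2 ^ 14) ^ (s ^ 2)) ≤ 2 ^ (25 * s ^ 2) := by
    have h1 : 2 * s ^ 5 + 1 ≤ 4 * 2 ^ (5 * s) := by omega
    have h2 : (2 * s ^ 5 + 1) * (s ^ 5 * (2 ^ 14) ^ (s ^ 2)) ≤
        (4 * 2 ^ (5 * s)) * (2 ^ (5 * s) * (2 ^ 14) ^ (s ^ 2)) :=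
      Nat.mul_le_mul h1 (Nat.mul_le_mul_right _ s5)
    have h3 : (4 * 2 ^ (5 * s)) * (2 ^ (5 * s) * (2 ^ 14) ^ (s ^ 2)) =
        2 ^ (10 * s + 2 + 14 * s ^ 2) := by
      rw [← pow_mul]
      ring
    have h4 : 2 ^ (10 * s + 2 + 14 * s ^ 2) ≤ 2 ^ (25 * s ^ 2) :=
      Nat.pow_le_pow_right (by norm_num) (by nlinarith)
    omega
  have j1 : 400 * s ≤ 2 ^ Nat.clog 2 (400 * s) := Nat.le_pow_clog (by norm_num) _
  have j2 : 2 ^ Nat.clog 2 (400 * s) ≤ 800 * s := by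
    have h1 : 1 ≤ Nat.clog 2 (400 * s) := Nat.clog_pos (by norm_num) (by omega)
    have h2 : 2 ^ (Nat.clog 2 (400 * s)).pred < 400 * s :=
      Nat.pow_pred_clog_lt_self (by norm_num) (by omega)
    obtain ⟨j, hj⟩ : ∃ j, Nat.clog 2 (400 * s) = j + 1 := ⟨Nat.clog 2 (400 * s) - 1, by omega⟩
    rw [hj] at h2 ⊢
    simp only [Nat.pred_succ] at h2
    rw [pow_succ]
    omega
  generalize Nat.clog 2 (400 * s) = j at j1 j2
  have hε : (3000 : ℝ) * (1 / 4) ^ j * (25 * s ^ 2 + 1 : ℕ) ≤ 1 / 2 := by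
    have h0 : 6000 * (25 * s ^ 2 + 1) ≤ 4 ^ j := by
      have e : 4 ^ j = (2 ^ j) ^ 2 := by
        rw [← pow_mul, mul_comm, pow_mul]
        norm_num
      have := Nat.pow_le_pow_left j1 2
      rw [e]
      nlinarith
    have h1 : (6000 : ℝ) * (25 * s ^ 2 + 1 : ℕ) ≤ 4 ^ j := by exact_mod_cast h0
    rw [one_div_pow]
    have h2 : (0 : ℝ) < 4 ^ j := by positivity
    rw [mul_one_div, div_mul_eq_mul_div, div_le_iff₀ h2]
    linarith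
  have hM := match_of gr hS hlab hd (split_main j) (by positivity) hε (t := 5 * s)
    (fun _ _ _ _ => rfl) (first_col gr L hL) (by omega) (by rw [pow_add]; omega)
  obtain ⟨p, a1, a2, a3⟩ := h7t_phases gr hPh hM (2 ^ 18 * (2 * L + 1))
  refine ⟨p, a1.mono ?_, fun i => ⟨a2 i, fun v u hvu => ?_⟩⟩
  · have b1 : p2 ^ 2 ≤ 2 ^ 32 * k ^ 2 := by
      have := Nat.pow_le_pow_left r3 2
      have e : (2 * (2 ^ 15 * k)) ^ 2 = 2 ^ 32 * k ^ 2 := by ring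
      omega
    have k2 : 1 ≤ k ^ 2 := Nat.one_le_pow _ _ hk1
    have s1 : s ≤ s ^ 3 := Nat.le_self_pow (by norm_num) s
    have s2 : 1 ≤ s ^ 2 := Nat.one_le_pow _ _ (by omega)
    have b2 : (2 * p2 ^ 2 + 5 + 1) * (s ^ 3 + 2) + 1 ≤ 2 ^ 36 * (k ^ 2 * s ^ 3) := by
      have h1 : (2 * p2 ^ 2 + 5 + 1) * (s ^ 3 + 2) ≤ (2 ^ 34 * k ^ 2) * (2 * s ^ 3) :=
        Nat.mul_le_mul (by omega) (by omega)
      have h2 : 1 * 1 ≤ k ^ 2 * s ^ 3 := Nat.mul_le_mul k2 (by omega)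
      have e : (2 ^ 34 * k ^ 2) * (2 * s ^ 3) = 2 ^ 35 * (k ^ 2 * s ^ 3) := by ring
      omega
    have b3 : 2 * s ^ 5 * ((2 * p2 ^ 2 + 5 + 1) * (s ^ 3 + 2) + 1) ≤ 2 ^ 37 * (s ^ 8 * k ^ 2) := by
      refine (Nat.mul_le_mul_left _ b2).trans (le_of_eq ?_)
      ring
    have b4 : (25 * s ^ 2 + 1) * (25 * 2 ^ j) ≤ 520000 * s ^ 3 := by
      have h1 : (25 * s ^ 2 + 1) * (25 * 2 ^ j) ≤ (26 * s ^ 2) * (25 * (800 * s)) :=
        Nat.mul_le_mul (by omega) (by omega)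
      have e : (26 * s ^ 2) * (25 * (800 * s)) = 520000 * s ^ 3 := by ring
      omega
    have b5 : 2 ^ 18 * (2 * L + 1) * (2 * (s ^ 3 + 2) +
        ((25 * s ^ 2 + 1) * (25 * 2 ^ j) + 5 * s + 524300) + 3) ≤
        (2 ^ 19 * s ^ 5) * (2 ^ 21 * s ^ 3) := Nat.mul_le_mul (by omega) (by omega)
    have b6 : (2 ^ 19 * s ^ 5) * (2 ^ 21 * s ^ 3) = 2 ^ 40 * (s ^ 8 * 1) := by ring
    have b7 : s ^ 8 * 1 ≤ s ^ 8 * k ^ 2 := Nat.mul_le_mul_left _ k2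
    have b8 : 1 ≤ s ^ 8 := Nat.one_le_pow _ _ (by omega)
    rw [mul_assoc (2 ^ 41)]
    refine (Nat.add_le_add (Nat.add_le_add_left b3 2) (b5.trans b6.le)).trans ?_
    clear b1 b2 b3 b4 b5 b6
    omega
  · by_contra hc
    push Not at hc
    have h1 : u ∈ freeN gr p i v := by
      simp [freeN, hvu, hc.1, hc.2]
    have h2 : 1 ≤ ∑ w, (freeN gr p i w).card :=
      le_trans (Finset.card_pos.2 ⟨u, h1⟩)
        (Finset.single_le_sum (f := fun w => (freeN gr p i w).card) (fun _ _ => Nat.zero_le _)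
          (mem_univ v))
    have h3 : (1 : ℝ) ≤ ((∑ w, (freeN gr p i w).card : ℕ) : ℝ) := by exact_mod_cast h2
    have h4 := a3 i
    rw [Fintype.card_fin] at h4
    have h5 : (N : ℝ) ≤ 2 ^ L := by exact_mod_cast hL
    have h6 : (N : ℝ) ^ 2 ≤ (2 ^ L) ^ 2 := pow_le_pow_left₀ (Nat.cast_nonneg N) h5 2
    have h7 := mul_le_mul_of_nonneg_left h6
      (pow_nonneg (show (0 : ℝ) ≤ 1 - 1 / 2 ^ 18 by norm_num) (2 ^ 18 * (2 * L + 1)))
    exact absurd ((h3.trans (h4.trans h7)).trans_lt (h7t_decay L)) (lt_irrefl _)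

theorem h7t_time {N : ℕ} (hN : 16 ≤ N) : ∃ L s k : ℕ, N ≤ 2 ^ L ∧ 1 ≤ L ∧ L + 1 ≤ s ^ 5 ∧
    2 ≤ s ∧ 2 ^ 32 * L ^ 2 ≤ 2 ^ k ∧ 1 ≤ k ∧
    ((2 ^ 41 * s ^ 8 * k ^ 2 : ℕ) : ℝ) ≤
      10 ^ 20 * Real.log N ^ (8 / 5 : ℝ) * Real.log (Real.log N) ^ 2 := by
  classical
  obtain ⟨l1, l2⟩ := clog_le (n := N) (by omega)
  have l3 : N ≤ 2 ^ Nat.clog 2 N := Nat.le_pow_clog (by norm_num) _
  generalize Nat.clog 2 N = L at l1 l2 l3
  have l4 : 2 ≤ L := by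
    by_contra hc
    have : L = 1 := by omega
    subst this
    omega
  obtain ⟨m1, m2⟩ := clog_le l4
  have m3 : L ≤ 2 ^ Nat.clog 2 L := Nat.le_pow_clog (by norm_num) _
  generalize Nat.clog 2 L = m at m1 m2 m3
  have hex : ∃ s, L + 1 ≤ s ^ 5 := ⟨L + 1, Nat.le_self_pow (by norm_num) _⟩
  have s1 := Nat.find_spec hex
  have s2 : 2 ≤ Nat.find hex := by
    by_contra hc
    have : Nat.find hex = 0 ∨ Nat.find hex = 1 := by omega
    rcases this with e | e <;> rw [e] at s1 <;> omega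
  have s3 := Nat.find_min hex (m := Nat.find hex - 1) (by omega)
  generalize Nat.find hex = s at s1 s2 s3
  have s4 : s ^ 5 ≤ 32 * L := by
    have h1 : s ^ 5 ≤ (2 * (s - 1)) ^ 5 := Nat.pow_le_pow_left (by omega) 5
    rw [mul_pow] at h1
    omega
  refine ⟨L, s, 32 + 2 * m, l3, l1, s1, s2, ?_, by omega, ?_⟩
  · rw [pow_add, mul_comm 2 m, pow_mul]
    exact Nat.mul_le_mul_left _ (Nat.pow_le_pow_left m3 2)
  · have n1 : Real.log 16 ≤ Real.log N := Real.log_le_log (by norm_num) (by exact_mod_cast hN)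
    have n2 : Real.log 16 = 4 * Real.log 2 := by
      rw [show (16 : ℝ) = 2 ^ 4 by norm_num, Real.log_pow]
      norm_num
    have n3 := Real.log_two_gt_d9
    have n4 := Real.exp_one_lt_d9
    have n5 : 0 < Real.log N := by linarith
    have n6 : 1 ≤ Real.log (Real.log N) := by
      rw [Real.le_log_iff_exp_le n5]
      linarith
    have n7 : Real.log L ≤ 3 * Real.log (Real.log N) := by
      have h1 : Real.log L ≤ Real.log (3 * Real.log N) :=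
        Real.log_le_log (by exact_mod_cast l1) l2
      rw [Real.log_mul (by norm_num) n5.ne'] at h1
      have h2 : Real.log 3 ≤ 3 - 1 := Real.log_le_sub_one_of_pos (by norm_num)
      linarith
    have n8 : ((32 + 2 * m : ℕ) : ℝ) ≤ 50 * Real.log (Real.log N) := by
      push_cast
      linarith
    have n9 : ((32 + 2 * m : ℕ) : ℝ) ^ 2 ≤ (50 * Real.log (Real.log N)) ^ 2 :=
      pow_le_pow_left₀ (Nat.cast_nonneg _) n8 2
    have t1 : (s : ℝ) ^ 5 ≤ 96 * Real.log N := by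
      have : (s : ℝ) ^ 5 ≤ 32 * L := by exact_mod_cast s4
      linarith
    have t2 : (s : ℝ) ^ 8 = ((s : ℝ) ^ 5) ^ (8 / 5 : ℝ) := by
      rw [← Real.rpow_natCast (s : ℝ) 5, ← Real.rpow_mul (Nat.cast_nonneg s),
        ← Real.rpow_natCast (s : ℝ) 8]
      norm_num
    have t3 : ((s : ℝ) ^ 5) ^ (8 / 5 : ℝ) ≤ (96 * Real.log N) ^ (8 / 5 : ℝ) :=
      Real.rpow_le_rpow (by positivity) t1 (by norm_num)
    rw [Real.mul_rpow (by norm_num) n5.le] at t3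
    have t4 : (96 : ℝ) ^ (8 / 5 : ℝ) ≤ 96 ^ (2 : ℝ) :=
      Real.rpow_le_rpow_of_exponent_le (by norm_num) (by norm_num)
    have t5 : (96 : ℝ) ^ (2 : ℝ) = 9216 := by norm_num
    have t6 : 0 ≤ Real.log N ^ (8 / 5 : ℝ) := Real.rpow_nonneg n5.le _
    have t7 : (s : ℝ) ^ 8 ≤ 9216 * Real.log N ^ (8 / 5 : ℝ) := by
      rw [t2]
      nlinarith
    have t8 := mul_le_mul t7 n9 (by positivity) (by positivity)
    have t9 : 0 ≤ Real.log N ^ (8 / 5 : ℝ) * Real.log (Real.log N) ^ 2 := by positivity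
    rw [Nat.cast_mul, Nat.cast_mul, Nat.cast_pow, Nat.cast_pow, Nat.cast_pow]
    generalize ((32 + 2 * m : ℕ) : ℝ) = K at *
    norm_num
    nlinarith

end Pool.Agent.P.MP_6f280c_lc
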