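import Pool.Agent.P.MP_6f280c_lc.Defs

namespace Pool.Agent.P.MP_6f280c_lc

variable {V I : Type}

/-- recursive form of equal views -/
def Agree : ℕ → SimpleGraph V → SimpleGraph V → V → Prop
  | 0, _, _, _ => True
  | r + 1, G, G', v => (∀ u, G.Adj v u ↔ G'.Adj v u) ∧ ∀ u, G.Adj v u → Agree r G G' u

/-- reachable within `k` steps -/
def Near (G : SimpleGraph V) : ℕ → V → V → Prop
  | 0, v, u => v = u
  | k + 1, v, u => v = u ∨ ∃ w, G.Adj v w ∧ Near G k w u

theorem agree_of_sameView {T : ℕ} {G G' : SimpleGraph V} {v : V} (h : SameView T G G' v) :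
    Agree T G G' v := by
  induction T generalizing v with
  | zero => trivial
  | succ T ih =>
    refine ⟨fun u => ?_, fun u hu => ih fun w p hp => ?_⟩
    · have := h v SimpleGraph.Walk.nil (by simp)
      rw [← SimpleGraph.mem_neighborSet, this, SimpleGraph.mem_neighborSet]
    · exact h w (SimpleGraph.Walk.cons hu p) (by simpa using hp)

theorem Agree.pred {r : ℕ} {G G' : SimpleGraph V} {v : V} (h : Agree (r + 1) G G' v) :
    Agree r G G' v := by
  induction r generalizing v with
  | zero => trivial
  | succ r ih => exact ⟨h.1, fun u hu => ih (h.2 u hu)⟩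

theorem Agree.mono {r R : ℕ} {G G' : SimpleGraph V} {v : V} (h : Agree R G G' v) (hr : r ≤ R) :
    Agree r G G' v := by
  induction hr with
  | refl => exact h
  | step _ ih => exact ih h.pred

theorem Near.refl (G : SimpleGraph V) (k : ℕ) (v : V) : Near G k v v := by
  cases k with
  | zero => rfl
  | succ k => exact Or.inl rfl

theorem Near.of_adj {G : SimpleGraph V} {v u : V} (h : G.Adj v u) : Near G 1 v u :=
  Or.inr ⟨u, h, rfl⟩

theorem Near.succ {G : SimpleGraph V} {k : ℕ} {v u : V} (h : Near G k v u) :
    Near G (k + 1) v u := by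
  induction k generalizing v with
  | zero => exact Or.inl h
  | succ k ih =>
    rcases h with h | ⟨w, hw, h⟩
    · exact Or.inl h
    · exact Or.inr ⟨w, hw, ih h⟩

theorem Near.mono {G : SimpleGraph V} {k K : ℕ} {v u : V} (h : Near G k v u) (hk : k ≤ K) :
    Near G K v u := by
  induction hk with
  | refl => exact h
  | step _ ih => exact ih.succ

theorem Near.trans {G : SimpleGraph V} {k l : ℕ} {v u w : V} (h : Near G k v u)
    (h' : Near G l u w) : Near G (k + l) v w := by
  induction k generalizing v with
  | zero =>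
    have e : v = u := h
    subst e
    simpa using h'
  | succ k ih =>
    rcases h with h | ⟨x, hx, h⟩
    · subst h
      exact h'.mono (by omega)
    · have := ih h
      have e : k + 1 + l = (k + l) + 1 := by omega
      rw [e]
      exact Or.inr ⟨x, hx, this⟩

theorem Agree.near {r k : ℕ} {G G' : SimpleGraph V} {v u : V} (h : Agree (r + k) G G' v)
    (hn : Near G k v u) : Agree r G G' u := by
  induction k generalizing v with
  | zero =>
    have e : v = u := hn
    subst e
    exact h
  | succ k ih =>
    rcases hn with hn | ⟨w, hw, hn⟩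
    · subst hn
      exact h.mono (by omega)
    · exact ih (h.2 w hw) hn

/-- a labelling that is computed in `r` rounds -/
def Loc (gr : I → SimpleGraph V) (r : ℕ) {α : Type} (f : I → V → α) : Prop :=
  ∀ i i' v, Agree r (gr i) (gr i') v → f i v = f i' v

variable {gr : I → SimpleGraph V}

theorem Loc.mono {r R : ℕ} {α : Type} {f : I → V → α} (hf : Loc gr r f) (h : r ≤ R) :
    Loc gr R f := fun i i' v hA => hf i i' v (hA.mono h)

theorem Loc.here {r R : ℕ} {α : Type} {f : I → V → α} (hf : Loc gr r f) {i i' : I} {v : V}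
    (hA : Agree R (gr i) (gr i') v) (h : r ≤ R) : f i v = f i' v := hf i i' v (hA.mono h)

theorem Loc.far {r R k : ℕ} {α : Type} {f : I → V → α} (hf : Loc gr r f) {i i' : I} {v u : V}
    (hA : Agree R (gr i) (gr i') v) (hn : Near (gr i) k v u) (h : r + k ≤ R) : f i u = f i' u :=
  hf i i' u ((hA.mono h).near hn)

theorem Loc.adj {r R : ℕ} {α : Type} {f : I → V → α} (hf : Loc gr r f) {i i' : I} {v u : V}
    (hA : Agree R (gr i) (gr i') v) (hn : (gr i).Adj v u) (h : r + 1 ≤ R) : f i u = f i' u :=
  hf.far hA (Near.of_adj hn) h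

theorem Agree.adj_iff {R : ℕ} {G G' : SimpleGraph V} {v : V} (hA : Agree R G G' v) (h : 1 ≤ R)
    (u : V) : G.Adj v u ↔ G'.Adj v u := (hA.mono h).1 u

theorem Loc.map {r : ℕ} {α β : Type} {f : I → V → α} (hf : Loc gr r f) (F : V → α → β) :
    Loc gr r (fun i v => F v (f i v)) := fun i i' v hA => by
  show F v (f i v) = F v (f i' v)
  rw [hf i i' v hA]

end Pool.Agent.P.MP_6f280c_lc
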