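import Pool.Agent.P.MP_6f280c_lc.Round
import Pool.Agent.P.MP_6f280c_lc.Color

namespace Pool.Agent.P.MP_6f280c_lc

open Finset

variable {V I : Type} [Fintype V] [LinearOrder V] {gr : I → SimpleGraph V}

open Classical in
/-- the neighbour sets -/
noncomputable def nbr (gr : I → SimpleGraph V) (i : I) (v : V) : Finset V :=
  univ.filter (fun u => (gr i).Adj v u)

omit [LinearOrder V] in
theorem mem_nbr {i : I} {v u : V} : u ∈ nbr gr i v ↔ (gr i).Adj v u := by simp [nbr]

omit [LinearOrder V] in
theorem loc_nbr : Loc gr 1 (nbr gr) := by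
  intro i i' v hA
  ext u
  rw [mem_nbr, mem_nbr]
  exact hA.adj_iff le_rfl u

omit [LinearOrder V] in
theorem isSub_nbr : IsSub gr (nbr gr) := fun _ _ _ h => ⟨mem_nbr.1 h, mem_nbr.2 (mem_nbr.1 h).symm⟩

/-- nodes that are free for `p` and matched by `q` -/
noncomputable def newly (p q : V → Option V) : Finset V :=
  univ.filter (fun v => p v = none ∧ q v ≠ none)

theorem one_add_pow_le {ε : ℝ} (hε : 0 ≤ ε) {m : ℕ} (h : ε * m ≤ 1 / 2) : (1 + ε) ^ m ≤ 2 := by
  have h1 : (1 + ε) ^ m ≤ Real.exp ε ^ m :=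
    pow_le_pow_left₀ (by linarith) (by linarith [Real.add_one_le_exp ε]) m
  rw [← Real.exp_nat_mul] at h1
  have h2 : Real.exp (m * ε) ≤ Real.exp (1 / 2) := Real.exp_le_exp.2 (by linarith)
  have h3 : Real.exp (1 / 2) * Real.exp (1 / 2) = Real.exp 1 := by
    rw [← Real.exp_add]
    norm_num
  have h4 := Real.exp_one_lt_d9
  have h5 := Real.exp_pos (1 / 2)
  nlinarith

/-- one phase: the matching grows by a constant fraction of a vertex cover of the free part -/
theorem phase {T m t r : ℕ} {ε : ℝ} (hS : SplitProp gr T ε 9) (hε : 0 ≤ ε) (hm : ε * m ≤ 1 / 2)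
    (hdeg : ∀ i v, (nbr gr i v).card ≤ 2 ^ m) {c : I → V → V → ℕ} (hc : Loc gr r c)
    (hcol : IsCol (nbr gr) c (2 ^ (3 + t))) {p : I → V → Option V} (hp : Loc gr r p)
    (hM : IsM gr p) :
    ∃ p', Loc gr (r + (m + m * T + t + 524296)) p' ∧ IsM gr p' ∧
      (∀ i v u, p i v = some u → p' i v = some u) ∧
      ∀ i, ∃ C : Finset V,
        (∀ v u, (gr i).Adj v u → p i v = none → p i u = none → v ∈ C ∨ u ∈ C) ∧
        C.card ≤ 128 * (newly (p i) (p' i)).card := by
  classical
  have hq : (0 : ℝ) < 1 / 2 ^ (m + 8) := by positivity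
  have hq1 : (2 : ℝ) ^ m * (1 / 2 ^ (m + 8)) = 1 / 256 := by
    rw [pow_add]
    field_simp
    norm_num
  have hq2 : (2 : ℝ) ^ (m + 4) * (1 / 2 ^ (m + 8)) = 1 / 16 := by
    rw [pow_add 2 m 4, mul_right_comm, hq1]
    norm_num
  obtain ⟨x, a1, a2, a3, a4, a5, a6⟩ := doubling (gr := gr) (F := fun i v => p i v = none)
    (hp.map (fun _ o => o = none)) hq (fun i v => by
      have h1 : ((nbr gr i v).card : ℝ) ≤ 2 ^ m := by exact_mod_cast hdeg i v
      have h2 := mul_le_mul_of_nonneg_right h1 hq.le
      rw [hq1] at h2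
      unfold nbr at h2
      linarith) (m + 4)
  obtain ⟨z, b1, b2, b3, b4, b5⟩ := round_all hS hε (by norm_num) 1 2 (by norm_num) m a1 a2
    (fun i v u h => (a3 i v u h).1) hq a4
  rw [hq1] at b4
  have hxn := a4.nonneg hq
  have hzn := b4.nonneg (by norm_num)
  have hz : ∀ i v u, z i v u ≠ 0 → (gr i).Adj v u ∧ p i v = none ∧ p i u = none :=
    fun i v u h => a3 i v u (b3 i v u h)
  let H : I → V → Finset V := fun i v =>
    univ.filter (fun u => z i v u ≠ 0 ∧ ∑ w, z i v w ≤ 1 ∧ ∑ w, z i u w ≤ 1)
  have hmem : ∀ i v u, u ∈ H i v ↔ z i v u ≠ 0 ∧ ∑ w, z i v w ≤ 1 ∧ ∑ w, z i u w ≤ 1 := by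
    simp [H]
  have hH : Loc gr (r + 1 + (m + 4) + m * T + 1) H := by
    intro i i' v hA
    ext u
    rw [hmem, hmem, ← b1.here hA (by omega)]
    by_cases h : z i v u = 0
    · simp [h]
    · rw [← b1.adj hA (hz i v u h).1 le_rfl]
  have hs : IsSub gr H := by
    intro i v u h
    rw [hmem] at h
    refine ⟨(hz i v u h.1).1, (hmem i u v).2 ⟨?_, h.2.2, h.2.1⟩⟩
    rw [← b2]
    exact h.1
  have hd : ∀ i v, (H i v).card ≤ 256 := by
    intro i v
    rcases (H i v).eq_empty_or_nonempty with h | ⟨u0, h⟩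
    · simp [h]
    · have h1 : ∑ u ∈ H i v, (1 / 256 : ℝ) ≤ ∑ u ∈ H i v, z i v u :=
        Finset.sum_le_sum fun u hu => by
          rcases b4 i v u with e | ⟨k, e⟩
          · exact absurd e ((hmem i v u).1 hu).1
          · rw [e]
            have : (1 : ℝ) ≤ 2 ^ k := one_le_pow₀ (by norm_num)
            linarith
      have h2 : ∑ u ∈ H i v, z i v u ≤ ∑ u, z i v u :=
        Finset.sum_le_sum_of_subset_of_nonneg (Finset.subset_univ _) (fun u _ _ => hzn i v u)
      have h3 := ((hmem i v u0).1 h).2.1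
      rw [Finset.sum_const, nsmul_eq_mul] at h1
      have h4 : ((H i v).card : ℝ) ≤ 256 := by linarith
      exact_mod_cast h4
  have hcol' : IsCol H c (2 ^ (3 + t)) :=
    ⟨fun i v u h => hcol.1 i v u (mem_nbr.2 (hs i v u h).1), fun i v u u' h h' =>
      hcol.2 i v u u' (mem_nbr.2 (hs i v u h).1) (mem_nbr.2 (hs i v u' h').1)⟩
  obtain ⟨c', c1, c2⟩ := recolor hH hs hd (hc.mono (by omega)) hcol'
  obtain ⟨p', d1, d2, d3, d4⟩ := greedy (hH.mono (by omega)) hs c1 c2 (hp.mono (by omega)) hM
    (256 * 256 * 8)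
  refine ⟨p', d1.mono (by omega), d2, d3, fun i =>
    ⟨univ.filter (fun v => 1 / 32 < ∑ w, x i v w), ?_, ?_⟩⟩
  · intro v u h1 h2 h3
    simp only [Finset.mem_filter, Finset.mem_univ, true_and]
    rcases a6 i v u h1 h2 h3 with h | h | h
    · exact Or.inl h
    · exact Or.inr h
    · left
      rw [hq2] at h
      have := Finset.single_le_sum (f := fun w => x i v w) (fun w _ => hxn i v w) (mem_univ u)
      linarith
  · have y0 : ∀ v, 0 ≤ ∑ w, x i v w := fun v => Finset.sum_nonneg fun w _ => hxn i v w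
    have z0 : ∀ v, 0 ≤ ∑ w, z i v w := fun v => Finset.sum_nonneg fun w _ => hzn i v w
    have e1 : ((univ.filter (fun v => 1 / 32 < ∑ w, x i v w)).card : ℝ) ≤
        32 * ∑ v, ∑ w, x i v w := by
      rw [Finset.card_filter, Finset.mul_sum]
      push_cast
      refine Finset.sum_le_sum fun v _ => ?_
      split_ifs with h
      · linarith
      · linarith [y0 v]
    have e2 : ∑ v, (∑ w, x i v w) ^ 2 ≤ 1 / 16 * ∑ v, ∑ w, x i v w := by
      rw [Finset.mul_sum]
      exact Finset.sum_le_sum fun v _ => by nlinarith [y0 v, a5 i v]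
    have e3 := one_add_pow_le hε hm
    have e4 : 0 ≤ ∑ v, ∑ w, x i v w := Finset.sum_nonneg fun v _ => y0 v
    have e5 : 0 ≤ ∑ v, (∑ w, x i v w) ^ 2 := Finset.sum_nonneg fun v _ => sq_nonneg _
    have e6 : 1 / 2 * ∑ v, ∑ w, x i v w ≤ ∑ v, ∑ w, z i v w - 2 * ∑ v, (∑ w, z i v w) ^ 2 := by
      have f1 := b5 i
      have f2 : ((2 : ℝ) ^ m - 1) * (1 / 2 ^ (m + 8)) ≤ 1 / 256 := by
        rw [sub_mul, hq1]
        linarith
      have f3 : (0 : ℝ) ≤ (2 ^ m - 1) * (1 / 2 ^ (m + 8)) := by
        have : (1 : ℝ) ≤ 2 ^ m := one_le_pow₀ (by norm_num)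
        have : (0 : ℝ) ≤ 2 ^ m - 1 := by linarith
        positivity
      have f4 : (1 + ε) ^ m * ((2 ^ m - 1) * (1 / 2 ^ (m + 8))) ≤ 2 * (1 / 256) :=
        mul_le_mul e3 f2 f3 (by norm_num)
      have f5 := mul_le_mul_of_nonneg_right f4 e4
      have f6 := mul_le_mul_of_nonneg_right e3 e5
      nlinarith
    let A : V → ℝ := fun v => if 1 < ∑ w, z i v w ∨ v ∈ newly (p i) (p' i) then 1 else 0
    have e7 : ∑ v, ∑ u, z i v u ≤ ∑ v, ∑ u, (A v * z i v u + A u * z i u v) := by
      refine Finset.sum_le_sum fun v _ => Finset.sum_le_sum fun u _ => ?_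
      have A0 : ∀ w, 0 ≤ A w := fun w => by
        simp only [A]
        split_ifs <;> norm_num
      rw [← b2 i v u]
      by_cases h : z i v u = 0
      · simp [h]
      · have hA : A v = 1 ∨ A u = 1 := by
          by_cases c1 : 1 < ∑ w, z i v w
          · exact Or.inl (if_pos (Or.inl c1))
          · by_cases c3 : 1 < ∑ w, z i u w
            · exact Or.inr (if_pos (Or.inl c3))
            · have hu : u ∈ H i v := (hmem i v u).2 ⟨h, not_lt.1 c1, not_lt.1 c3⟩
              rcases d4 i v u hu (c2.1 i v u hu).2 with e | e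
              · exact Or.inl (if_pos (Or.inr (by simp [newly, (hz i v u h).2.1, e])))
              · exact Or.inr (if_pos (Or.inr (by simp [newly, (hz i v u h).2.2, e])))
        rcases hA with e | e <;> rw [e] <;> nlinarith [A0 v, A0 u, hzn i v u]
    have e8 : ∑ v, ∑ u, (A v * z i v u + A u * z i u v) = 2 * ∑ v, A v * ∑ u, z i v u := by
      simp only [Finset.sum_add_distrib]
      rw [Finset.sum_comm (f := fun v u => A u * z i u v)]
      simp only [← Finset.mul_sum]
      ring
    have e9 : ∑ v, A v * ∑ u, z i v u ≤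
        ((newly (p i) (p' i)).card : ℝ) + ∑ v, (∑ w, z i v w) ^ 2 := by
      have : ((newly (p i) (p' i)).card : ℝ) =
          ∑ v, if v ∈ newly (p i) (p' i) then (1 : ℝ) else 0 := by
        simp
      rw [this, ← Finset.sum_add_distrib]
      refine Finset.sum_le_sum fun v _ => ?_
      simp only [A]
      by_cases c1 : 1 < ∑ w, z i v w
      · rw [if_pos (Or.inl c1)]
        split_ifs <;> nlinarith
      · by_cases c3 : v ∈ newly (p i) (p' i)
        · rw [if_pos (Or.inr c3), if_pos c3]
          nlinarith [not_lt.1 c1]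
        · rw [if_neg (by tauto), if_neg c3]
          nlinarith
    have e10 : ((univ.filter (fun v => 1 / 32 < ∑ w, x i v w)).card : ℝ) ≤
        128 * ((newly (p i) (p' i)).card : ℝ) := by linarith
    exact_mod_cast e10

/-- every matching that extends `p` matches at most `β` further nodes -/
def Bd (G : SimpleGraph V) (p : V → Option V) (β : ℝ) : Prop :=
  ∀ q : V → Option V, (∀ v u, q v = some u → G.Adj v u ∧ q u = some v) →
    (∀ v u, p v = some u → q v = some u) → ((newly p q).card : ℝ) ≤ β

theorem Bd.step {G : SimpleGraph V} {p p' : V → Option V} {β : ℝ} (h : Bd G p β)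
    (hp : ∀ v u, p v = some u → G.Adj v u ∧ p u = some v)
    (hext : ∀ v u, p v = some u → p' v = some u) (C : Finset V)
    (hC : ∀ v u, G.Adj v u → p v = none → p u = none → v ∈ C ∨ u ∈ C)
    (hcard : C.card ≤ 128 * (newly p p').card) : Bd G p' (255 / 256 * β) := by
  intro q hq hq'
  have h1 := h q hq (fun v u e => hq' v u (hext v u e))
  have h2 : (newly p q).card ≤ 2 * C.card := by
    have hsub : newly p q ⊆ C ∪ C.image (fun u => (q u).getD u) := by
      intro v hv
      simp only [newly, Finset.mem_filter, Finset.mem_univ, true_and] at hv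
      obtain ⟨u, hu⟩ := Option.ne_none_iff_exists'.1 hv.2
      have hpu : p u = none := by
        rcases e : p u with _ | w
        · rfl
        · have e1 := hq' u w (hext u w e)
          rw [(hq v u hu).2] at e1
          have e2 := Option.some.inj e1
          subst e2
          have := (hp u v e).2
          rw [hv.1] at this
          exact absurd this (by simp)
      rcases hC v u (hq v u hu).1 hv.1 hpu with e | e
      · exact Finset.mem_union_left _ e
      · exact Finset.mem_union_right _ (Finset.mem_image.2 ⟨u, e, by simp [(hq v u hu).2]⟩)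
    have := (Finset.card_le_card hsub).trans (Finset.card_union_le _ _)
    have := Finset.card_image_le (s := C) (f := fun u => (q u).getD u)
    omega
  have h3 : (newly p p').card + (newly p' q).card ≤ (newly p q).card := by
    rw [← Finset.card_union_of_disjoint]
    · apply Finset.card_le_card
      intro v hv
      simp only [newly, Finset.mem_union, Finset.mem_filter, Finset.mem_univ, true_and] at hv ⊢
      rcases hv with hv | hv
      · obtain ⟨u, hu⟩ := Option.ne_none_iff_exists'.1 hv.2
        exact ⟨hv.1, by rw [hq' v u hu]; simp⟩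
      · refine ⟨?_, hv.2⟩
        rcases e : p v with _ | w
        · rfl
        · rw [hext v w e] at hv
          exact absurd hv.1 (by simp)
    · rw [Finset.disjoint_left]
      intro v h1 h2
      simp only [newly, Finset.mem_filter, Finset.mem_univ, true_and] at h1 h2
      exact h1.2 h2.1
  have h4 : 256 * (newly p' q).card ≤ 255 * (newly p q).card := by omega
  have h5 : 256 * ((newly p' q).card : ℝ) ≤ 255 * ((newly p q).card : ℝ) := by exact_mod_cast h4
  linarith

theorem Bd.maximal {G : SimpleGraph V} {p : V → Option V} {β : ℝ} (h : Bd G p β) (hβ : β < 1)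
    (hp : ∀ v u, p v = some u → G.Adj v u ∧ p u = some v) (v u : V) (hvu : G.Adj v u) :
    p v ≠ none ∨ p u ≠ none := by
  by_contra hc
  push Not at hc
  have hne := hvu.ne
  have h1 := h (fun w => if w = v then some u else if w = u then some v else p w) ?_ ?_
  · have h2 : 1 ≤ (newly p (fun w => if w = v then some u else if w = u then some v
        else p w)).card := Finset.card_pos.2 ⟨v, by simp [newly, hc.1]⟩
    have h3 : (1 : ℝ) ≤ (newly p (fun w => if w = v then some u else if w = u then some v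
        else p w)).card := by exact_mod_cast h2
    linarith
  · intro a b e
    by_cases c1 : a = v
    · subst c1
      simp only [if_true, Option.some.injEq] at e
      subst e
      exact ⟨hvu, by simp [hne.symm]⟩
    · by_cases c2 : a = u
      · subst c2
        simp only [if_neg c1, if_true, Option.some.injEq] at e
        subst e
        exact ⟨hvu.symm, by simp⟩
      · simp only [if_neg c1, if_neg c2] at e
        have e' := hp a b e
        have b1 : b ≠ v := by
          rintro rfl
          rw [hc.1] at e'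
          exact absurd e'.2 (by simp)
        have b2 : b ≠ u := by
          rintro rfl
          rw [hc.2] at e'
          exact absurd e'.2 (by simp)
        exact ⟨e'.1, by simp [b1, b2, e'.2]⟩
  · intro a b e
    have c1 : a ≠ v := by
      rintro rfl
      rw [hc.1] at e
      exact absurd e (by simp)
    have c2 : a ≠ u := by
      rintro rfl
      rw [hc.2] at e
      exact absurd e (by simp)
    simp [c1, c2, e]

theorem phases {T m t r : ℕ} {ε : ℝ} (hS : SplitProp gr T ε 9) (hε : 0 ≤ ε) (hm : ε * m ≤ 1 / 2)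
    (hdeg : ∀ i v, (nbr gr i v).card ≤ 2 ^ m) {c : I → V → V → ℕ} (hc : Loc gr r c)
    (hcol : IsCol (nbr gr) c (2 ^ (3 + t))) (n : ℕ) :
    ∃ p, Loc gr (r + n * (m + m * T + t + 524296)) p ∧ IsM gr p ∧
      ∀ i, Bd (gr i) (p i) ((255 / 256) ^ n * Fintype.card V) := by
  induction n with
  | zero =>
    refine ⟨fun _ _ => none, fun _ _ _ _ => rfl, fun _ _ _ h => absurd h (by simp),
      fun i q _ _ => ?_⟩
    rw [pow_zero, one_mul]
    exact_mod_cast Finset.card_le_univ _
  | succ n ih =>
    obtain ⟨p, a1, a2, a3⟩ := ih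
    obtain ⟨p', b1, b2, b3, b4⟩ := phase hS hε hm hdeg (hc.mono (by omega)) hcol a1 a2
    refine ⟨p', b1.mono (le_of_eq (by ring)), b2, fun i => ?_⟩
    obtain ⟨C, c1, c2⟩ := b4 i
    have := (a3 i).step (a2 i) (b3 i) C c1 c2
    rwa [← mul_assoc, ← pow_succ'] at this

end Pool.Agent.P.MP_6f280c_lc
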