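import Pool.Agent.P.MP_6f280c_lc.Combine

namespace Pool.Agent.P.MP_6f280c_lc

open Finset

variable {V I : Type} [Fintype V] [LinearOrder V] {gr : I → SimpleGraph V}

/-- every value is zero or a power of two times `q` -/
def Gran (q : ℝ) (x : I → V → V → ℝ) : Prop :=
  ∀ i v u, x i v u = 0 ∨ ∃ k : ℕ, x i v u = 2 ^ k * q

omit [Fintype V] [LinearOrder V] in
theorem Gran.nonneg {q : ℝ} {x : I → V → V → ℝ} (h : Gran q x) (hq : 0 < q) (i : I) (v u : V) :
    0 ≤ x i v u := by
  rcases h i v u with e | ⟨k, e⟩ <;> rw [e]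
  positivity

omit [LinearOrder V] in
theorem round_step {T : ℕ} {ε B : ℝ} (hS : SplitProp gr T ε B) (hε : 0 ≤ ε) (hB : 0 ≤ B) {r : ℕ}
    {x : I → V → V → ℝ} (hx : Loc gr r x) (hs : ∀ i v u, x i v u = x i u v)
    (ha : ∀ i v u, x i v u ≠ 0 → (gr i).Adj v u) {q : ℝ} (hq : 0 < q) (hg : Gran q x)
    (a b : ℝ) (hb : 0 ≤ b) :
    ∃ x' : I → V → V → ℝ, Loc gr (r + T) x' ∧ (∀ i v u, x' i v u = x' i u v) ∧
      (∀ i v u, x' i v u ≠ 0 → x i v u ≠ 0) ∧ Gran (2 * q) x' ∧
      ∀ i, (a - b * B * q) * ∑ v, ∑ u, x i v u - b * (1 + ε) * ∑ v, (∑ u, x i v u) ^ 2 ≤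
        a * ∑ v, ∑ u, x' i v u - b * ∑ v, (∑ u, x' i v u) ^ 2 := by
  have hmem : ∀ i v u, u ∈ univ.filter (fun u => x i v u = q) ↔ x i v u = q := by simp
  have hadj : ∀ i v u, x i v u = q → (gr i).Adj v u := fun i v u h =>
    ha i v u (by rw [h]; exact hq.ne')
  let L : Link gr r 1 :=
    { E := fun i v => univ.filter (fun u => x i v u = q)
      pt := fun _ v u => (u, v)
      rho := fun _ _ _ => 1
      locE := hx.map (fun _ f => univ.filter (fun u => f u = q))
      locP := fun _ _ _ _ => rfl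
      locR := fun _ _ _ _ => rfl
      ptE := fun i v u hu => (hmem i u v).2 (by rw [← hs]; exact (hmem i v u).1 hu)
      ptpt := fun _ _ _ _ => rfl
      ptne := fun i v u hu h => (hadj i v u ((hmem i v u).1 hu)).ne (congrArg Prod.snd h)
      rhopt := fun _ _ _ _ => rfl
      rhosq := fun _ _ _ _ => Or.inl rfl
      near := fun i v u hu => Near.of_adj (hadj i v u ((hmem i v u).1 hu)) }
  obtain ⟨σ, h1, h2, h3, h4⟩ := hS r 1 L (fun i v => 2 * b * (∑ u, x i v u) - a)
    (hx.map (fun _ f => 2 * b * (∑ u, f u) - a))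
  rw [mul_one] at h1
  have h2' : ∀ i v u, x i v u = q → σ i v u = 1 ∨ σ i v u = -1 := fun i v u h =>
    h2 i v u ((hmem i v u).2 h)
  have h3' : ∀ i v u, x i v u = q → σ i u v = σ i v u := fun i v u h => by
    have := h3 i v u ((hmem i v u).2 h)
    change σ i u v = 1 * σ i v u at this
    rwa [one_mul] at this
  refine ⟨fun i v u => if x i v u = q then q * (1 + σ i v u) else x i v u, ?_, ?_, ?_, ?_, ?_⟩
  · intro i i' v hA
    funext u
    show (if x i v u = q then _ else _) = (if x i' v u = q then _ else _)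
    rw [hx.here hA (by omega), h1.here hA le_rfl]
  · intro i v u
    by_cases h : x i v u = q
    · have h' : x i u v = q := by rw [← hs, h]
      simp only [if_pos h, if_pos h', h3' i v u h]
    · have h' : ¬ x i u v = q := by rw [← hs]; exact h
      exact (if_neg h).trans ((hs i v u).trans (if_neg h').symm)
  · intro i v u hne h0
    apply hne
    have : ¬ x i v u = q := by rw [h0]; exact hq.ne
    exact (if_neg this).trans h0
  · intro i v u
    by_cases h : x i v u = q
    · simp only [if_pos h]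
      rcases h2' i v u h with e | e <;> rw [e]
      · exact Or.inr ⟨0, by ring⟩
      · exact Or.inl (by ring)
    · simp only [if_neg h]
      rcases hg i v u with e | ⟨k, e⟩
      · exact Or.inl e
      · rcases k with _ | k
        · exact absurd (by rw [e]; ring) h
        · exact Or.inr ⟨k, by rw [e]; ring⟩
  · intro i
    have hy : ∀ v, ∑ u, (if x i v u = q then q * (1 + σ i v u) else x i v u) =
        ∑ u, x i v u + q * ∑ u ∈ L.E i v, σ i v u := by
      intro v
      change _ = _ + q * ∑ u ∈ univ.filter (fun u => x i v u = q), σ i v u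
      rw [Finset.sum_filter, Finset.mul_sum, ← Finset.sum_add_distrib]
      refine Finset.sum_congr rfl fun u _ => ?_
      split_ifs with h
      · rw [h]
        ring
      · ring
    have hd : ∀ v, q * ((L.E i v).card : ℝ) ≤ ∑ u, x i v u := by
      intro v
      have e : q * ((L.E i v).card : ℝ) = ∑ u ∈ L.E i v, x i v u := by
        have : ∑ u ∈ L.E i v, x i v u = ∑ u ∈ L.E i v, q :=
          Finset.sum_congr rfl (fun u hu => (hmem i v u).1 hu)
        rw [this, Finset.sum_const, nsmul_eq_mul, mul_comm]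
      rw [e]
      exact Finset.sum_le_sum_of_subset_of_nonneg (Finset.subset_univ _)
        (fun u _ _ => hg.nonneg hq i v u)
    simp only [hy]
    obtain ⟨g1, g2⟩ := h4 i
    have d1 : q * ∑ v, ((L.E i v).card : ℝ) ≤ ∑ v, ∑ u, x i v u := by
      rw [Finset.mul_sum]
      exact Finset.sum_le_sum fun v _ => hd v
    have d2 : q ^ 2 * ∑ v, ((L.E i v).card : ℝ) ^ 2 ≤ ∑ v, (∑ u, x i v u) ^ 2 := by
      rw [Finset.mul_sum]
      refine Finset.sum_le_sum fun v _ => ?_
      rw [← mul_pow]
      exact pow_le_pow_left₀ (by positivity) (hd v) 2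
    have e : a * ∑ v, (∑ u, x i v u + q * ∑ u ∈ L.E i v, σ i v u) -
        b * ∑ v, (∑ u, x i v u + q * ∑ u ∈ L.E i v, σ i v u) ^ 2 =
        a * ∑ v, ∑ u, x i v u - b * ∑ v, (∑ u, x i v u) ^ 2 -
          q * ∑ v, (2 * b * (∑ u, x i v u) - a) * ∑ u ∈ L.E i v, σ i v u -
          b * (q ^ 2 * ∑ v, (∑ u ∈ L.E i v, σ i v u) ^ 2) := by
      simp only [Finset.mul_sum univ, ← Finset.sum_sub_distrib]
      exact Finset.sum_congr rfl fun v _ => by
        simp only [← Finset.mul_sum]
        ring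
    rw [e]
    have f1 : q ^ 2 * ∑ v, (∑ u ∈ L.E i v, σ i v u) ^ 2 ≤
        ε * ∑ v, (∑ u, x i v u) ^ 2 + B * q * ∑ v, ∑ u, x i v u := by
      have k1 := mul_le_mul_of_nonneg_left g2 (sq_nonneg q)
      have k2 := mul_le_mul_of_nonneg_left d2 hε
      have k3 := mul_le_mul_of_nonneg_left d1 (mul_nonneg hB hq.le)
      nlinarith
    have f2 := mul_le_mul_of_nonneg_left f1 hb
    have f3 := mul_nonpos_of_nonneg_of_nonpos hq.le g1
    nlinarith

omit [LinearOrder V] in
theorem round_all {T : ℕ} {ε B : ℝ} (hS : SplitProp gr T ε B) (hε : 0 ≤ ε) (hB : 0 ≤ B)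
    (a b : ℝ) (hb : 0 ≤ b) (m : ℕ) : ∀ {r : ℕ} {x : I → V → V → ℝ} (_ : Loc gr r x)
    (_ : ∀ i v u, x i v u = x i u v) (_ : ∀ i v u, x i v u ≠ 0 → (gr i).Adj v u) {q : ℝ}
    (_ : 0 < q) (_ : Gran q x),
    ∃ x' : I → V → V → ℝ, Loc gr (r + m * T) x' ∧ (∀ i v u, x' i v u = x' i u v) ∧
      (∀ i v u, x' i v u ≠ 0 → x i v u ≠ 0) ∧ Gran (2 ^ m * q) x' ∧
      ∀ i, (a - b * (1 + ε) ^ m * B * ((2 ^ m - 1) * q)) * ∑ v, ∑ u, x i v u -
          b * (1 + ε) ^ m * ∑ v, (∑ u, x i v u) ^ 2 ≤
        a * ∑ v, ∑ u, x' i v u - b * ∑ v, (∑ u, x' i v u) ^ 2 := by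
  induction m with
  | zero =>
    intro r x hx hs _ q _ hg
    exact ⟨x, by simpa using hx, hs, fun _ _ _ h => h, by simpa using hg, fun i => by simp⟩
  | succ m ih =>
    intro r x hx hs ha q hq hg
    obtain ⟨x1, a1, a2, a3, a4, a5⟩ := round_step hS hε hB hx hs ha hq hg
      (a - b * (1 + ε) ^ m * B * ((2 ^ m - 1) * (2 * q))) (b * (1 + ε) ^ m) (by positivity)
    obtain ⟨x2, b1, b2, b3, b4, b5⟩ := ih a1 a2 (fun i v u h => ha i v u (a3 i v u h))
      (by positivity) a4
    refine ⟨x2, b1.mono (le_of_eq (by ring)), b2, fun i v u h => a3 i v u (b3 i v u h), ?_,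
      fun i => le_trans ?_ ((a5 i).trans (b5 i))⟩
    · have e : (2 : ℝ) ^ (m + 1) * q = 2 ^ m * (2 * q) := by ring
      rwa [e]
    · have hY : 0 ≤ ∑ v, ∑ u, x i v u :=
        Finset.sum_nonneg fun v _ => Finset.sum_nonneg fun u _ => hg.nonneg hq i v u
      have h2 : (1 : ℝ) ≤ 2 ^ (m + 1) := one_le_pow₀ (by norm_num)
      have h3 : 0 ≤ b * (1 + ε) ^ m * B * ((2 ^ (m + 1) - 1) * q) * ε * ∑ v, ∑ u, x i v u := by
        have : (0 : ℝ) ≤ 2 ^ (m + 1) - 1 := by linarith
        positivity
      rw [pow_succ (1 + ε), pow_succ (2 : ℝ)] at *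
      nlinarith

open Classical in
omit [LinearOrder V] in
/-- the doubling algorithm for a fractional matching among the free nodes -/
theorem doubling {r : ℕ} {F : I → V → Prop} (hF : Loc gr r F) {q : ℝ} (hq : 0 < q)
    (hdeg : ∀ i v, ((univ.filter (fun u => (gr i).Adj v u)).card : ℝ) * q ≤ 1 / 16) (t : ℕ) :
    ∃ x : I → V → V → ℝ, Loc gr (r + 1 + t) x ∧ (∀ i v u, x i v u = x i u v) ∧
      (∀ i v u, x i v u ≠ 0 → (gr i).Adj v u ∧ F i v ∧ F i u) ∧ Gran q x ∧
      (∀ i v, ∑ u, x i v u ≤ 1 / 16) ∧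
      ∀ i v u, (gr i).Adj v u → F i v → F i u →
        1 / 32 < ∑ w, x i v w ∨ 1 / 32 < ∑ w, x i u w ∨ x i v u = 2 ^ t * q := by
  induction t with
  | zero =>
    refine ⟨fun i v u => if (gr i).Adj v u ∧ F i v ∧ F i u then q else 0, ?_, ?_, ?_, ?_, ?_, ?_⟩
    · intro i i' v hA
      funext u
      show (if (gr i).Adj v u ∧ F i v ∧ F i u then _ else _) =
        (if (gr i').Adj v u ∧ F i' v ∧ F i' u then _ else _)
      rw [← hF.here hA (by omega)]
      have e := hA.adj_iff (by omega) u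
      by_cases h : (gr i).Adj v u
      · rw [← hF.adj hA h (by omega)]
        simp only [h, e.1 h]
      · have h' : ¬ (gr i').Adj v u := fun h' => h (e.2 h')
        simp only [h, h', false_and, if_false]
    · intro i v u
      by_cases h : (gr i).Adj v u ∧ F i v ∧ F i u
      · have h' : (gr i).Adj u v ∧ F i u ∧ F i v := ⟨h.1.symm, h.2.2, h.2.1⟩
        simp only [if_pos h, if_pos h']
      · have h' : ¬ ((gr i).Adj u v ∧ F i u ∧ F i v) := fun h' => h ⟨h'.1.symm, h'.2.2, h'.2.1⟩
        simp only [if_neg h, if_neg h']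
    · intro i v u h
      by_contra hc
      exact h (if_neg hc)
    · intro i v u
      by_cases h : (gr i).Adj v u ∧ F i v ∧ F i u
      · exact Or.inr ⟨0, by simp only [if_pos h]; ring⟩
      · exact Or.inl (if_neg h)
    · intro i v
      refine le_trans ?_ (hdeg i v)
      rw [Finset.card_filter]
      push_cast
      rw [Finset.sum_mul]
      refine Finset.sum_le_sum fun u _ => ?_
      by_cases h : (gr i).Adj v u
      · rw [if_pos h]
        split_ifs
        · linarith
        · linarith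
      · simp [h]
    · intro i v u h1 h2 h3
      refine Or.inr (Or.inr ?_)
      simp only [if_pos (And.intro h1 (And.intro h2 h3))]
      ring
  | succ t ih =>
    obtain ⟨x, a1, a2, a3, a4, a5, a6⟩ := ih
    have hn := a4.nonneg hq
    set x' : I → V → V → ℝ := fun i v u =>
      if (gr i).Adj v u ∧ ∑ w, x i v w ≤ 1 / 32 ∧ ∑ w, x i u w ≤ 1 / 32 then 2 * x i v u
      else x i v u with hx'
    have hmono : ∀ i v, ∑ w, x i v w ≤ ∑ w, x' i v w := fun i v =>
      Finset.sum_le_sum fun u _ => by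
        simp only [hx']
        split_ifs
        · linarith [hn i v u]
        · exact le_rfl
    refine ⟨x', ?_, ?_, ?_, ?_, ?_, ?_⟩
    · intro i i' v hA
      funext u
      simp only [hx']
      rw [← a1.here hA (by omega)]
      have e := hA.adj_iff (by omega) u
      by_cases h : (gr i).Adj v u
      · rw [← a1.adj hA h (by omega)]
        simp only [h, e.1 h]
      · have h' : ¬ (gr i').Adj v u := fun h' => h (e.2 h')
        simp only [h, h', false_and, if_false]
    · intro i v u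
      simp only [hx']
      by_cases h : (gr i).Adj v u ∧ ∑ w, x i v w ≤ 1 / 32 ∧ ∑ w, x i u w ≤ 1 / 32
      · rw [if_pos h, if_pos ⟨h.1.symm, h.2.2, h.2.1⟩, a2]
      · rw [if_neg h, if_neg (fun h' => h ⟨h'.1.symm, h'.2.2, h'.2.1⟩), a2]
    · intro i v u h
      apply a3 i v u
      intro h0
      apply h
      simp only [hx', h0]
      simp
    · intro i v u
      simp only [hx']
      split_ifs
      · rcases a4 i v u with e | ⟨k, e⟩
        · exact Or.inl (by rw [e]; ring)
        · exact Or.inr ⟨k + 1, by rw [e]; ring⟩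
      · exact a4 i v u
    · intro i v
      by_cases h : ∑ w, x i v w ≤ 1 / 32
      · have : ∑ u, x' i v u ≤ ∑ u, 2 * x i v u := Finset.sum_le_sum fun u _ => by
          simp only [hx']
          split_ifs
          · exact le_rfl
          · linarith [hn i v u]
        rw [← Finset.mul_sum] at this
        linarith
      · have : ∑ u, x' i v u = ∑ u, x i v u := Finset.sum_congr rfl fun u _ => by
          simp only [hx']
          rw [if_neg (fun h' => h h'.2.1)]
        rw [this]
        exact a5 i v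
    · intro i v u h1 h2 h3
      by_cases c1 : ∑ w, x i v w ≤ 1 / 32
      · by_cases c2 : ∑ w, x i u w ≤ 1 / 32
        · rcases a6 i v u h1 h2 h3 with h | h | h
          · exact absurd c1 (not_le.2 h)
          · exact absurd c2 (not_le.2 h)
          · refine Or.inr (Or.inr ?_)
            simp only [hx']
            rw [if_pos ⟨h1, c1, c2⟩, h]
            ring
        · exact Or.inr (Or.inl ((not_le.1 c2).trans_le (hmono i u)))
      · exact Or.inl ((not_le.1 c1).trans_le (hmono i v))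

end Pool.Agent.P.MP_6f280c_lc
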