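import Pool.Agent.P.MP_6f280c_lc.Loc

namespace Pool.Agent.P.MP_6f280c_lc

open Finset

variable {V I : Type} [Fintype V] [LinearOrder V] {gr : I → SimpleGraph V}

/-- A system of chains: `E i v` are the open ends at `v`, `pt` is the other end of the chain and
`rho` the relative sign of the two ends. -/
structure Link (gr : I → SimpleGraph V) (r ℓ : ℕ) where
  E : I → V → Finset V
  pt : I → V → V → V × V
  rho : I → V → V → ℝ
  locE : Loc gr r E
  locP : Loc gr r pt
  locR : Loc gr r rho
  ptE : ∀ i v u, u ∈ E i v → (pt i v u).2 ∈ E i (pt i v u).1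
  ptpt : ∀ i v u, u ∈ E i v → pt i (pt i v u).1 (pt i v u).2 = (v, u)
  ptne : ∀ i v u, u ∈ E i v → pt i v u ≠ (v, u)
  rhopt : ∀ i v u, u ∈ E i v → rho i (pt i v u).1 (pt i v u).2 = rho i v u
  rhosq : ∀ i v u, u ∈ E i v → rho i v u = 1 ∨ rho i v u = -1
  near : ∀ i v u, u ∈ E i v → Near (gr i) ℓ v (pt i v u).1

/-- signs on the ends with small discrepancy, computed in `T` virtual rounds -/
def SplitProp (gr : I → SimpleGraph V) (T : ℕ) (ε B : ℝ) : Prop :=
  ∀ (r ℓ : ℕ) (L : Link gr r ℓ) (γ : I → V → ℝ), Loc gr r γ →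
    ∃ σ : I → V → V → ℝ, Loc gr (r + T * ℓ) σ ∧
      (∀ i v u, u ∈ L.E i v → σ i v u = 1 ∨ σ i v u = -1) ∧
      (∀ i v u, u ∈ L.E i v → σ i (L.pt i v u).1 (L.pt i v u).2 = L.rho i v u * σ i v u) ∧
      ∀ i, ∑ v, γ i v * ∑ u ∈ L.E i v, σ i v u ≤ 0 ∧
        ∑ v, (∑ u ∈ L.E i v, σ i v u) ^ 2 ≤
          ε * ∑ v, ((L.E i v).card : ℝ) ^ 2 + B * ∑ v, ((L.E i v).card : ℝ)

theorem sum_ends (E : V → Finset V) (g : V → V → ℝ) :
    ∑ v, ∑ u ∈ E v, g v u = ∑ a ∈ univ.filter (fun a : V × V => a.2 ∈ E a.1), g a.1 a.2 := by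
  rw [Finset.sum_filter, Fintype.sum_prod_type]
  refine Finset.sum_congr rfl fun v _ => ?_
  simp only [Finset.sum_ite_mem, Finset.univ_inter]

theorem Link.sum_pt {r ℓ : ℕ} (L : Link gr r ℓ) (i : I) (f : V → V → ℝ) :
    ∑ v, ∑ u ∈ L.E i v, f (L.pt i v u).1 (L.pt i v u).2 = ∑ v, ∑ u ∈ L.E i v, f v u := by
  rw [sum_ends (L.E i) (fun v u => f (L.pt i v u).1 (L.pt i v u).2), sum_ends (L.E i) f]
  refine Finset.sum_nbij' (fun a => L.pt i a.1 a.2) (fun a => L.pt i a.1 a.2) ?_ ?_ ?_ ?_ ?_
  · intro a ha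
    simp only [Finset.mem_filter, Finset.mem_univ, true_and] at ha ⊢
    exact L.ptE i _ _ ha
  · intro a ha
    simp only [Finset.mem_filter, Finset.mem_univ, true_and] at ha ⊢
    exact L.ptE i _ _ ha
  · intro a ha
    simp only [Finset.mem_filter, Finset.mem_univ, true_and] at ha
    exact L.ptpt i _ _ ha
  · intro a ha
    simp only [Finset.mem_filter, Finset.mem_univ, true_and] at ha
    exact L.ptpt i _ _ ha
  · intro a _
    rfl

/-- sign chosen against a real number -/
noncomputable def sgnle (x : ℝ) : ℝ := if x ≤ 0 then 1 else -1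

theorem sgnle_cases (x : ℝ) : sgnle x = 1 ∨ sgnle x = -1 := by
  unfold sgnle
  split_ifs <;> simp

theorem sgnle_mul (x : ℝ) : sgnle x * x ≤ 0 := by
  unfold sgnle
  split_ifs with h
  · simpa using h
  · have := not_le.1 h
    linarith

/-- the sign rule of the base case -/
noncomputable def baseSign (a b : V × V) (ρ ga gb : ℝ) : ℝ :=
  if toLex a < toLex b then sgnle (ga + ρ * gb) else ρ * sgnle (gb + ρ * ga)

omit [Fintype V] in
theorem baseSign_swap {a b : V × V} (hab : b ≠ a) {ρ : ℝ} (hρ : ρ = 1 ∨ ρ = -1) (ga gb : ℝ) :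
    baseSign b a ρ gb ga = ρ * baseSign a b ρ ga gb := by
  unfold baseSign
  rcases lt_trichotomy (toLex a) (toLex b) with h | h | h
  · rw [if_pos h, if_neg (not_lt.2 h.le)]
  · exact absurd (toLex.injective h).symm hab
  · rw [if_pos h, if_neg (not_lt.2 h.le), ← mul_assoc]
    rcases hρ with rfl | rfl <;> simp

omit [Fintype V] in
theorem baseSign_cases (a b : V × V) {ρ : ℝ} (hρ : ρ = 1 ∨ ρ = -1) (ga gb : ℝ) :
    baseSign a b ρ ga gb = 1 ∨ baseSign a b ρ ga gb = -1 := by
  unfold baseSign
  split_ifs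
  · exact sgnle_cases _
  · rcases sgnle_cases (gb + ρ * ga) with h | h <;> rw [h] <;> rcases hρ with rfl | rfl <;> simp

omit [Fintype V] in
theorem baseSign_mul (a b : V × V) {ρ : ℝ} (hρ : ρ = 1 ∨ ρ = -1) (ga gb : ℝ) :
    baseSign a b ρ ga gb * (ga + ρ * gb) ≤ 0 := by
  unfold baseSign
  split_ifs
  · exact sgnle_mul _
  · have := sgnle_mul (gb + ρ * ga)
    rcases hρ with rfl | rfl
    · simpa [add_comm] using this
    · have e : -1 * sgnle (gb + -1 * ga) * (ga + -1 * gb) = sgnle (gb + -1 * ga) * (gb + -1 * ga) := by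
        ring
      rw [e]
      exact this

omit [Fintype V] [LinearOrder V] in
theorem abs_sum_sign_le {s : Finset V} {f : V → ℝ} (hf : ∀ u ∈ s, f u = 1 ∨ f u = -1) :
    (∑ u ∈ s, f u) ^ 2 ≤ (s.card : ℝ) ^ 2 := by
  have h1 : |∑ u ∈ s, f u| ≤ s.card := by
    refine (Finset.abs_sum_le_sum_abs _ _).trans ?_
    have : ∀ u ∈ s, |f u| = 1 := fun u hu => by rcases hf u hu with h | h <;> simp [h]
    rw [Finset.sum_congr rfl this]
    simp
  exact sq_le_sq' (abs_le.1 h1).1 (abs_le.1 h1).2

theorem split_base : SplitProp gr 1 1 0 := by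
  intro r ℓ L γ hγ
  refine ⟨fun i v u => if u ∈ L.E i v then
    baseSign (v, u) (L.pt i v u) (L.rho i v u) (γ i v) (γ i (L.pt i v u).1) else 0, ?_, ?_, ?_, ?_⟩
  · intro i i' v hA
    funext u
    have e1 := L.locE.here hA (by omega)
    have e2 := L.locP.here hA (by omega)
    have e3 := L.locR.here hA (by omega)
    have e4 := hγ.here hA (by omega)
    show (if u ∈ L.E i v then _ else _) = (if u ∈ L.E i' v then _ else _)
    rw [← e1, ← e2, ← e3, ← e4]
    by_cases hu : u ∈ L.E i v
    · rw [if_pos hu, if_pos hu, hγ.far hA (L.near i v u hu) (by omega)]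
    · rw [if_neg hu, if_neg hu]
  · intro i v u hu
    simp only [if_pos hu]
    exact baseSign_cases _ _ (L.rhosq i v u hu) _ _
  · intro i v u hu
    simp only [if_pos hu, if_pos (L.ptE i v u hu), L.ptpt i v u hu, L.rhopt i v u hu]
    exact baseSign_swap (L.ptne i v u hu) (L.rhosq i v u hu) _ _
  · intro i
    constructor
    · set σ : V → V → ℝ := fun v u => if u ∈ L.E i v then
        baseSign (v, u) (L.pt i v u) (L.rho i v u) (γ i v) (γ i (L.pt i v u).1) else 0 with hσ
      have h1 := L.sum_pt i (fun v u => γ i v * σ v u)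
      have h2 : ∑ v, ∑ u ∈ L.E i v, (γ i v * σ v u +
          γ i (L.pt i v u).1 * σ (L.pt i v u).1 (L.pt i v u).2) ≤ 0 := by
        refine Finset.sum_nonpos fun v _ => Finset.sum_nonpos fun u hu => ?_
        simp only [hσ, if_pos hu, if_pos (L.ptE i v u hu), L.ptpt i v u hu, L.rhopt i v u hu]
        rw [baseSign_swap (L.ptne i v u hu) (L.rhosq i v u hu)]
        have := baseSign_mul (v, u) (L.pt i v u) (L.rhosq i v u hu) (γ i v) (γ i (L.pt i v u).1)
        linarith
      simp only [Finset.sum_add_distrib] at h2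
      simp only [Finset.mul_sum]
      linarith
    · rw [one_mul, zero_mul, add_zero]
      refine Finset.sum_le_sum fun v _ => abs_sum_sign_le fun u hu => ?_
      simp only [if_pos hu]
      exact baseSign_cases _ _ (L.rhosq i v u hu) _ _

omit [Fintype V] in
theorem exists_mate (s : Finset V) : ∃ μ : V → V, (∀ u ∈ s, μ u ∈ s ∧ μ (μ u) = u) ∧
    (s.filter (fun u => μ u = u)).card ≤ 1 := by
  induction s using Finset.strongInduction with
  | H s ih =>
    by_cases h : s.card ≤ 1
    · exact ⟨id, fun u hu => ⟨hu, rfl⟩, (Finset.card_filter_le _ _).trans h⟩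
    · obtain ⟨a, ha, b, hb, hab⟩ := Finset.one_lt_card.1 (not_le.1 h)
      obtain ⟨μ, h1, h2⟩ := ih ((s.erase a).erase b)
        (lt_of_le_of_lt (Finset.erase_subset _ _) (Finset.erase_ssubset ha))
      refine ⟨fun x => if x = a then b else if x = b then a else μ x, ?_, ?_⟩
      · intro u hu
        by_cases ua : u = a
        · subst ua
          simp [hb, hab.symm]
        · by_cases ub : u = b
          · subst ub
            simp [ha, ua]
          · have hu' : u ∈ (s.erase a).erase b := by simp [hu, ua, ub]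
            obtain ⟨m1, m2⟩ := h1 u hu'
            simp only [Finset.mem_erase] at m1
            simp [ua, ub, m1.1, m1.2.1, m1.2.2, m2]
      · refine le_trans (Finset.card_le_card ?_) h2
        intro u hu
        simp only [Finset.mem_filter, Finset.mem_erase] at hu ⊢
        by_cases ua : u = a
        · subst ua
          simp [hab.symm] at hu
        · by_cases ub : u = b
          · subst ub
            simp [ua, hab] at hu
          · simpa [ua, ub] using hu

/-- a pairing of the elements of a finite set with at most one fixed point -/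
noncomputable def mate (s : Finset V) : V → V := Classical.choose (exists_mate s)

omit [Fintype V] in
theorem mate_mem {s : Finset V} {u : V} (hu : u ∈ s) : mate s u ∈ s :=
  ((Classical.choose_spec (exists_mate s)).1 u hu).1

omit [Fintype V] in
theorem mate_mate {s : Finset V} {u : V} (hu : u ∈ s) : mate s (mate s u) = u :=
  ((Classical.choose_spec (exists_mate s)).1 u hu).2

omit [Fintype V] in
theorem mate_fixed (s : Finset V) : (s.filter (fun u => mate s u = u)).card ≤ 1 :=
  (Classical.choose_spec (exists_mate s)).2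

end Pool.Agent.P.MP_6f280c_lc
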